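import Pool.Agent.H64.FR.BD

/-!
Module BA.  Balanced separators and leaves; graphs without edges.

`bs_bot`: `V` finite.  All tokens are `(x, x)`.  If `V` is empty then `n = 0` (or there is no `z`): `X = ∅`.  Otherwise let `x₀` maximise
`c x := #{i | (τ i).1 = x}` and `X = {x₀}`: for `z ≠ x₀` the component of `z` is `{z}` (no edges), `tc = c z ≤ c x₀` and
`c z + c x₀ ≤ n` (disjoint sets of indices).

`bs_leaf`: given `τ` let `A := {i | (τ i).1 = u ∨ (τ i).2 = u}`.  A token in `A` is `(u,u)`, `(u,w)` or `(w,u)`.
* `n < 2 |A|`: `X = {u, w}` (`Finset` with at most two elements).  For `z ∉ X` no token of `A` touches the component of `z` in `del G X`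
  (`del_reach_mem`: `u` and `w` are isolated there), so `tc ≤ n - |A|`.
* `2 |A| ≤ n`: `τ' i := if i ∈ A then (w, w) else τ i`, a token family of `del G {u}`; take `X` from the hypothesis.
  Let `z ∉ X`, `H := del G X`, `H' := del (del G {u}) X` (`= del H {u}`).
  - `z ≠ u`: if token `i` touches the component of `z` in `H` then `τ' i` touches it in `H'`: for a target `t ≠ u`, `H.Reachable z t` gives
    `H'.Reachable z t` (`reach_leaf` for `H`, in which `u` is a leaf as well); for the target `u`: `H.Reachable z u` with `z ≠ u` gives a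
    neighbour of `u` in `H`, which is `w`, and `H'.Reachable z w` (`reach_del_nb` for `H`).
  - `z = u`: if `H.Adj u w`, then `w ∉ X` and `tc H τ u = tc H τ w` (`tc_congr`): reduce to `z = w ≠ u`.  Otherwise `u` is isolated in
    `H` and `tc H τ u ≤ |A|`.
-/

set_option autoImplicit false
set_option linter.all false

namespace Pool.Agent.H64.FR

open Classical

noncomputable section

variable {V : Type*}

theorem BA_iso {H : SimpleGraph V} {u t : V} (hu : ∀ x, ¬ H.Adj u x) (h : H.Reachable u t) :
    t = u := by
  obtain ⟨p⟩ := h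
  cases p with
  | nil => rfl
  | cons hadj _ => exact absurd hadj (hu _)

theorem bs_bot [Fintype V] {k : ℕ} (hk : 1 ≤ k) {G : SimpleGraph V} (h : ∀ u v, ¬ G.Adj u v) :
    BS k G := by
  intro n τ hτ
  have hτ' : ∀ i, (τ i).1 = (τ i).2 := fun i => (hτ i).resolve_right (h _ _)
  rcases isEmpty_or_nonempty V with hV | hV
  · exact ⟨∅, by simp, fun z => (hV.false z).elim⟩
  obtain ⟨x0, -, hx0⟩ := Finset.exists_max_image (Finset.univ : Finset V)
    (fun x => (Finset.univ.filter (fun i => (τ i).1 = x)).card) Finset.univ_nonempty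
  refine ⟨{x0}, by simpa using hk, fun z hz => ?_⟩
  have hz' : z ≠ x0 := fun h' => hz (h' ▸ Finset.mem_singleton_self _)
  have h1 : tc (del G (({x0} : Finset V) : Set V)) τ z ≤
      (Finset.univ.filter (fun i => (τ i).1 = z)).card := by
    apply tc_le_of
    intro i hi
    rw [Finset.mem_filter]
    refine ⟨Finset.mem_univ _, ?_⟩
    have hiso : ∀ x, ¬ (del G (({x0} : Finset V) : Set V)).Adj z x := fun x hx => h _ _ hx.1
    rcases hi with hi | hi
    · exact BA_iso hiso hi
    · rw [hτ' i]; exact BA_iso hiso hi
  have h2 := hx0 z (Finset.mem_univ _)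
  have h3 : (Finset.univ.filter (fun i => (τ i).1 = z)).card +
      (Finset.univ.filter (fun i => (τ i).1 = x0)).card ≤ n := by
    rw [← Finset.card_union_of_disjoint]
    · refine (Finset.card_le_univ _).trans (by simp)
    · rw [Finset.disjoint_filter]
      intro i _ h4 h5
      exact hz' (h4.symm.trans h5)
  omega

theorem bs_leaf {k : ℕ} (hk : 2 ≤ k) {G : SimpleGraph V} {u w : V} (hN : ∀ x, G.Adj u x → x = w)
    (h : BS k (del G {u})) : BS k G := by
  intro n τ hτ
  set A : Finset (Fin n) := Finset.univ.filter (fun i => (τ i).1 = u ∨ (τ i).2 = u) with hA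
  have hAmem : ∀ i, i ∈ A ↔ ((τ i).1 = u ∨ (τ i).2 = u) := by
    intro i; rw [hA, Finset.mem_filter]; simp
  -- ends of tokens in `A`
  have hend : ∀ i ∈ A, ((τ i).1 = u ∨ (τ i).1 = w) ∧ ((τ i).2 = u ∨ (τ i).2 = w) := by
    intro i hi
    rcases (hAmem i).1 hi with h1 | h1
    · refine ⟨Or.inl h1, ?_⟩
      rcases hτ i with h2 | h2
      · exact Or.inl (h2 ▸ h1)
      · exact Or.inr (hN _ (h1 ▸ h2))
    · refine ⟨?_, Or.inl h1⟩
      rcases hτ i with h2 | h2
      · exact Or.inl (h2.trans h1)
      · exact Or.inr (hN _ (h1 ▸ h2.symm))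
  rcases Nat.lt_or_ge n (2 * A.card) with hlt | hge
  · refine ⟨{u, w}, (Finset.card_le_two).trans hk, fun z hz => ?_⟩
    have h1 : tc (del G (({u, w} : Finset V) : Set V)) τ z ≤ (Aᶜ).card := by
      apply tc_le_of
      intro i hi
      rw [Finset.mem_compl]
      intro hiA
      have h2 := hend i hiA
      have h3 : ∀ t, (t = u ∨ t = w) → ¬ (del G (({u, w} : Finset V) : Set V)).Reachable z t := by
        intro t ht hr
        have h4 : t ∈ (({u, w} : Finset V) : Set V) := by
          simp only [Finset.coe_insert, Finset.coe_singleton, Set.mem_insert_iff,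
            Set.mem_singleton_iff]
          exact ht
        have h5 := del_reach_mem h4 hr.symm
        exact hz (h5 ▸ Finset.mem_coe.1 h4)
      rcases hi with hi | hi
      · exact h3 _ h2.1 hi
      · exact h3 _ h2.2 hi
    rw [Finset.card_compl, Fintype.card_fin] at h1
    omega
  · obtain ⟨X, hX, hXz⟩ := h n (fun i => if i ∈ A then (w, w) else τ i) (by
      intro i
      by_cases hi : i ∈ A
      · left; simp [hi]
      · simp only [hi, if_false]
        have h1 := mt (hAmem i).2 hi
        push Not at h1
        rcases hτ i with h2 | h2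
        · exact Or.inl h2
        · exact Or.inr ⟨h2, h1.1, h1.2⟩)
    refine ⟨X, hX, ?_⟩
    have hNH : ∀ x, (del G (X : Set V)).Adj u x → x = w := fun x hx => hN x hx.1
    have hle : del (del G (X : Set V)) {u} ≤ del (del G {u}) (X : Set V) := by
      intro p q hpq
      exact ⟨⟨hpq.1.1, hpq.2.1, hpq.2.2⟩, hpq.1.2.1, hpq.1.2.2⟩
    have hreach : ∀ z t, z ≠ u → t ≠ u → (del G (X : Set V)).Reachable z t →
        (del (del G {u}) (X : Set V)).Reachable z t := fun z t hz ht hr =>
      (reach_leaf hNH hr hz ht).mono hle
    have hreachu : ∀ z, z ≠ u → (del G (X : Set V)).Reachable z u →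
        (del (del G {u}) (X : Set V)).Reachable z w := by
      intro z hz hr
      obtain ⟨w', h1, h2⟩ := reach_del_nb hr hz
      rw [hNH w' h1] at h2
      exact h2.mono hle
    have hmain : ∀ z, z ∉ X → z ≠ u → 2 * tc (del G (X : Set V)) τ z ≤ n := by
      intro z hzX hzu
      refine le_trans (Nat.mul_le_mul_left 2 ?_) (hXz z hzX)
      apply tc_le_of
      intro i hi
      rw [Finset.mem_filter]
      refine ⟨Finset.mem_univ _, ?_⟩
      by_cases hiA : i ∈ A
      · simp only [hiA, if_true, or_self]
        have h2 := hend i hiA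
        have h3 : ∀ t, (t = u ∨ t = w) → (del G (X : Set V)).Reachable z t →
            (del (del G {u}) (X : Set V)).Reachable z w := by
          intro t ht hr
          by_cases htu : t = u
          · exact hreachu z hzu (htu ▸ hr)
          · have h4 := ht.resolve_left htu
            rw [← h4]
            exact hreach z t hzu htu hr
        rcases hi with hi | hi
        · exact h3 _ h2.1 hi
        · exact h3 _ h2.2 hi
      · simp only [hiA, if_false]
        have h1 := mt (hAmem i).2 hiA
        push Not at h1
        exact hi.imp (hreach z _ hzu h1.1) (hreach z _ hzu h1.2)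
    intro z hzX
    by_cases hzu : z = u
    · by_cases hadj : (del G (X : Set V)).Adj u w
      · rw [hzu, tc_congr τ hadj.reachable]
        exact hmain w (fun h' => hadj.2.2 h') hadj.ne'
      · rw [hzu]
        refine le_trans (Nat.mul_le_mul_left 2 (tc_le_of τ u A ?_)) hge
        intro i hi
        rw [hAmem]
        have hiso : ∀ x, ¬ (del G (X : Set V)).Adj u x := by
          intro x hx
          exact hadj (hNH x hx ▸ hx)
        exact hi.imp (BA_iso hiso) (BA_iso hiso)
    · exact hmain z hzX hzu

end

end Pool.Agent.H64.FR
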