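import Pool.Agent.H64.FR.BD

/-!
Module BB.  Balanced separators and suppression of a vertex of degree two.

Given `τ` let `A := {i | (τ i).1 = u ∨ (τ i).2 = u}`.  A token in `A` is `(u,u)` or joins `u` and `a` or `u` and `b`.
* `n < 2 |A|`: `X = {u, a, b}`: for `z ∉ X` no token of `A` touches the component of `z` in `del G X`, so `tc ≤ n - |A|`.
* `2 |A| ≤ n`: `τ' i := if i ∈ A then (a, b) else τ i`, a token family of `link G u a b` (`a ≠ b`).  Take `X` from the hypothesis,
  `z ∉ X`, `H := del G X`, `H' := del (link G u a b) X`.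
  Key fact: for `s, t ≠ u`: `H.Reachable s t → H'.Reachable s t`.  Proof: if `a, b ∉ X` this is `reach_link` for `H`
  (`link H u a b ≤ H'`); if `b ∈ X`, `a` is the only possible neighbour of `u` in `H`: `reach_leaf` for `H` (`del H {u} ≤ H'`); same
  for `a ∈ X`.
  - `z ≠ u`: a token `i ∉ A` touching the component of `z` in `H` touches it in `H'` by the key fact.  A token `i ∈ A`: if it touches
    through `u`, `reach_del_nb` for `H` gives a neighbour `s ∈ {a, b}` of `u` with `(del H {u}).Reachable z s`, hence
    `H'.Reachable z s`; if it touches through `a` or `b` use the key fact.  In all cases `τ' i = (a, b)` touches.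
  - `z = u`: if `H.Adj u a` reduce to `z = a` by `tc_congr` (`a ∉ X`); same for `b`; otherwise `u` is isolated in `H` and
    `tc H τ u ≤ |A|`.
-/

set_option autoImplicit false
set_option linter.all false

namespace Pool.Agent.H64.FR

open Classical

noncomputable section

variable {V : Type*}

theorem BB_iso {H : SimpleGraph V} {u t : V} (hu : ∀ x, ¬ H.Adj u x) (h : H.Reachable u t) :
    t = u := by
  obtain ⟨p⟩ := h
  cases p with
  | nil => rfl
  | cons hadj _ => exact absurd hadj (hu _)

theorem bs_link {k : ℕ} (hk : 3 ≤ k) {G : SimpleGraph V} {u a b : V} (hab : a ≠ b) (hau : a ≠ u)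
    (hbu : b ≠ u) (hN : ∀ x, G.Adj u x → x = a ∨ x = b) (h : BS k (link G u a b)) : BS k G := by
  intro n τ hτ
  set A : Finset (Fin n) := Finset.univ.filter (fun i => (τ i).1 = u ∨ (τ i).2 = u) with hA
  have hAmem : ∀ i, i ∈ A ↔ ((τ i).1 = u ∨ (τ i).2 = u) := by
    intro i; rw [hA, Finset.mem_filter]; simp
  -- ends of tokens in `A`
  have hend : ∀ i ∈ A, ((τ i).1 = u ∨ (τ i).1 = a ∨ (τ i).1 = b) ∧
      ((τ i).2 = u ∨ (τ i).2 = a ∨ (τ i).2 = b) := by
    intro i hi
    rcases (hAmem i).1 hi with h1 | h1
    · refine ⟨Or.inl h1, ?_⟩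
      rcases hτ i with h2 | h2
      · exact Or.inl (h2 ▸ h1)
      · exact Or.inr (hN _ (h1 ▸ h2))
    · refine ⟨?_, Or.inl h1⟩
      rcases hτ i with h2 | h2
      · exact Or.inl (h2.trans h1)
      · exact Or.inr (hN _ (h1 ▸ h2.symm))
  rcases Nat.lt_or_ge n (2 * A.card) with hlt | hge
  · refine ⟨{u, a, b}, (Finset.card_le_three).trans hk, fun z hz => ?_⟩
    have h1 : tc (del G (({u, a, b} : Finset V) : Set V)) τ z ≤ (Aᶜ).card := by
      apply tc_le_of
      intro i hi
      rw [Finset.mem_compl]
      intro hiA
      have h2 := hend i hiA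
      have h3 : ∀ t, (t = u ∨ t = a ∨ t = b) →
          ¬ (del G (({u, a, b} : Finset V) : Set V)).Reachable z t := by
        intro t ht hr
        have h4 : t ∈ (({u, a, b} : Finset V) : Set V) := by
          simp only [Finset.coe_insert, Finset.coe_singleton, Set.mem_insert_iff,
            Set.mem_singleton_iff]
          exact ht
        have h5 := del_reach_mem h4 hr.symm
        exact hz (h5 ▸ Finset.mem_coe.1 h4)
      rcases hi with hi | hi
      · exact h3 _ h2.1 hi
      · exact h3 _ h2.2 hi
    rw [Finset.card_compl, Fintype.card_fin] at h1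
    omega
  · obtain ⟨X, hX, hXz⟩ := h n (fun i => if i ∈ A then (a, b) else τ i) (by
      intro i
      by_cases hi : i ∈ A
      · right
        simp only [hi, if_true]
        exact Or.inr ⟨hab, Or.inl ⟨rfl, rfl⟩⟩
      · simp only [hi, if_false]
        have h1 := mt (hAmem i).2 hi
        push Not at h1
        rcases hτ i with h2 | h2
        · exact Or.inl h2
        · exact Or.inr (Or.inl ⟨h2, h1.1, h1.2⟩))
    refine ⟨X, hX, ?_⟩
    have hNH : ∀ x, (del G (X : Set V)).Adj u x → x = a ∨ x = b := fun x hx => hN x hx.1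
    have hle : del (del G (X : Set V)) {u} ≤ del (link G u a b) (X : Set V) := by
      intro p q hpq
      exact ⟨Or.inl ⟨hpq.1.1, hpq.2.1, hpq.2.2⟩, hpq.1.2.1, hpq.1.2.2⟩
    have hreach : ∀ z t, z ≠ u → t ≠ u → (del G (X : Set V)).Reachable z t →
        (del (link G u a b) (X : Set V)).Reachable z t := by
      intro z t hz ht hr
      by_cases hbX : b ∈ (X : Set V)
      · refine (reach_leaf (w := a) (fun x hx => ?_) hr hz ht).mono hle
        rcases hNH x hx with h1 | h1
        · exact h1
        · exact absurd (h1 ▸ hbX) hx.2.2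
      by_cases haX : a ∈ (X : Set V)
      · refine (reach_leaf (w := b) (fun x hx => ?_) hr hz ht).mono hle
        rcases hNH x hx with h1 | h1
        · exact absurd (h1 ▸ haX) hx.2.2
        · exact h1
      · refine (reach_link hNH hab hr hz ht).mono ?_
        intro p q hpq
        rcases hpq with ⟨h1, h2, h3⟩ | ⟨h1, h2⟩
        · exact ⟨Or.inl ⟨h1.1, h2, h3⟩, h1.2.1, h1.2.2⟩
        · refine ⟨Or.inr ⟨h1, h2⟩, ?_, ?_⟩
          · rcases h2 with h2 | h2
            · rw [h2.1]; exact haX
            · rw [h2.1]; exact hbX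
          · rcases h2 with h2 | h2
            · rw [h2.2]; exact hbX
            · rw [h2.2]; exact haX
    have hreachu : ∀ z, z ≠ u → (del G (X : Set V)).Reachable z u →
        (del (link G u a b) (X : Set V)).Reachable z a ∨
          (del (link G u a b) (X : Set V)).Reachable z b := by
      intro z hz hr
      obtain ⟨w', h1, h2⟩ := reach_del_nb hr hz
      have h4 := h2.mono hle
      rcases hNH w' h1 with h3 | h3
      · left; exact h3 ▸ h4
      · right; exact h3 ▸ h4
    have hmain : ∀ z, z ∉ X → z ≠ u → 2 * tc (del G (X : Set V)) τ z ≤ n := by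
      intro z hzX hzu
      refine le_trans (Nat.mul_le_mul_left 2 ?_) (hXz z hzX)
      apply tc_le_of
      intro i hi
      rw [Finset.mem_filter]
      refine ⟨Finset.mem_univ _, ?_⟩
      by_cases hiA : i ∈ A
      · simp only [hiA, if_true]
        have h2 := hend i hiA
        have h3 : ∀ t, (t = u ∨ t = a ∨ t = b) → (del G (X : Set V)).Reachable z t →
            (del (link G u a b) (X : Set V)).Reachable z a ∨
              (del (link G u a b) (X : Set V)).Reachable z b := by
          intro t ht hr
          rcases ht with ht | ht | ht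
          · exact hreachu z hzu (ht ▸ hr)
          · left; exact hreach z a hzu hau (ht ▸ hr)
          · right; exact hreach z b hzu hbu (ht ▸ hr)
        rcases hi with hi | hi
        · exact h3 _ h2.1 hi
        · exact h3 _ h2.2 hi
      · simp only [hiA, if_false]
        have h1 := mt (hAmem i).2 hiA
        push Not at h1
        exact hi.imp (hreach z _ hzu h1.1) (hreach z _ hzu h1.2)
    intro z hzX
    by_cases hzu : z = u
    · by_cases hadj : (del G (X : Set V)).Adj u a
      · rw [hzu, tc_congr τ hadj.reachable]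
        exact hmain a (fun h' => hadj.2.2 h') hadj.ne'
      by_cases hadj2 : (del G (X : Set V)).Adj u b
      · rw [hzu, tc_congr τ hadj2.reachable]
        exact hmain b (fun h' => hadj2.2.2 h') hadj2.ne'
      · rw [hzu]
        refine le_trans (Nat.mul_le_mul_left 2 (tc_le_of τ u A ?_)) hge
        intro i hi
        rw [hAmem]
        have hiso : ∀ x, ¬ (del G (X : Set V)).Adj u x := by
          intro x hx
          rcases hNH x hx with h1 | h1
          · exact hadj (h1 ▸ hx)
          · exact hadj2 (h1 ▸ hx)
        exact hi.imp (BB_iso hiso) (BB_iso hiso)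
    · exact hmain z hzX hzu

end

end Pool.Agent.H64.FR
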