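import Pool.Agent.H64.FR.BD

/-!
Module BC.  Balanced separators and bridges.

`H₁ := cut G x y`, `Y := {z | H₁.Reachable y z}`, `Z := {z | H₁.Reachable x z}`; `x ∉ Y`, `y ∉ Z`, `Y` and `Z` are disjoint.
A token that is not the edge `xy` (in either order) has both ends in the same `H₁`-component.
`E := {i | τ i = (x,y) or (y,x)}`, `AY := {i ∉ E | (τ i).1 ∈ Y}`, `AZ := {i ∉ E | (τ i).1 ∈ Z}`: pairwise disjoint; tokens outside
`AY ∪ E` have no end in `Y`.
Case 1: `2 (|AY| + |E|) ≤ n`.  `τ' i := if i ∈ AY ∪ E then (x, x) else τ i`, a token family of `H₁`.  `X` from the hypothesis.  Let `z ∉ X`.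
  Key fact (induct on the walk, for all start points `s ∉ Y`): `(del G X).Reachable s t` implies: if `t ∉ Y` then
  `(del H₁ X).Reachable s t`; if `t ∈ Y` then `(del H₁ X).Reachable s x` (crossing from outside `Y` into `Y` is only possible along
  `x y`; then `x ∉ X`).  (Convenient formulation: with `φ v := if v ∈ Y then x else v`: `(del G X).Reachable s t`, `s ∉ Y` implies
  `(del H₁ X).Reachable s (φ t)`; prove it by induction on the last step of the walk.)
  - `z ∉ Y`: every token touching the component of `z` in `del G X`: its `τ'` touches it in `del H₁ X`.  So `tc ≤ tc' ≤ n/2`.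
  - `z ∈ Y`: if `(del G X).Reachable z x`, then `x ∉ X` unless `z = x` (impossible), and `tc` is the same for `x` (`tc_congr`), `x ∉ Y`: previous
    case.  Otherwise the component of `z` in `del G X` stays inside `Y` (leaving `Y` needs the edge `y x` and ends in `x`); the tokens
    touching it are in `AY ∪ E`.
Case 2: `2 (|AZ| + |E|) ≤ n`: apply case 1 with `x, y` exchanged (state case 1 as a lemma; `cut G y x` has the same edges as
  `cut G x y`; the hypothesis `2 (|AY|+|E|) ≤ n` can be phrased as: at most half of the tokens have an end in `Y`).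
Case 3: otherwise `X = {x, y}`: `del G X ≤ H₁`; for `z ∉ X`: if `z ∈ Y` the touching tokens are in `AY`, `|AY| ≤ n - |AZ| - |E| < n/2`; if
  `z ∉ Y`, the touching tokens are outside `AY ∪ E`: at most `n - |AY| - |E| < n/2`.
-/

set_option autoImplicit false
set_option linter.all false

namespace Pool.Agent.H64.FR

open Classical

noncomputable section

variable {V : Type*}

/-- an edge of `G` is an edge of the cut graph or the edge `xy` -/
theorem BC_edge {G : SimpleGraph V} {x y p q : V} (h : G.Adj p q) :
    (cut G x y).Adj p q ∨ (p = x ∧ q = y) ∨ (p = y ∧ q = x) := by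
  by_cases h1 : (p = x ∧ q = y) ∨ (p = y ∧ q = x)
  · exact Or.inr h1
  · exact Or.inl ⟨h, h1⟩

/-- an edge of `G` with exactly one end in the side of `y` is the edge `y x` -/
theorem BC_cross {G : SimpleGraph V} {x y p q : V}
    (hb : ¬ (cut G x y).Reachable x y) (h : G.Adj p q) (hp : (cut G x y).Reachable y p)
    (hq : ¬ (cut G x y).Reachable y q) : p = y ∧ q = x := by
  rcases BC_edge (x := x) (y := y) h with h1 | ⟨h1, h2⟩ | h1
  · exact absurd (hp.trans h1.reachable) hq
  · exact absurd (h1 ▸ hp).symm hb
  · exact h1

theorem BC_case {k : ℕ} {G : SimpleGraph V} {x y : V}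
    (hb : ¬ (cut G x y).Reachable x y) (h : BS k (cut G x y)) (n : ℕ) (τ : Fin n → V × V)
    (hτ : ∀ i, (τ i).1 = (τ i).2 ∨ G.Adj (τ i).1 (τ i).2) (hY : 2 * tc (cut G x y) τ y ≤ n) :
    ∃ X : Finset V, X.card ≤ k ∧ ∀ z, z ∉ X → 2 * tc (del G (X : Set V)) τ z ≤ n := by
  set A : Finset (Fin n) := Finset.univ.filter
    (fun i => (cut G x y).Reachable y (τ i).1 ∨ (cut G x y).Reachable y (τ i).2) with hA
  have hAmem : ∀ i, i ∈ A ↔
      ((cut G x y).Reachable y (τ i).1 ∨ (cut G x y).Reachable y (τ i).2) := by
    intro i; rw [hA, Finset.mem_filter]; simp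
  have hxY : ¬ (cut G x y).Reachable y x := fun h' => hb h'.symm
  obtain ⟨X, hX, hXz⟩ := h n (fun i => if i ∈ A then (x, x) else τ i) (by
    intro i
    by_cases hi : i ∈ A
    · left; simp [hi]
    · simp only [hi, if_false]
      have h1 := mt (hAmem i).2 hi
      push Not at h1
      rcases hτ i with h2 | h2
      · exact Or.inl h2
      · rcases BC_edge (x := x) (y := y) h2 with h3 | h3 | h3
        · exact Or.inr h3
        · exact absurd (h3.2 ▸ SimpleGraph.Reachable.refl _) h1.2
        · exact absurd (h3.1 ▸ SimpleGraph.Reachable.refl _) h1.1)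
  refine ⟨X, hX, ?_⟩
  have hstep : ∀ p q, (del G (X : Set V)).Adj p q → (del (cut G x y) (X : Set V)).Reachable
      (if (cut G x y).Reachable y p then x else p) (if (cut G x y).Reachable y q then x else q) := by
    intro p q hpq
    by_cases hp : (cut G x y).Reachable y p
    · rw [if_pos hp]
      by_cases hq : (cut G x y).Reachable y q
      · rw [if_pos hq]
      · rw [if_neg hq, (BC_cross hb hpq.1 hp hq).2]
    · rw [if_neg hp]
      by_cases hq : (cut G x y).Reachable y q
      · rw [if_pos hq, (BC_cross hb hpq.1.symm hq hp).2]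
      · rw [if_neg hq]
        rcases BC_edge (x := x) (y := y) hpq.1 with h3 | h3 | h3
        · have h4 : (del (cut G x y) (X : Set V)).Adj p q := ⟨h3, hpq.2⟩
          exact h4.reachable
        · exact absurd (h3.2 ▸ SimpleGraph.Reachable.refl _) hq
        · exact absurd (h3.1 ▸ SimpleGraph.Reachable.refl _) hp
  have hreach : ∀ p q, (del G (X : Set V)).Reachable p q → (del (cut G x y) (X : Set V)).Reachable
      (if (cut G x y).Reachable y p then x else p) (if (cut G x y).Reachable y q then x else q) := by
    rintro p q ⟨w⟩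
    induction w with
    | nil => exact SimpleGraph.Reachable.refl _
    | cons hadj _ ih => exact (hstep _ _ hadj).trans ih
  have hmain : ∀ z, z ∉ X → ¬ (cut G x y).Reachable y z → 2 * tc (del G (X : Set V)) τ z ≤ n := by
    intro z hzX hzY
    refine le_trans (Nat.mul_le_mul_left 2 ?_) (hXz z hzX)
    apply tc_le_of
    intro i hi
    rw [Finset.mem_filter]
    refine ⟨Finset.mem_univ _, ?_⟩
    by_cases hiA : i ∈ A
    · simp only [hiA, if_true, or_self]
      -- ends outside the side of `y` are `x`
      have h3 : ∀ t, (cut G x y).Reachable y t ∨ t = x → (del G (X : Set V)).Reachable z t →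
          (del (cut G x y) (X : Set V)).Reachable z x := by
        intro t ht hr
        have h4 := hreach z t hr
        rw [if_neg hzY] at h4
        rcases ht with ht | ht
        · rwa [if_pos ht] at h4
        · rw [ht, if_neg hxY] at h4
          exact h4
      have h5 : ((cut G x y).Reachable y (τ i).1 ∨ (τ i).1 = x) ∧
          ((cut G x y).Reachable y (τ i).2 ∨ (τ i).2 = x) := by
        rcases hτ i with h2 | h2
        · have h6 : (cut G x y).Reachable y (τ i).1 := by
            rcases (hAmem i).1 hiA with h7 | h7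
            · exact h7
            · rw [h2]; exact h7
          exact ⟨Or.inl h6, Or.inl (h2 ▸ h6)⟩
        · by_cases h6 : (cut G x y).Reachable y (τ i).1
          · refine ⟨Or.inl h6, ?_⟩
            by_cases h7 : (cut G x y).Reachable y (τ i).2
            · exact Or.inl h7
            · exact Or.inr (BC_cross hb h2 h6 h7).2
          · have h7 : (cut G x y).Reachable y (τ i).2 := ((hAmem i).1 hiA).resolve_left h6
            exact ⟨Or.inr (BC_cross hb h2.symm h7 h6).2, Or.inl h7⟩
      rcases hi with hi | hi
      · exact h3 _ h5.1 hi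
      · exact h3 _ h5.2 hi
    · simp only [hiA, if_false]
      have h1 := mt (hAmem i).2 hiA
      push Not at h1
      refine hi.imp (fun h2 => ?_) (fun h2 => ?_)
      · have h4 := hreach z _ h2
        rwa [if_neg hzY, if_neg h1.1] at h4
      · have h4 := hreach z _ h2
        rwa [if_neg hzY, if_neg h1.2] at h4
  intro z hzX
  by_cases hzY : (cut G x y).Reachable y z
  · by_cases hzx : (del G (X : Set V)).Reachable z x
    · rw [tc_congr τ hzx]
      refine hmain x (fun hxX => ?_) hxY
      have h1 := del_reach_mem (Finset.mem_coe.2 hxX) hzx.symm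
      exact hxY (h1 ▸ hzY)
    · refine le_trans (Nat.mul_le_mul_left 2 (tc_le_of τ z A ?_)) hY
      have h2 : ∀ s t, (del G (X : Set V)).Reachable s t → (cut G x y).Reachable y s →
          ¬ (del G (X : Set V)).Reachable s x → (cut G x y).Reachable y t := by
        rintro s t ⟨w⟩
        induction w with
        | nil => intro h3 _; exact h3
        | @cons a b c hadj _ ih =>
          intro h3 h4
          have h5 : (cut G x y).Reachable y b := by
            by_contra h6
            have h7 := (BC_cross hb hadj.1 h3 h6).2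
            exact h4 (h7 ▸ hadj.reachable)
          exact ih h5 (fun h6 => h4 (hadj.reachable.trans h6))
      intro i hi
      rw [hAmem]
      exact hi.imp (fun h3 => h2 _ _ h3 hzY hzx) (fun h3 => h2 _ _ h3 hzY hzx)
  · exact hmain z hzX hzY

theorem BC_symm (G : SimpleGraph V) (x y : V) : cut G y x = cut G x y := by
  ext p q
  rw [cut_adj, cut_adj]
  constructor
  · rintro ⟨h1, h2⟩
    exact ⟨h1, fun h3 => h2 (h3.elim (fun h => Or.inr ⟨h.1, h.2⟩) (fun h => Or.inl ⟨h.1, h.2⟩))⟩
  · rintro ⟨h1, h2⟩
    exact ⟨h1, fun h3 => h2 (h3.elim (fun h => Or.inr ⟨h.1, h.2⟩) (fun h => Or.inl ⟨h.1, h.2⟩))⟩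

theorem bs_cut {k : ℕ} (hk : 2 ≤ k) {G : SimpleGraph V} {x y : V}
    (hb : ¬ (cut G x y).Reachable x y) (h : BS k (cut G x y)) : BS k G := by
  intro n τ hτ
  by_cases hY : 2 * tc (cut G x y) τ y ≤ n
  · exact BC_case hb h n τ hτ hY
  by_cases hZ : 2 * tc (cut G x y) τ x ≤ n
  · have hb' : ¬ (cut G y x).Reachable y x := by
      rw [BC_symm]; exact fun h' => hb h'.symm
    exact BC_case hb' (by rw [BC_symm]; exact h) n τ hτ (by rw [BC_symm]; exact hZ)
  push Not at hY hZ
  refine ⟨{x, y}, (Finset.card_le_two).trans hk, fun z hz => ?_⟩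
  have hmx : x ∈ (({x, y} : Finset V) : Set V) := by simp
  have hmy : y ∈ (({x, y} : Finset V) : Set V) := by simp
  have hzx : ¬ (del G (({x, y} : Finset V) : Set V)).Reachable z x := by
    intro hr
    have h5 := del_reach_mem hmx hr.symm
    exact hz (h5 ▸ Finset.mem_coe.1 hmx)
  have hzy : ¬ (del G (({x, y} : Finset V) : Set V)).Reachable z y := by
    intro hr
    have h5 := del_reach_mem hmy hr.symm
    exact hz (h5 ▸ Finset.mem_coe.1 hmy)
  have hle : del G (({x, y} : Finset V) : Set V) ≤ cut G x y := by
    intro p q hpq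
    refine ⟨hpq.1, ?_⟩
    rintro (h1 | h1)
    · exact hpq.2.1 (h1.1 ▸ hmx)
    · exact hpq.2.1 (h1.1 ▸ hmy)
  have hcompl : ∀ v, (∀ i, ((del G (({x, y} : Finset V) : Set V)).Reachable z (τ i).1 ∨
      (del G (({x, y} : Finset V) : Set V)).Reachable z (τ i).2) →
      ¬ ((cut G x y).Reachable v (τ i).1 ∨ (cut G x y).Reachable v (τ i).2)) →
      tc (del G (({x, y} : Finset V) : Set V)) τ z + tc (cut G x y) τ v ≤ n := by
    intro v hv
    unfold tc
    rw [← Finset.card_union_of_disjoint]
    · refine (Finset.card_le_univ _).trans (by simp)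
    · rw [Finset.disjoint_filter]
      intro i _ h1 h2
      exact hv i h1 h2
  by_cases hzY : (cut G x y).Reachable y z
  · -- touching tokens do not touch the side of `x`
    have h1 := hcompl x (by
      -- one end `t` reachable from `z`
      have h2 : ∀ s t, (s = t ∨ G.Adj s t) →
          (del G (({x, y} : Finset V) : Set V)).Reachable z s →
          ¬ (cut G x y).Reachable x s ∧ ¬ (cut G x y).Reachable x t := by
        intro s t hst hzs
        have hys : (cut G x y).Reachable y s := hzY.trans (hzs.mono hle)
        have hxs : ¬ (cut G x y).Reachable x s := fun h' => hb (h'.trans hys.symm)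
        refine ⟨hxs, fun hxt => ?_⟩
        rcases hst with hst | hst
        · exact hxs (hst ▸ hxt)
        · have hyt : ¬ (cut G x y).Reachable y t := fun h' => hb (hxt.trans h'.symm)
          have h3 := BC_cross hb hst hys hyt
          exact hzy (h3.1 ▸ hzs)
      intro i hi
      rcases hi with hi | hi
      · have h3 := h2 _ _ (hτ i) hi
        rintro (h4 | h4)
        · exact h3.1 h4
        · exact h3.2 h4
      · have h3 := h2 _ _ ((hτ i).imp Eq.symm (fun h' => h'.symm)) hi
        rintro (h4 | h4)
        · exact h3.2 h4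
        · exact h3.1 h4)
    omega
  · have h1 := hcompl y (by
      have h2 : ∀ s t, (s = t ∨ G.Adj s t) →
          (del G (({x, y} : Finset V) : Set V)).Reachable z s →
          ¬ (cut G x y).Reachable y s ∧ ¬ (cut G x y).Reachable y t := by
        intro s t hst hzs
        have hys : ¬ (cut G x y).Reachable y s := fun h' => hzY (h'.trans (hzs.mono hle).symm)
        refine ⟨hys, fun hyt => ?_⟩
        rcases hst with hst | hst
        · exact hys (hst ▸ hyt)
        · have h3 := BC_cross hb hst.symm hyt hys
          exact hzx (h3.2 ▸ hzs)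
      intro i hi
      rcases hi with hi | hi
      · have h3 := h2 _ _ (hτ i) hi
        rintro (h4 | h4)
        · exact h3.1 h4
        · exact h3.2 h4
      · have h3 := h2 _ _ ((hτ i).imp Eq.symm (fun h' => h'.symm)) hi
        rintro (h4 | h4)
        · exact h3.2 h4
        · exact h3.1 h4)
    omega

end

end Pool.Agent.H64.FR
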