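import Pool.Agent.H64.FR.Defs

/-!
Module RB.  Reachability in `link` and `cut`.

(1) retraction `φ u = a`, `φ z = z` otherwise: a `G`-edge is mapped to an equality or to a `link G u a b`-edge (`u b ↦ a b`).
(2) induct on the walk from `z` to `t` (as a statement for all start points `z`): nil: reachable.  Cons `z z' …`: if the edge
`z z'` is a `cut`-edge, prepend it to whichever alternative holds for `z'`; otherwise `{z, z'} = {x, y}`, so `z = x` or `z = y`
and the second or third alternative holds trivially.
-/

set_option autoImplicit false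
set_option linter.all false

namespace Pool.Agent.H64.FR

open Classical

noncomputable section

variable {V : Type*}

theorem RB_step {G : SimpleGraph V} {u a b p q : V} (hN : ∀ z, G.Adj u z → z = a ∨ z = b)
    (hab : a ≠ b) (h : G.Adj p q) :
    (link G u a b).Reachable (if p = u then a else p) (if q = u then a else q) := by
  by_cases hp : p = u
  · have hq : q ≠ u := fun hq => h.ne (hp.trans hq.symm)
    rw [if_pos hp, if_neg hq]
    rw [hp] at h
    rcases hN q h with h1 | h1
    · rw [h1]
    · rw [h1]
      exact SimpleGraph.Adj.reachable (Or.inr ⟨hab, Or.inl ⟨rfl, rfl⟩⟩)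
  · rw [if_neg hp]
    by_cases hq : q = u
    · rw [if_pos hq]
      rw [hq] at h
      rcases hN p h.symm with h1 | h1
      · rw [h1]
      · rw [h1]
        exact SimpleGraph.Adj.reachable (Or.inr ⟨hab, Or.inr ⟨rfl, rfl⟩⟩)
    · rw [if_neg hq]
      exact SimpleGraph.Adj.reachable (Or.inl ⟨h, hp, hq⟩)

theorem reach_link {G : SimpleGraph V} {u a b x y : V} (hN : ∀ z, G.Adj u z → z = a ∨ z = b)
    (hab : a ≠ b) (h : G.Reachable x y) (hx : x ≠ u) (hy : y ≠ u) :
    (link G u a b).Reachable x y := by
  have key : ∀ p q : V, G.Walk p q →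
      (link G u a b).Reachable (if p = u then a else p) (if q = u then a else q) := by
    intro p q w
    induction w with
    | nil => exact SimpleGraph.Reachable.refl _
    | cons h1 _ ih => exact (RB_step hN hab h1).trans ih
  obtain ⟨w⟩ := h
  have := key x y w
  rwa [if_neg hx, if_neg hy] at this

theorem reach_cut {G : SimpleGraph V} {x y z t : V} (h : G.Reachable z t) :
    (cut G x y).Reachable z t ∨ (cut G x y).Reachable z x ∨ (cut G x y).Reachable z y := by
  obtain ⟨w⟩ := h
  induction w with
  | nil => exact Or.inl (SimpleGraph.Reachable.refl _)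
  | @cons p q r h1 _ ih =>
    by_cases hc : (p = x ∧ q = y) ∨ (p = y ∧ q = x)
    · rcases hc with hc | hc
      · rw [hc.1]
        exact Or.inr (Or.inl (SimpleGraph.Reachable.refl _))
      · rw [hc.1]
        exact Or.inr (Or.inr (SimpleGraph.Reachable.refl _))
    · have h2 : (cut G x y).Reachable p q := SimpleGraph.Adj.reachable ⟨h1, hc⟩
      rcases ih with ih | ih | ih
      · exact Or.inl (h2.trans ih)
      · exact Or.inr (Or.inl (h2.trans ih))
      · exact Or.inr (Or.inr (h2.trans ih))

end

end Pool.Agent.H64.FR
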