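import Pool.Agent.H64.FR.RA
import Pool.Agent.H64.FR.RB

/-!
Balanced separators.  A token is a vertex `(x,x)` or an edge `(x,y)` of the graph.
`BS k H`: for every finite family of tokens there is a set `X` of at most `k` vertices such that every component of
`H - X` is touched by at most half of the tokens.
-/

set_option autoImplicit false
set_option linter.all false

namespace Pool.Agent.H64.FR

open Classical

noncomputable section

variable {V : Type*}

/-- number of tokens touching the component of `z` in `H` -/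
def tc (H : SimpleGraph V) {n : ℕ} (τ : Fin n → V × V) (z : V) : ℕ :=
  (Finset.univ.filter (fun i => H.Reachable z (τ i).1 ∨ H.Reachable z (τ i).2)).card

/-- balanced separators of size `≤ k` for all token families -/
def BS (k : ℕ) (H : SimpleGraph V) : Prop :=
  ∀ (n : ℕ) (τ : Fin n → V × V), (∀ i, (τ i).1 = (τ i).2 ∨ H.Adj (τ i).1 (τ i).2) →
    ∃ X : Finset V, X.card ≤ k ∧ ∀ z, z ∉ X → 2 * tc (del H (X : Set V)) τ z ≤ n

theorem del_mono {G H : SimpleGraph V} (h : G ≤ H) (S : Set V) : del G S ≤ del H S :=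
  fun _ _ h' => ⟨h h'.1, h'.2⟩

theorem tc_mono {G H : SimpleGraph V} (h : G ≤ H) {n : ℕ} (τ : Fin n → V × V) (z : V) :
    tc G τ z ≤ tc H τ z := by
  apply Finset.card_le_card
  intro i hi
  rw [Finset.mem_filter] at hi ⊢
  exact ⟨hi.1, hi.2.imp (fun h1 => h1.mono h) (fun h1 => h1.mono h)⟩

theorem BS.mono {k : ℕ} {G H : SimpleGraph V} (h : G ≤ H) (hH : BS k H) : BS k G := by
  intro n τ hτ
  obtain ⟨X, hX, hz⟩ := hH n τ (fun i => (hτ i).imp id (fun h1 => h h1))
  refine ⟨X, hX, fun z hzX => ?_⟩
  exact (Nat.mul_le_mul_left 2 (tc_mono (del_mono h _) τ z)).trans (hz z hzX)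

theorem BS.upper {k l : ℕ} (hkl : k ≤ l) {H : SimpleGraph V} (hH : BS k H) : BS l H := by
  intro n τ hτ
  obtain ⟨X, hX, hz⟩ := hH n τ hτ
  exact ⟨X, hX.trans hkl, hz⟩

/-- tokens touching the component of `z` in `H` are the same for all vertices of the component -/
theorem tc_congr {H : SimpleGraph V} {n : ℕ} (τ : Fin n → V × V) {z z' : V}
    (h : H.Reachable z z') : tc H τ z = tc H τ z' := by
  unfold tc
  congr 1
  ext i
  simp only [Finset.mem_filter, Finset.mem_univ, true_and]
  constructor
  · rintro (h1 | h1)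
    · exact Or.inl (h.symm.trans h1)
    · exact Or.inr (h.symm.trans h1)
  · rintro (h1 | h1)
    · exact Or.inl (h.trans h1)
    · exact Or.inr (h.trans h1)

/-- a vertex of `X` is isolated in `del H X` -/
theorem del_reach_mem {H : SimpleGraph V} {X : Set V} {x y : V} (hx : x ∈ X)
    (h : (del H X).Reachable x y) : x = y := by
  obtain ⟨p⟩ := h
  cases p with
  | nil => rfl
  | cons hadj _ => exact absurd hx hadj.2.1

/-- if `p` implies `q` for all tokens, the counts compare; used with `2 * (number of tokens with q) ≤ n` -/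
theorem tc_le_of {H : SimpleGraph V} {n : ℕ} (τ : Fin n → V × V) (z : V) (A : Finset (Fin n))
    (h : ∀ i, (H.Reachable z (τ i).1 ∨ H.Reachable z (τ i).2) → i ∈ A) : tc H τ z ≤ A.card := by
  apply Finset.card_le_card
  intro i hi
  exact h i (Finset.mem_filter.1 hi).2

end

end Pool.Agent.H64.FR
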