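import Pool.Agent.H64.FR.BD

/-!
Module BE.  Balanced separators and small closed sets.

Given `τ` let `A := {i | (τ i).1 ∈ C ∨ (τ i).2 ∈ C}`; by `hC` (and symmetry of adjacency) both ends of such a token are in `C`.
* `n < 2 |A|`: `X = C`.  For `z ∉ C` the component of `z` in `del G C` avoids `C` (`del_reach_mem`), so it is not touched by tokens of `A`.
* `2 |A| ≤ n`: `τ' i := if i ∈ A then ((τ i).1, (τ i).1) else τ i`, a token family of `del G C`.  Take `X`.  `z ∉ X`:
  `z ∈ C`: everything reachable from `z` in `del G X ≤ G` is in `C`: touching tokens are in `A`.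
  `z ∉ C`: everything reachable from `z` in `del G X` is outside `C` and reachable in `del (del G C) X`: touching tokens are outside `A` and
  touch in `del (del G C) X` as well.
-/

set_option autoImplicit false
set_option linter.all false

namespace Pool.Agent.H64.FR

open Classical

noncomputable section

variable {V : Type*}

theorem BE_in {G : SimpleGraph V} {C : Finset V} (hC : ∀ x ∈ C, ∀ y, G.Adj x y → y ∈ C)
    {s t : V} (h : G.Reachable s t) (hs : s ∈ C) : t ∈ C := by
  obtain ⟨p⟩ := h
  induction p with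
  | nil => exact hs
  | cons hadj _ ih => exact ih (hC _ hs _ hadj)

theorem BE_out {G : SimpleGraph V} {C : Finset V} {X : Set V}
    (hC : ∀ x ∈ C, ∀ y, G.Adj x y → y ∈ C)
    {s t : V} (h : (del G X).Reachable s t) (hs : s ∉ C) :
    (del (del G (C : Set V)) X).Reachable s t := by
  obtain ⟨p⟩ := h
  induction p with
  | nil => exact SimpleGraph.Reachable.refl _
  | @cons a b c hadj _ ih =>
    have hb : b ∉ C := fun hb => hs (hC _ hb _ hadj.1.symm)
    have h1 : (del (del G (C : Set V)) X).Adj a b := ⟨⟨hadj.1, hs, hb⟩, hadj.2.1, hadj.2.2⟩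
    exact h1.reachable.trans (ih hb)

theorem bs_closed {k : ℕ} {G : SimpleGraph V} {C : Finset V} (hcard : C.card ≤ k)
    (hC : ∀ x ∈ C, ∀ y, G.Adj x y → y ∈ C) (h : BS k (del G (C : Set V))) : BS k G := by
  intro n τ hτ
  set A : Finset (Fin n) := Finset.univ.filter (fun i => (τ i).1 ∈ C ∨ (τ i).2 ∈ C) with hA
  have hAmem : ∀ i, i ∈ A ↔ ((τ i).1 ∈ C ∨ (τ i).2 ∈ C) := by
    intro i; rw [hA, Finset.mem_filter]; simp
  have hend : ∀ i ∈ A, (τ i).1 ∈ C ∧ (τ i).2 ∈ C := by
    intro i hi
    rcases hτ i with h2 | h2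
    · rcases (hAmem i).1 hi with h1 | h1
      · exact ⟨h1, h2 ▸ h1⟩
      · exact ⟨h2 ▸ h1, h1⟩
    · rcases (hAmem i).1 hi with h1 | h1
      · exact ⟨h1, hC _ h1 _ h2⟩
      · exact ⟨hC _ h1 _ h2.symm, h1⟩
  rcases Nat.lt_or_ge n (2 * A.card) with hlt | hge
  · refine ⟨C, hcard, fun z hz => ?_⟩
    have h1 : tc (del G (C : Set V)) τ z ≤ (Aᶜ).card := by
      apply tc_le_of
      intro i hi
      rw [Finset.mem_compl]
      intro hiA
      have h2 := hend i hiA
      have h3 : ∀ t, t ∈ C → ¬ (del G (C : Set V)).Reachable z t := by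
        intro t ht hr
        have h5 := del_reach_mem (Finset.mem_coe.2 ht) hr.symm
        exact hz (h5 ▸ ht)
      rcases hi with hi | hi
      · exact h3 _ h2.1 hi
      · exact h3 _ h2.2 hi
    rw [Finset.card_compl, Fintype.card_fin] at h1
    omega
  · obtain ⟨X, hX, hXz⟩ := h n (fun i => if i ∈ A then ((τ i).1, (τ i).1) else τ i) (by
      intro i
      by_cases hi : i ∈ A
      · left; simp [hi]
      · simp only [hi, if_false]
        have h1 := mt (hAmem i).2 hi
        push Not at h1
        rcases hτ i with h2 | h2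
        · exact Or.inl h2
        · exact Or.inr ⟨h2, h1.1, h1.2⟩)
    refine ⟨X, hX, fun z hzX => ?_⟩
    by_cases hzC : z ∈ C
    · refine le_trans (Nat.mul_le_mul_left 2 (tc_le_of τ z A ?_)) hge
      intro i hi
      rw [hAmem]
      exact hi.imp (fun h1 => BE_in hC (h1.mono (del_le G _)) hzC)
        (fun h1 => BE_in hC (h1.mono (del_le G _)) hzC)
    · refine le_trans (Nat.mul_le_mul_left 2 ?_) (hXz z hzX)
      apply tc_le_of
      intro i hi
      rw [Finset.mem_filter]
      refine ⟨Finset.mem_univ _, ?_⟩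
      have hiA : i ∉ A := by
        intro hiA
        have h2 := hend i hiA
        rcases hi with hi | hi
        · exact hzC (BE_in hC (hi.mono (del_le G _)).symm h2.1)
        · exact hzC (BE_in hC (hi.mono (del_le G _)).symm h2.2)
      simp only [hiA, if_false]
      exact hi.imp (fun h1 => BE_out hC h1 hzC) (fun h1 => BE_out hC h1 hzC)

end

end Pool.Agent.H64.FR
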