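import Pool.Agent.H64.FR.BD

/-!
Module BG.  Fragmentation from balanced separators.

Claim (strong induction on `|A|`): for every `A : Finset V` there is `D : Finset V` such that
 (i) every `T ⊆ A` (as a set) with `Disjoint T D` and `(G.induce T).Connected` has `T.ncard < M`, and
 (ii) `D = ∅` if `|A| < M`, and `M * (|D| + k) ≤ 2 * k * |A|` if `M ≤ |A|`.
Proof.  `|A| < M`: `D = ∅` (`T.ncard ≤ |A|`).  `|A| ≥ M`: apply `BS k G` to the tokens `(x, x)`, `x ∈ A` (`n = |A|`,
`τ i = (e i, e i)` with an enumeration `e : Fin n ≃ A`): `X`, `|X| ≤ k`, and every component of `del G X` (of a vertex outside `X`)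
contains at most `|A|/2` elements of `A`.  Let `A_c := {x ∈ A \ X | component of x in del G X is c}`, for the components `c` met by
`A \ X`; they are disjoint with union `A \ X`, each of size `≤ |A|/2 < |A|` (note `|A| ≥ M ≥ 1`).  Apply the induction hypothesis to each `A_c`
and let `D := X ∪ ⋃_c D_c`.
 (i) `T ⊆ A` connected, disjoint from `D`: disjoint from `X`, so `T` is connected in `del G X`, hence inside one `A_c`; then `T.ncard < M` by the
 property of `D_c` (if `T` is empty it is not connected).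
 (ii) let `b` be the number of components with `|A_c| ≥ M`.  `|D| ≤ k + ∑_c |D_c|`.
   `b = 0`: `|D| ≤ k`, `M (|D| + k) ≤ 2 k M ≤ 2 k |A|`.
   `b = 1`: `M (|D_c| + k) ≤ 2 k |A_c| ≤ k |A|`, so `M (|D| + k) ≤ M (2 k + |D_c|) ≤ k M + k |A| ≤ 2 k |A|`.
   `b ≥ 2`: `∑ M (|D_c| + k) ≤ 2 k ∑ |A_c| ≤ 2 k |A|` over the `b` big ones, and `|D| + k ≤ 2 k + ∑ |D_c| ≤ ∑ (|D_c| + k)`.
Conclusion for `A = univ`: `M * |D| ≤ 2 k |V|` in both cases.
(The induction can also be organised with a sum over the finset of components and the inequality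
`M * (|D_c| + [M ≤ |A_c|] k) ≤ 2 k |A_c| [M ≤ |A_c|]`.)
-/

set_option autoImplicit false
set_option linter.all false

namespace Pool.Agent.H64.FR

open Classical

noncomputable section

variable {V : Type*}

theorem BG_T {G : SimpleGraph V} {X : Finset V} {T : Set V} (hTX : Disjoint T (X : Set V))
    (hT : (G.induce T).Connected) {z t : V} (hz : z ∈ T) (ht : t ∈ T) :
    (del G (X : Set V)).Reachable z t := by
  have h1 := hT.preconnected ⟨z, hz⟩ ⟨t, ht⟩
  let f : G.induce T →g del G (X : Set V) :=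
    { toFun := fun v => v.1
      map_rel' := by
        intro a b hab
        exact ⟨hab, fun h => Set.disjoint_left.1 hTX a.2 h, fun h => Set.disjoint_left.1 hTX b.2 h⟩ }
  exact h1.map f

/-- the part of `A` in the component of `z` after deleting `X` -/
def BG_B (G : SimpleGraph V) (A X : Finset V) (z : V) : Finset V :=
  A.filter (fun x => x ∉ X ∧ (del G (X : Set V)).Reachable z x)

theorem BG_mem {G : SimpleGraph V} {A X : Finset V} {z x : V} :
    x ∈ BG_B G A X z ↔ x ∈ A ∧ x ∉ X ∧ (del G (X : Set V)).Reachable z x := by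
  unfold BG_B
  rw [Finset.mem_filter]

theorem BG_half {G : SimpleGraph V} {A X : Finset V} {z : V}
    (h : 2 * tc (del G (X : Set V)) (fun i : Fin A.card => ((A.equivFin.symm i : V), (A.equivFin.symm i : V))) z
      ≤ A.card) : 2 * (BG_B G A X z).card ≤ A.card := by
  refine le_trans (Nat.mul_le_mul_left 2 ?_) h
  unfold tc
  refine le_trans (Finset.card_le_card (t := (Finset.univ.filter (fun i : Fin A.card =>
    (del G (X : Set V)).Reachable z ((A.equivFin.symm i : V)) ∨
      (del G (X : Set V)).Reachable z ((A.equivFin.symm i : V)))).image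
      (fun i => ((A.equivFin.symm i : V)))) ?_) Finset.card_image_le
  intro x hx
  rw [BG_B, Finset.mem_filter] at hx
  rw [Finset.mem_image]
  refine ⟨A.equivFin ⟨x, hx.1⟩, ?_, by simp⟩
  rw [Finset.mem_filter]
  refine ⟨Finset.mem_univ _, Or.inl ?_⟩
  simpa using hx.2.2

theorem BG_main [Fintype V] {k M : ℕ} (hM : 1 ≤ M) {G : SimpleGraph V} (h : BS k G) (m : ℕ) :
    ∀ A : Finset V, A.card = m → ∃ D : Finset V,
      (∀ T : Set V, T ⊆ (A : Set V) → Disjoint T (D : Set V) → (G.induce T).Connected →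
        T.ncard < M) ∧ (A.card < M → D = ∅) ∧ (M ≤ A.card → M * (D.card + k) ≤ 2 * k * A.card) := by
  induction m using Nat.strong_induction_on with
  | _ m ih =>
  intro A hA
  rcases Nat.lt_or_ge A.card M with hlt | hge
  · refine ⟨∅, fun T hT _ _ => ?_, fun _ => rfl, fun h' => absurd hlt (not_lt.2 h')⟩
    have h1 : T.ncard ≤ A.card := by
      rw [← Set.ncard_coe_finset A]
      exact Set.ncard_le_ncard hT (Set.toFinite _)
    omega
  obtain ⟨X, hX, hz⟩ := h A.card (fun i => ((A.equivFin.symm i : V), (A.equivFin.symm i : V)))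
    (fun i => Or.inl rfl)
  have hhalf : ∀ z, z ∉ X → 2 * (BG_B G A X z).card ≤ A.card := fun z hzX => BG_half (hz z hzX)
  have ih' : ∀ F : Finset V, F.card < A.card → ∃ D : Finset V,
      (∀ T : Set V, T ⊆ (F : Set V) → Disjoint T (D : Set V) → (G.induce T).Connected →
        T.ncard < M) ∧ (F.card < M → D = ∅) ∧ (M ≤ F.card → M * (D.card + k) ≤ 2 * k * F.card) :=
    fun F hF => ih F.card (hA ▸ hF) F rfl
  choose! D' hD' using ih'
  set FF : Finset (Finset V) := (A \ X).image (BG_B G A X) with hFF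
  have hFmem : ∀ F ∈ FF, ∃ z, z ∈ A ∧ z ∉ X ∧ BG_B G A X z = F := by
    intro F hF
    obtain ⟨z, hz1, hz2⟩ := Finset.mem_image.1 hF
    rw [Finset.mem_sdiff] at hz1
    exact ⟨z, hz1.1, hz1.2, hz2⟩
  have hFhalf : ∀ F ∈ FF, 2 * F.card ≤ A.card := by
    intro F hF
    obtain ⟨z, -, hz2, rfl⟩ := hFmem F hF
    exact hhalf z hz2
  have hFlt : ∀ F ∈ FF, F.card < A.card := by
    intro F hF
    have := hFhalf F hF
    omega
  have hdisj : ∀ F ∈ FF, ∀ F' ∈ FF, F ≠ F' → Disjoint F F' := by
    intro F hF F' hF' hne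
    obtain ⟨z, -, hz2, rfl⟩ := hFmem F hF
    obtain ⟨z', -, hz2', rfl⟩ := hFmem F' hF'
    rw [Finset.disjoint_left]
    intro x hx hx'
    apply hne
    rw [BG_mem] at hx hx'
    have hzz : (del G (X : Set V)).Reachable z z' := hx.2.2.trans hx'.2.2.symm
    ext y
    rw [BG_mem, BG_mem]
    constructor
    · rintro ⟨h1, h2, h3⟩; exact ⟨h1, h2, hzz.symm.trans h3⟩
    · rintro ⟨h1, h2, h3⟩; exact ⟨h1, h2, hzz.trans h3⟩
  have hsum : ∀ B : Finset (Finset V), B ⊆ FF → ∑ F ∈ B, F.card ≤ A.card := by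
    intro B hB
    rw [← Finset.card_biUnion (fun F hF F' hF' hne => hdisj F (hB hF) F' (hB hF') hne)]
    apply Finset.card_le_card
    intro x hx
    obtain ⟨F, hF, hxF⟩ := Finset.mem_biUnion.1 hx
    obtain ⟨z, -, -, rfl⟩ := hFmem F (hB hF)
    exact (BG_mem.1 hxF).1
  refine ⟨X ∪ FF.biUnion D', ?_, fun h' => absurd h' (not_lt.2 hge), fun _ => ?_⟩
  · intro T hTA hTD hTc
    rw [Finset.coe_union, Set.disjoint_union_right] at hTD
    obtain ⟨z, hzT⟩ := hTc.nonempty
    have hzX : z ∉ X := fun h' => Set.disjoint_left.1 hTD.1 hzT h'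
    have hzA : z ∈ A := hTA hzT
    have hBF : BG_B G A X z ∈ FF :=
      Finset.mem_image.2 ⟨z, Finset.mem_sdiff.2 ⟨hzA, hzX⟩, rfl⟩
    refine (hD' _ (hFlt _ hBF)).1 T ?_ ?_ hTc
    · intro t ht
      have ht' : t ∉ X := fun h' => Set.disjoint_left.1 hTD.1 ht h'
      exact Finset.mem_coe.2 (BG_mem.2 ⟨hTA ht, ht', BG_T hTD.1 hTc hzT ht⟩)
    · refine hTD.2.mono_right ?_
      intro x hx
      exact Finset.mem_coe.2 (Finset.mem_biUnion.2 ⟨_, hBF, hx⟩)
  · set BB : Finset (Finset V) := FF.filter (fun F => M ≤ F.card) with hBB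
    have h1 : (X ∪ FF.biUnion D').card ≤ k + ∑ F ∈ BB, (D' F).card := by
      refine (Finset.card_union_le _ _).trans (Nat.add_le_add hX ?_)
      refine Finset.card_biUnion_le.trans ?_
      rw [hBB, Finset.sum_filter]
      apply Finset.sum_le_sum
      intro F hF
      by_cases hMF : M ≤ F.card
      · rw [if_pos hMF]
      · rw [if_neg hMF, (hD' F (hFlt F hF)).2.1 (not_le.1 hMF)]
        simp
    have h2 : ∑ F ∈ BB, M * ((D' F).card + k) ≤ ∑ F ∈ BB, 2 * k * F.card := by
      apply Finset.sum_le_sum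
      intro F hF
      rw [hBB, Finset.mem_filter] at hF
      exact (hD' F (hFlt F hF.1)).2.2 hF.2
    rw [← Finset.mul_sum, ← Finset.mul_sum, Finset.sum_add_distrib, Finset.sum_const,
      smul_eq_mul] at h2
    have h3 : ∑ F ∈ BB, F.card ≤ A.card := hsum BB (Finset.filter_subset _ _)
    have h4 : M * (X ∪ FF.biUnion D').card ≤ M * (k + ∑ F ∈ BB, (D' F).card) :=
      Nat.mul_le_mul_left _ h1
    have h5 : 2 * k * ∑ F ∈ BB, F.card ≤ 2 * k * A.card := Nat.mul_le_mul_left _ h3
    have h7 : M * k ≤ k * A.card := by nlinarith [Nat.mul_le_mul_left k hge]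
    rcases Nat.lt_or_ge BB.card 2 with hb | hb
    · have hb' : BB.card = 0 ∨ BB.card = 1 := by omega
      rcases hb' with hb' | hb'
      · rw [Finset.card_eq_zero] at hb'
        rw [hb', Finset.sum_empty] at h4
        nlinarith
      · obtain ⟨F, hF⟩ := Finset.card_eq_one.1 hb'
        rw [hF] at h2 h4
        simp only [Finset.sum_singleton, Finset.card_singleton] at h2 h4
        have hFB : F ∈ BB := by rw [hF]; exact Finset.mem_singleton_self F
        have h6 := hFhalf F (Finset.mem_filter.1 hFB).1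
        have h8 : 2 * k * F.card ≤ k * A.card := by nlinarith [Nat.mul_le_mul_left k h6]
        nlinarith
    · have h6 : M * k * 2 ≤ M * k * BB.card := Nat.mul_le_mul_left _ hb
      nlinarith

theorem frag [Fintype V] {k M : ℕ} (hM : 1 ≤ M) {G : SimpleGraph V} (h : BS k G) :
    ∃ D : Finset V, M * D.card ≤ 2 * k * Fintype.card V ∧
      ∀ T : Set V, Disjoint T (D : Set V) → (G.induce T).Connected → T.ncard < M := by
  obtain ⟨D, h1, h2, h3⟩ := BG_main hM h (Finset.univ : Finset V).card Finset.univ rfl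
  refine ⟨D, ?_, fun T hT hc => h1 T (by simp) hT hc⟩
  rw [Finset.card_univ] at h2 h3
  rcases Nat.lt_or_ge (Fintype.card V) M with hlt | hge
  · rw [h2 hlt]; simp
  · refine le_trans ?_ (h3 hge)
    exact Nat.mul_le_mul_left _ (Nat.le_add_right _ _)

end

end Pool.Agent.H64.FR
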