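import Pool.Agent.H64.FR.Defs

/-!
Module DA.  Degrees after deleting a vertex (`nb (del G {v}) w = (nb G w).erase v` for `w ≠ v`).

`sum_del`: split `univ` into `v`, `nb G v` and the rest; on `nb G v` the degree drops by exactly one, at `v` it becomes `0`,
elsewhere it is unchanged.  `Ph_del` is the same for `ph` (values in `ℕ`; `ph` is monotone on `0..4`).
-/

set_option autoImplicit false
set_option linter.all false

namespace Pool.Agent.H64.FR

open Classical

noncomputable section

variable {V : Type*}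

variable [Fintype V]


theorem dg_del_self (G : SimpleGraph V) (v : V) : dg (del G {v}) v = 0 := by
  unfold dg
  rw [Finset.card_eq_zero, Finset.eq_empty_iff_forall_notMem]
  intro w hw
  rw [mem_nb] at hw
  exact hw.2.1 rfl

theorem dg_del_adj {G : SimpleGraph V} {v w : V} (h : G.Adj v w) :
    dg (del G {v}) w + 1 = dg G w := by
  have hne : w ≠ v := h.ne'
  have h1 : nb (del G {v}) w = (nb G w).erase v := by
    ext x
    rw [Finset.mem_erase, mem_nb, mem_nb]
    constructor
    · intro hx; exact ⟨fun hx' => hx.2.2 hx', hx.1⟩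
    · intro hx; exact ⟨hx.2, fun hx' => hne hx', fun hx' => hx.1 hx'⟩
  unfold dg
  rw [h1]
  exact Finset.card_erase_add_one (mem_nb.2 h.symm)

theorem dg_del_nonadj {G : SimpleGraph V} {v w : V} (h : ¬ G.Adj v w) (hne : w ≠ v) :
    dg (del G {v}) w = dg G w := by
  unfold dg
  congr 1
  ext x
  rw [mem_nb, mem_nb]
  constructor
  · intro hx; exact hx.1
  · intro hx
    exact ⟨hx, fun hx' => hne hx', fun hx' => h (by
      have hx'' : x = v := hx'
      rw [← hx'']; exact hx.symm)⟩

theorem ec_del_lt {G : SimpleGraph V} {v : V} (h : 0 < dg G v) : ec (del G {v}) < ec G := by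
  unfold ec
  apply Finset.sum_lt_sum
  · intro w _; exact dg_mono (del_le G {v}) w
  · exact ⟨v, Finset.mem_univ v, by rw [dg_del_self]; exact h⟩

theorem sum_del (G : SimpleGraph V) (v : V) (F : ℕ → ℝ) :
    ∑ w, F (dg (del G {v}) w) =
      ∑ w, F (dg G w) - F (dg G v) + F 0 - ∑ w ∈ nb G v, (F (dg G w) - F (dg G w - 1)) := by
  have hv : v ∉ nb G v := by
    rw [mem_nb]; exact fun h => h.ne rfl
  -- difference at each vertex
  have h1 : ∀ w, F (dg G w) - F (dg (del G {v}) w) =
      (if w = v then F (dg G v) - F 0 else 0) +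
      (if w ∈ nb G v then (F (dg G w) - F (dg G w - 1)) else 0) := by
    intro w
    by_cases hwv : w = v
    · subst hwv
      rw [if_pos rfl, if_neg hv, dg_del_self, add_zero]
    · rw [if_neg hwv, zero_add]
      by_cases hadj : G.Adj v w
      · rw [if_pos (mem_nb.2 hadj)]
        have := dg_del_adj hadj
        have h2 : dg (del G {v}) w = dg G w - 1 := by omega
        rw [h2]
      · rw [if_neg (fun h => hadj (mem_nb.1 h)), dg_del_nonadj hadj hwv, sub_self]
  have h2 : ∑ w, (F (dg G w) - F (dg (del G {v}) w)) =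
      (F (dg G v) - F 0) + ∑ w ∈ nb G v, (F (dg G w) - F (dg G w - 1)) := by
    rw [Finset.sum_congr rfl (fun w _ => h1 w), Finset.sum_add_distrib]
    congr 1
    · rw [Finset.sum_ite_eq' Finset.univ v]
      simp
    · rw [Finset.sum_ite_mem, Finset.univ_inter]
  rw [Finset.sum_sub_distrib] at h2
  linarith

theorem Ph_del {G : SimpleGraph V} (hd : ∀ v, dg G v ≤ 4) (v : V) :
    Ph (del G {v}) + ph (dg G v) + ∑ w ∈ nb G v, (ph (dg G w) - ph (dg G w - 1)) = Ph G := by
  have h1 := sum_del G v (fun k => (ph k : ℝ))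
  have h2 : ∀ k, k ≤ 4 → ph (k - 1) ≤ ph k := by
    intro k h4
    have : k = 0 ∨ k = 1 ∨ k = 2 ∨ k = 3 ∨ k = 4 := by omega
    rcases this with rfl | rfl | rfl | rfl | rfl <;> simp [ph]
  have h3 : ((∑ w ∈ nb G v, (ph (dg G w) - ph (dg G w - 1)) : ℕ) : ℝ) =
      ∑ w ∈ nb G v, ((ph (dg G w) : ℝ) - (ph (dg G w - 1) : ℝ)) := by
    rw [Nat.cast_sum]
    apply Finset.sum_congr rfl
    intro w _
    rw [Nat.cast_sub (h2 _ (hd w))]
  have h4 : (ph 0 : ℝ) = 0 := by simp [ph]
  have h5 : ((Ph (del G {v}) + ph (dg G v) +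
      ∑ w ∈ nb G v, (ph (dg G w) - ph (dg G w - 1)) : ℕ) : ℝ) = ((Ph G : ℕ) : ℝ) := by
    rw [Nat.cast_add, Nat.cast_add, h3]
    unfold Ph
    rw [Nat.cast_sum, Nat.cast_sum, h1]
    simp only [h4]
    ring
  exact_mod_cast h5

end

end Pool.Agent.H64.FR
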