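import Pool.Agent.H64.FR.Defs

/-!
Module NA.  The weights `aN N k`: `0` for `k ≤ 2`, `1/4` for `k = 3`, `1 - c/(k+1)` for `k ≥ 4` with `c = (25 - 5/N)/8`.

For `N ≥ 6`: `0 < 5/N ≤ 5/6`, so `145/48 ≤ c ≤ 25/8`.  `aN N 4 = 1 - c/5 = 3/8 + 1/(8N)`.
`aN_diff`: for `m ≥ 5`: difference `= c/(m(m+1)) ≥ c/(k(k+1))`; for `m = 4`: `3/8 + 1/(8N) - 1/4 ≥ 1/8 ≥ (25/8)/30 ≥ c/(k(k+1))`
(`k(k+1) ≥ 30`); for `m = 3`: `1/4 ≥ (25/8)/30`.
-/

set_option autoImplicit false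
set_option linter.all false

namespace Pool.Agent.H64.FR

open Classical

noncomputable section

variable {V : Type*}

theorem NA_c {N : ℕ} (hN : 6 ≤ N) : 0 < 5 / (N : ℝ) ∧ 5 / (N : ℝ) ≤ 5 / 6 := by
  have h : (6 : ℝ) ≤ N := by exact_mod_cast hN
  constructor
  · positivity
  · exact div_le_div_of_nonneg_left (by norm_num) (by norm_num) h

theorem NA_ge (N : ℕ) {k : ℕ} (hk : 4 ≤ k) :
    aN N k = 1 - (25 - 5 / (N : ℝ)) / (8 * ((k : ℝ) + 1)) := by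
  unfold aN
  rw [if_neg (by omega), if_neg (by omega)]

theorem NA_le (N : ℕ) {k : ℕ} (hk : k ≤ 2) : aN N k = 0 := by
  unfold aN
  rw [if_pos hk]

theorem aN_zero (N : ℕ) : aN N 0 = 0 := NA_le N (by omega)

theorem aN_three (N : ℕ) : aN N 3 = 1 / 4 := by
  unfold aN
  rw [if_neg (by omega), if_pos rfl]

theorem aN_four {N : ℕ} (hN : 6 ≤ N) : aN N 4 = 3 / 8 + 1 / (8 * (N : ℝ)) := by
  have h : (6 : ℝ) ≤ N := by exact_mod_cast hN
  have h0 : (N : ℝ) ≠ 0 := by positivity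
  rw [NA_ge N le_rfl]
  push_cast
  field_simp
  ring

theorem aN_nonneg {N : ℕ} (hN : 6 ≤ N) (k : ℕ) : 0 ≤ aN N k := by
  obtain ⟨h1, h2⟩ := NA_c hN
  rcases Nat.lt_or_ge k 3 with hk | hk
  · rw [NA_le N (by omega)]
  rcases Nat.lt_or_ge k 4 with hk4 | hk4
  · have : k = 3 := by omega
    rw [this, aN_three]
    norm_num
  · rw [NA_ge N hk4]
    have h4 : (4 : ℝ) ≤ k := by exact_mod_cast hk4
    have : (25 - 5 / (N : ℝ)) / (8 * ((k : ℝ) + 1)) ≤ 1 := by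
      rw [div_le_one (by positivity)]
      linarith
    linarith

theorem NA_quarter {N : ℕ} (hN : 6 ≤ N) {k : ℕ} (hk : 4 ≤ k) : 3 / 8 ≤ aN N k := by
  obtain ⟨h1, h2⟩ := NA_c hN
  rw [NA_ge N hk]
  have h4 : (4 : ℝ) ≤ k := by exact_mod_cast hk
  have : (25 - 5 / (N : ℝ)) / (8 * ((k : ℝ) + 1)) ≤ 5 / 8 := by
    rw [div_le_iff₀ (by positivity)]
    linarith
  linarith

theorem aN_mono {N : ℕ} (hN : 6 ≤ N) {m k : ℕ} (h : m ≤ k) : aN N m ≤ aN N k := by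
  obtain ⟨h1, h2⟩ := NA_c hN
  rcases Nat.lt_or_ge m 3 with hm | hm
  · rw [NA_le N (show m ≤ 2 by omega)]
    exact aN_nonneg hN k
  rcases Nat.lt_or_ge m 4 with hm4 | hm4
  · have hm3 : m = 3 := by omega
    rw [hm3, aN_three]
    rcases Nat.lt_or_ge k 4 with hk4 | hk4
    · have : k = 3 := by omega
      rw [this, aN_three]
    · have := NA_quarter hN hk4
      linarith
  · rw [NA_ge N hm4, NA_ge N (hm4.trans h)]
    have h4 : (m : ℝ) ≤ k := by exact_mod_cast h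
    have : (25 - 5 / (N : ℝ)) / (8 * ((k : ℝ) + 1)) ≤ (25 - 5 / (N : ℝ)) / (8 * ((m : ℝ) + 1)) := by
      apply div_le_div_of_nonneg_left (by linarith) (by positivity)
      linarith
    linarith

theorem aN_diff {N : ℕ} (hN : 6 ≤ N) {m k : ℕ} (h3 : 3 ≤ m) (hmk : m ≤ k) (hk : 5 ≤ k) :
    (25 - 5 / (N : ℝ)) / 8 / ((k : ℝ) * ((k : ℝ) + 1)) ≤ aN N m - aN N (m - 1) := by
  obtain ⟨h1, h2⟩ := NA_c hN
  have hk5 : (5 : ℝ) ≤ k := by exact_mod_cast hk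
  have hkk : (30 : ℝ) ≤ (k : ℝ) * ((k : ℝ) + 1) := by nlinarith
  have hsm : (25 - 5 / (N : ℝ)) / 8 / ((k : ℝ) * ((k : ℝ) + 1)) ≤ 25 / 8 / 30 := by
    calc (25 - 5 / (N : ℝ)) / 8 / ((k : ℝ) * ((k : ℝ) + 1)) ≤
        (25 - 5 / (N : ℝ)) / 8 / 30 :=
          div_le_div_of_nonneg_left (by linarith) (by norm_num) hkk
      _ ≤ 25 / 8 / 30 := by linarith
  rcases Nat.lt_or_ge m 5 with hm | hm
  · rcases Nat.lt_or_ge m 4 with hm4 | hm4
    · have hm3 : m = 3 := by omega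
      rw [hm3, aN_three, NA_le N (by omega)]
      linarith
    · have hm3 : m = 4 := by omega
      rw [hm3, aN_three]
      have := NA_quarter hN (le_refl 4)
      linarith
  · rw [NA_ge N (show 4 ≤ m by omega), NA_ge N (show 4 ≤ m - 1 by omega)]
    have hm5 : (5 : ℝ) ≤ m := by exact_mod_cast hm
    have hmk' : (m : ℝ) ≤ k := by exact_mod_cast hmk
    have e1 : (((m - 1 : ℕ) : ℝ) + 1) = m := by
      rw [Nat.cast_sub (by omega)]
      push_cast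
      ring
    rw [e1]
    have e2 : 1 - (25 - 5 / (N : ℝ)) / (8 * ((m : ℝ) + 1)) - (1 - (25 - 5 / (N : ℝ)) / (8 * (m : ℝ))) =
        (25 - 5 / (N : ℝ)) / 8 / ((m : ℝ) * ((m : ℝ) + 1)) := by
      field_simp
      ring
    rw [e2]
    apply div_le_div_of_nonneg_left (by linarith) (by positivity)
    exact mul_le_mul hmk' (by linarith) (by positivity) (by positivity)

theorem aN_step {N : ℕ} (hN : 6 ≤ N) {k : ℕ} (hk : 5 ≤ k) :
    aN N k + (k : ℝ) * ((25 - 5 / (N : ℝ)) / 8 / ((k : ℝ) * ((k : ℝ) + 1))) = 1 := by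
  have hk5 : (5 : ℝ) ≤ k := by exact_mod_cast hk
  rw [NA_ge N (show 4 ≤ k by omega)]
  have : (k : ℝ) * ((25 - 5 / (N : ℝ)) / 8 / ((k : ℝ) * ((k : ℝ) + 1))) =
      (25 - 5 / (N : ℝ)) / (8 * ((k : ℝ) + 1)) := by
    field_simp
  rw [this]
  ring

end

end Pool.Agent.H64.FR
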