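import Pool.Agent.H64.FR.Defs
import Pool.Agent.H64.FR.DA
import Pool.Agent.H64.FR.NA

/-!
Module GS.  Deleting a vertex of maximum degree `k ≥ 5` when all positive degrees are at least 3.

`sum_del` with `F = aN N`: `∑ aN (dg G w) - ∑ aN (dg (del G {v}) w) = aN N k - aN N 0 + ∑ w ∈ nb G v, (aN N (dg G w) - aN N (dg G w - 1))`;
each of the `k` summands is `≥ c/(k(k+1))` by `aN_diff` (a neighbour of `v` has positive degree, so degree `≥ 3`, and `≤ k`); conclude
with `aN_step` and `aN_zero`.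
-/

set_option autoImplicit false
set_option linter.all false

namespace Pool.Agent.H64.FR

open Classical

noncomputable section

variable {V : Type*}

variable [Fintype V]


theorem max_step {N : ℕ} (hN : 6 ≤ N) {G : SimpleGraph V} {v : V} (h5 : 5 ≤ dg G v)
    (hmax : ∀ w, dg G w ≤ dg G v) (h3 : ∀ w, 0 < dg G w → 3 ≤ dg G w) :
    ∑ w, aN N (dg (del G {v}) w) + 1 ≤ ∑ w, aN N (dg G w) := by
  rw [sum_del G v (aN N), aN_zero]
  have h1 : ∀ w ∈ nb G v, (25 - 5 / (N : ℝ)) / 8 / ((dg G v : ℝ) * ((dg G v : ℝ) + 1)) ≤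
      aN N (dg G w) - aN N (dg G w - 1) := by
    intro w hw
    have hp := dg_pos_iff.2 ⟨v, (mem_nb.1 hw).symm⟩
    exact aN_diff hN (h3 w hp) (hmax w) h5
  have h2 := Finset.sum_le_sum h1
  rw [Finset.sum_const, nsmul_eq_mul] at h2
  have h4 : ((nb G v).card : ℝ) = (dg G v : ℝ) := rfl
  rw [h4] at h2
  have h6 := aN_step hN h5
  linarith

end

end Pool.Agent.H64.FR
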