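import Pool.Agent.H64.FR.Defs

/-!
Module MD.  Branch sets and closed vertex sets (unions of components).

(1) `mi_closed`: some vertex `p ∈ f 0`.  `f 0` is connected, so it is inside `C` or disjoint from `C` (follow a walk of
`G.induce (f 0)`; `C` and its complement are closed under adjacency).  For `i ≠ 0` there is an edge from `f 0` to `f i`, so
`f i` meets the same side and, being connected, lies in it.  (`r = 0` is excluded by `2 ≤ r`.)
(2) `mi_del_closed`: take a model `f`; if all `f i ⊆ C` we are in the second case, otherwise all `f i` avoid `C` and `f` is a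
model of `del G C`.
(3) `no_small`: each `f i` is nonempty and does not contain the isolated vertex `v`: if `v ∈ f i` take `j ≠ i` (`2 ≤ r`); there
is an edge from some `p ∈ f i` to `f j`; `G.induce (f i)` is connected, so `v` is joined to `p` by a walk inside; if `p ≠ v`
the first edge of the walk starts at the isolated `v`, if `p = v` the connecting edge starts at `v`: contradiction.
So choosing `g i ∈ f i` gives an injection `Fin r → C.erase v`, and `r ≤ C.card - 1 < r`.
-/

set_option autoImplicit false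
set_option linter.all false

namespace Pool.Agent.H64.FR

open Classical

noncomputable section

variable {V : Type*}

/-- two vertices of a connected induced subgraph are on the same side of a closed set -/
theorem MD_side {G : SimpleGraph V} {C S : Set V} (hC : ∀ x ∈ C, ∀ y, G.Adj x y → y ∈ C)
    (hS : (G.induce S).Connected) {a b : V} (ha : a ∈ S) (hb : b ∈ S) : a ∈ C ↔ b ∈ C := by
  obtain ⟨w⟩ := hS.preconnected ⟨a, ha⟩ ⟨b, hb⟩
  have key : ∀ (p q : S) (w : (G.induce S).Walk p q), (p : V) ∈ C ↔ (q : V) ∈ C := by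
    intro p q w
    induction w with
    | nil => exact Iff.rfl
    | @cons u v w h _ ih =>
      have h' : G.Adj (u : V) (v : V) := h
      exact ⟨fun hu => ih.1 (hC _ hu _ h'), fun hw => hC _ (ih.2 hw) _ h'.symm⟩
  exact key _ _ w

theorem mi_closed {r : ℕ} (hr : 2 ≤ r) {G : SimpleGraph V} {C : Set V}
    (hC : ∀ x ∈ C, ∀ y, G.Adj x y → y ∈ C) {f : Fin r → Set V} (hf : Model r G f) :
    (∀ i, f i ⊆ C) ∨ (∀ i, Disjoint (f i) C) := by
  obtain ⟨h1, h2, h3⟩ := hf
  -- any two points of the branch sets are on the same side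
  have key : ∀ i j, ∀ p ∈ f i, ∀ q ∈ f j, (p ∈ C ↔ q ∈ C) := by
    intro i j p hp q hq
    by_cases hij : i = j
    · subst hij
      exact MD_side hC (h1 i) hp hq
    · obtain ⟨u, hu, v, hv, huv⟩ := h3 i j hij
      rw [MD_side hC (h1 i) hp hu, MD_side hC (h1 j) hq hv]
      exact ⟨fun h => hC _ h _ huv, fun h => hC _ h _ huv.symm⟩
  obtain ⟨⟨p, hp⟩⟩ := (h1 ⟨0, by omega⟩).nonempty
  by_cases hpC : p ∈ C
  · exact Or.inl fun i q hq => (key _ _ p hp q hq).1 hpC
  · refine Or.inr fun i => ?_
    rw [Set.disjoint_left]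
    intro q hq hqC
    exact hpC ((key _ _ p hp q hq).2 hqC)

theorem mi_del_closed {r : ℕ} (hr : 2 ≤ r) {G : SimpleGraph V} {C : Set V}
    (hC : ∀ x ∈ C, ∀ y, G.Adj x y → y ∈ C) (h : Mi r G) :
    Mi r (del G C) ∨ ∃ f : Fin r → Set V, Model r G f ∧ ∀ i, f i ⊆ C := by
  obtain ⟨f, hf⟩ := h
  rcases mi_closed hr hC hf with h | h
  · exact Or.inr ⟨f, hf, h⟩
  · refine Or.inl ⟨f, ?_, hf.2.1, ?_⟩
    · intro i
      have : (del G C).induce (f i) = G.induce (f i) := by
        ext a b
        simp only [SimpleGraph.comap_adj, Function.Embedding.subtype_apply, del]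
        exact ⟨fun h => h.1, fun h' => ⟨h', Set.disjoint_left.1 (h i) a.2,
          Set.disjoint_left.1 (h i) b.2⟩⟩
      rw [this]
      exact hf.1 i
    · intro i j hij
      obtain ⟨u, hu, v, hv, huv⟩ := hf.2.2 i j hij
      exact ⟨u, hu, v, hv, huv, Set.disjoint_left.1 (h i) hu, Set.disjoint_left.1 (h j) hv⟩

theorem no_small {r : ℕ} (hr : 2 ≤ r) {G : SimpleGraph V} {C : Finset V} {v : V} (hv : v ∈ C)
    (hiso : ∀ x, ¬ G.Adj v x) (hcard : C.card ≤ r) :
    ¬ ∃ f : Fin r → Set V, Model r G f ∧ ∀ i, f i ⊆ (C : Set V) := by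
  rintro ⟨f, ⟨h1, h2, h3⟩, hf⟩
  have hvi : ∀ i, v ∉ f i := by
    intro i hi
    obtain ⟨j, hj⟩ : ∃ j : Fin r, i ≠ j := by
      by_cases h0 : i = ⟨0, by omega⟩
      · exact ⟨⟨1, by omega⟩, by rw [h0]; intro h; simp [Fin.ext_iff] at h⟩
      · exact ⟨⟨0, by omega⟩, h0⟩
    obtain ⟨p, hp, q, hq, hpq⟩ := h3 i j hj
    -- `{v}` is closed
    have hC' : ∀ x ∈ ({v} : Set V), ∀ y, G.Adj x y → y ∈ ({v} : Set V) := by
      intro x hx y hxy
      rw [Set.mem_singleton_iff] at hx
      subst hx
      exact absurd hxy (hiso y)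
    have hpv : p ∈ ({v} : Set V) := (MD_side hC' (h1 i) hi hp).1 rfl
    rw [Set.mem_singleton_iff] at hpv
    subst hpv
    exact hiso q hpq
  have hne : ∀ i, ∃ x, x ∈ f i := fun i => by
    obtain ⟨x⟩ := (h1 i).nonempty
    exact ⟨x.1, x.2⟩
  choose g hg using hne
  have hinj : Function.Injective (fun i => (g i : V)) := by
    intro i j hij
    by_contra hne
    have hij' : (g i : V) = g j := hij
    refine Set.disjoint_left.1 (h2 i j hne) (hg i) ?_
    rw [hij']
    exact hg j
  have hcard' : r ≤ (C.erase v).card := by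
    have := Finset.card_le_card_of_injOn (s := (Finset.univ : Finset (Fin r))) (t := C.erase v)
      (fun i => (g i : V)) (fun i _ => by
        have h4 : (g i : V) ∈ C := hf i (hg i)
        have h5 : (g i : V) ≠ v := fun h => hvi i (h ▸ hg i)
        simp [h4, h5]) (hinj.injOn)
    simpa using this
  rw [Finset.card_erase_of_mem hv] at hcard'
  have : 0 < C.card := Finset.card_pos.2 ⟨v, hv⟩
  omega

end

end Pool.Agent.H64.FR
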