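import Pool.Agent.H64.FR.Defs
import Pool.Agent.H64.FR.DA
import Pool.Agent.H64.FR.MD
import Pool.Agent.H64.FR.NA

/-!
Module GT.  Removing a small 4-regular component `C = cp G x`, `|C| ≤ r`.

`C` is closed under adjacency.  In `del G C` the vertices of `C` have degree `0`, the others keep their degree.
(1) `|C| ≥ 5` (`x` and its four neighbours), and `aN N 4 ≥ 3/8`, so the sum drops by `|C| * aN N 4 ≥ 15/8 ≥ 1`.
(2) Suppose `Mi r (del G (insert x S'))`, `H := del G (insert x S')`.  `C` is closed for `H ≤ G`.  `mi_del_closed` for `H` and `C`: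
either `Mi r (del H C)`; `del H C ≤ del (del G C) S'` (same graph up to the useless deletion of `x ∈ C`), contradiction; or there is a model
inside `C`: impossible by `no_small` (`x` is isolated in `H`, `|C| ≤ r`).
(3) `ec`: the degree of `x` drops from `4` to `0`, the others do not increase.
-/

set_option autoImplicit false
set_option linter.all false

namespace Pool.Agent.H64.FR

open Classical

noncomputable section

variable {V : Type*}

variable [Fintype V]


theorem GT_closed {G : SimpleGraph V} {x y z : V} (hy : y ∈ cp G x) (h : G.Adj y z) :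
    z ∈ cp G x := by
  rw [mem_cp] at hy ⊢
  exact hy.trans h.reachable

theorem GT_in {G : SimpleGraph V} {x w : V} (hw : w ∈ cp G x) :
    dg (del G (cp G x : Set V)) w = 0 := by
  unfold dg
  rw [Finset.card_eq_zero, Finset.eq_empty_iff_forall_notMem]
  intro q hq
  rw [mem_nb, del_adj] at hq
  exact hq.2.1 (Finset.mem_coe.2 hw)

theorem GT_out {G : SimpleGraph V} {x w : V} (hw : w ∉ cp G x) :
    dg (del G (cp G x : Set V)) w = dg G w := by
  unfold dg
  congr 1
  ext q
  rw [mem_nb, mem_nb, del_adj]
  constructor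
  · exact fun h => h.1
  · intro h
    refine ⟨h, fun h' => hw (Finset.mem_coe.1 h'), fun h' => hw ?_⟩
    exact GT_closed (Finset.mem_coe.1 h') h.symm

theorem GT_self (G : SimpleGraph V) (x : V) : x ∈ cp G x := mem_cp.2 (SimpleGraph.Reachable.refl x)

theorem comp_sum {N : ℕ} (hN : 6 ≤ N) {G : SimpleGraph V} {x : V}
    (hall : ∀ y, G.Reachable x y → dg G y = 4) :
    ∑ w, aN N (dg (del G (cp G x : Set V)) w) + 1 ≤ ∑ w, aN N (dg G w) := by
  have h5 : 5 ≤ (cp G x).card := by
    have hsub : insert x (nb G x) ⊆ cp G x := by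
      intro y hy
      rcases Finset.mem_insert.1 hy with rfl | hy
      · exact GT_self G _
      · exact GT_closed (GT_self G x) (mem_nb.1 hy)
    have hc : (insert x (nb G x)).card = 5 := by
      rw [Finset.card_insert_of_notMem]
      · have := hall x (SimpleGraph.Reachable.refl x)
        unfold dg at this
        rw [this]
      · intro h
        exact (mem_nb.1 h).ne rfl
    have := Finset.card_le_card hsub
    omega
  have h4 : (3 : ℝ) / 8 ≤ aN N 4 := by
    rw [aN_four hN]
    have : (0 : ℝ) ≤ 1 / (8 * (N : ℝ)) := by positivity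
    linarith
  have e1 := Finset.sum_filter_add_sum_filter_not Finset.univ (fun w => w ∈ cp G x)
    (fun w => aN N (dg (del G (cp G x : Set V)) w))
  have e2 := Finset.sum_filter_add_sum_filter_not Finset.univ (fun w => w ∈ cp G x)
    (fun w => aN N (dg G w))
  have e3 : ∑ w ∈ Finset.univ.filter (fun w => w ∈ cp G x),
      aN N (dg (del G (cp G x : Set V)) w) = 0 := by
    apply Finset.sum_eq_zero
    intro w hw
    rw [GT_in (Finset.mem_filter.1 hw).2, aN_zero]
  have e4 : ∑ w ∈ Finset.univ.filter (fun w => ¬ w ∈ cp G x),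
      aN N (dg (del G (cp G x : Set V)) w)
      = ∑ w ∈ Finset.univ.filter (fun w => ¬ w ∈ cp G x), aN N (dg G w) := by
    apply Finset.sum_congr rfl
    intro w hw
    rw [GT_out (Finset.mem_filter.1 hw).2]
  have e5 : ∑ w ∈ Finset.univ.filter (fun w => w ∈ cp G x), aN N (dg G w)
      = ((cp G x).card : ℝ) * aN N 4 := by
    have : Finset.univ.filter (fun w => w ∈ cp G x) = cp G x := by
      ext w; simp
    rw [this, Finset.sum_congr rfl (g := fun _ => aN N 4)]
    · rw [Finset.sum_const, nsmul_eq_mul]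
    · intro w hw
      rw [hall w (mem_cp.1 hw)]
  have h6 : (1 : ℝ) ≤ ((cp G x).card : ℝ) * aN N 4 := by
    have h7 : (5 : ℝ) ≤ ((cp G x).card : ℝ) := by exact_mod_cast h5
    nlinarith
  rw [← e1, ← e2, e3, e4, e5]
  linarith

theorem comp_mi {r : ℕ} (hr : 2 ≤ r) {G : SimpleGraph V} {x : V} (hsmall : (cp G x).card ≤ r)
    {S : Finset V} (hS : ¬ Mi r (del (del G (cp G x : Set V)) (S : Set V))) :
    ¬ Mi r (del G ((insert x S : Finset V) : Set V)) := by
  intro h
  have hC : ∀ y ∈ (cp G x : Set V), ∀ z, (del G ((insert x S : Finset V) : Set V)).Adj y z →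
      z ∈ (cp G x : Set V) := by
    intro y hy z hyz
    exact Finset.mem_coe.2 (GT_closed (Finset.mem_coe.1 hy) hyz.1)
  rcases mi_del_closed hr hC h with h1 | h1
  · apply hS
    apply Mi.mono _ h1
    intro u v huv
    obtain ⟨⟨h2, h3, h4⟩, h5, h6⟩ := huv
    refine ⟨⟨h2, h5, h6⟩, ?_, ?_⟩
    · intro h7
      exact h3 (Finset.mem_coe.2 (Finset.mem_insert_of_mem (Finset.mem_coe.1 h7)))
    · intro h7
      exact h4 (Finset.mem_coe.2 (Finset.mem_insert_of_mem (Finset.mem_coe.1 h7)))
  · refine no_small hr (GT_self G x) ?_ hsmall h1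
    intro z hz
    exact hz.2.1 (Finset.mem_coe.2 (Finset.mem_insert_self x S))

theorem comp_ec {G : SimpleGraph V} {x : V} (hx : dg G x = 4) :
    ec (del G (cp G x : Set V)) < ec G := by
  unfold ec
  apply Finset.sum_lt_sum (fun w _ => dg_mono (del_le G _) w)
  refine ⟨x, Finset.mem_univ _, ?_⟩
  rw [GT_in (GT_self G x), hx]
  norm_num

end

end Pool.Agent.H64.FR
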