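import Pool.Agent.H64.FR.Defs

/-!
Module TK.  Tokens: one in each 4-regular component; each of these has at least `N` vertices.

`bad x := dg G x = 4 ∧ ∀ y, G.Reachable x y → dg G y = 4`.  Let `K := image (G.connectedComponentMk) (univ.filter bad)` and for each
component `c ∈ K` choose a vertex (`Quot.out`), `R := K.image out`.  The fibre of `c ∈ K` in `univ.filter bad` is the component
(`= cp G x` for any bad `x` with component `c`), of size `≥ N`; so `N * K.card ≤ #(univ.filter bad) ≤ #(dg = 4)`
(`Finset.card_eq_sum_card_fiberwise` or `Finset.mul_card_image_le_card`), and `R.card ≤ K.card`.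
Serv: `dg G x = 4`.  If `x` is bad, the chosen vertex of its component is in `R` and reachable.  Otherwise some reachable `y` has
degree `≠ 4`; `y` has degree `0` or `3`; degree `0` is impossible (`y` reachable from `x ≠ y`, so `y` has a neighbour); so `3`.
-/

set_option autoImplicit false
set_option linter.all false

namespace Pool.Agent.H64.FR

open Classical

noncomputable section

variable {V : Type*}

variable [Fintype V]


theorem tokens {N : ℕ} {G : SimpleGraph V} (h34 : ∀ x, dg G x = 0 ∨ dg G x = 3 ∨ dg G x = 4)
    (hbig : ∀ x, dg G x = 4 → (∀ y, G.Reachable x y → dg G y = 4) → N ≤ (cp G x).card) :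
    ∃ R : Finset V, N * R.card ≤ (Finset.univ.filter (fun x => dg G x = 4)).card ∧ Serv G R := by
  obtain ⟨A, hA⟩ : ∃ A : Finset V, A = Finset.univ.filter (fun x => dg G x = 4 ∧
      ∀ y, G.Reachable x y → dg G y = 4) := ⟨_, rfl⟩
  have memA : ∀ x, x ∈ A ↔ dg G x = 4 ∧ ∀ y, G.Reachable x y → dg G y = 4 := by
    intro x; rw [hA, Finset.mem_filter]; simp
  obtain ⟨K, hK⟩ : ∃ K, K = A.image (fun x => G.connectedComponentMk x) := ⟨_, rfl⟩
  refine ⟨K.image (fun c => c.out), ?_, ?_⟩
  · have h1 : (K.image (fun c => c.out)).card ≤ K.card := Finset.card_image_le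
    have h2 : K.card * N ≤ A.card := by
      rw [Finset.card_eq_sum_card_fiberwise (s := A) (t := K) (f := fun x => G.connectedComponentMk x)
        (fun x hx => by
          rw [hK]
          exact Finset.mem_coe.2 (Finset.mem_image_of_mem _ hx))]
      rw [← smul_eq_mul, ← Finset.sum_const]
      apply Finset.sum_le_sum
      intro c hc
      rw [hK, Finset.mem_image] at hc
      obtain ⟨x, hx, hxc⟩ := hc
      obtain ⟨hx4, hall⟩ := (memA x).1 hx
      refine (hbig x hx4 hall).trans (Finset.card_le_card ?_)
      intro y hy
      rw [mem_cp] at hy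
      rw [Finset.mem_filter]
      refine ⟨(memA y).2 ⟨hall y hy, fun z hz => hall z (hy.trans hz)⟩, ?_⟩
      rw [← hxc]
      exact SimpleGraph.ConnectedComponent.sound hy.symm
    have h3 : A.card ≤ (Finset.univ.filter (fun x => dg G x = 4)).card := by
      apply Finset.card_le_card
      intro x hx
      rw [Finset.mem_filter]
      exact ⟨Finset.mem_univ x, ((memA x).1 hx).1⟩
    calc N * (K.image (fun c => c.out)).card ≤ N * K.card := Nat.mul_le_mul_left N h1
      _ = K.card * N := Nat.mul_comm _ _
      _ ≤ _ := h2.trans h3
  · intro x hx4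
    by_cases hall : ∀ y, G.Reachable x y → dg G y = 4
    · have hxA : x ∈ A := (memA x).2 ⟨hx4, hall⟩
      refine ⟨(G.connectedComponentMk x).out, ?_, Or.inl ?_⟩
      · have h1 : G.connectedComponentMk (G.connectedComponentMk x).out = G.connectedComponentMk x :=
          Quot.out_eq _
        exact (SimpleGraph.ConnectedComponent.exact h1).symm
      · rw [Finset.mem_image]
        exact ⟨G.connectedComponentMk x, by rw [hK]; exact Finset.mem_image_of_mem _ hxA, rfl⟩
    · push Not at hall
      obtain ⟨y, hxy, hy⟩ := hall
      refine ⟨y, hxy, Or.inr ?_⟩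
      rcases h34 y with h | h | h
      · exfalso
        by_cases hyx : y = x
        · rw [hyx] at h; omega
        · obtain ⟨w, hw⟩ : ∃ w, G.Adj y w := by
            obtain ⟨p⟩ := hxy.symm
            cases p with
            | nil => exact absurd rfl hyx
            | cons hadj _ => exact ⟨_, hadj⟩
          have := dg_pos_iff.2 ⟨w, hw⟩
          omega
      · exact h
      · exact absurd h hy

end

end Pool.Agent.H64.FR
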