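import Pool.Agent.H64.FR.T4
import Pool.Agent.H64.FR.GS
import Pool.Agent.H64.FR.GT
import Pool.Agent.H64.FR.TK

/-!
The theorem for arbitrary degrees: `|S| ≤ ∑ v, aN (r+1) (deg v)` `G - S` has no `K_r`-minor
and has balanced separators of size `r` (`r ≥ 5`).
-/

set_option autoImplicit false
set_option linter.all false

namespace Pool.Agent.H64.FR

open Classical

noncomputable section

variable {V : Type*} [Fintype V]

/-- for degrees in `{0, 3, 4}` -/
theorem Ph_aN {N : ℕ} (hN : 6 ≤ N) {G : SimpleGraph V}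
    (h34 : ∀ x, dg G x = 0 ∨ dg G x = 3 ∨ dg G x = 4) :
    ∑ v, aN N (dg G v) =
      (Ph G : ℝ) / 8 + ((Finset.univ.filter (fun x => dg G x = 4)).card : ℝ) / (8 * (N : ℝ)) := by
  have h1 : ∀ v, aN N (dg G v) = (ph (dg G v) : ℝ) / 8 +
      (if dg G v = 4 then (1 : ℝ) else 0) / (8 * (N : ℝ)) := by
    intro v
    rcases h34 v with h | h | h
    · rw [h, aN_zero]; simp [ph]
    · rw [h, aN_three]; simp [ph]; norm_num
    · rw [h, aN_four hN]; simp [ph]
  rw [Finset.sum_congr rfl (fun v _ => h1 v), Finset.sum_add_distrib, ← Finset.sum_div,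
    ← Finset.sum_div]
  congr 1
  · simp [Ph]
  · simp

theorem t6_aux {r : ℕ} (hr : 5 ≤ r) (n : ℕ) : ∀ (G : SimpleGraph V), ec G ≤ n →
    ∃ S : Finset V, (S.card : ℝ) ≤ ∑ v, aN (r + 1) (dg G v) ∧ ¬ Mi r (del G (S : Set V)) ∧
      BS r (del G (S : Set V)) := by
  induction n using Nat.strong_induction_on with
  | _ n ih =>
  intro G hn
  have hN : 6 ≤ r + 1 := by omega
  have key : ∀ G' : SimpleGraph V, ec G' < ec G →
      ∃ S : Finset V, (S.card : ℝ) ≤ ∑ v, aN (r + 1) (dg G' v) ∧ ¬ Mi r (del G' (S : Set V)) ∧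
        BS r (del G' (S : Set V)) :=
    fun G' h => ih (ec G') (lt_of_lt_of_le h hn) G' le_rfl
  by_cases h1 : ∃ u, dg G u = 1
  · obtain ⟨u, hu⟩ := h1
    obtain ⟨w, hNw⟩ := exists_leaf hu
    obtain ⟨S, hS, hM, hB⟩ := key (del G {u}) (ec_del_lt (by omega))
    refine ⟨S, hS.trans (Finset.sum_le_sum fun v _ => aN_mono hN (dg_mono (del_le G {u}) v)),
      fun h => hM ?_, bt_leaf (by omega) (fun x hx => (hNw x).1 hx) _ hB⟩
    exact tr_leaf (by omega) (fun x hx => (hNw x).1 hx) _ h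
  by_cases h2 : ∃ u, dg G u = 2
  · obtain ⟨u, hu⟩ := h2
    obtain ⟨a, b, hab, hNw⟩ := exists_two hu
    obtain ⟨S, hS, hM, hB⟩ := key (link G u a b) (ec_link_lt hNw hab)
    have hau : a ≠ u := ((hNw a).2 (Or.inl rfl)).ne'
    have hbu : b ≠ u := ((hNw b).2 (Or.inr rfl)).ne'
    refine ⟨S, hS.trans (Finset.sum_le_sum fun v _ => aN_mono hN (dg_link_le hNw hab v)),
      fun h => hM ?_, bt_link (by omega) hab hau hbu (fun x hx => (hNw x).1 hx) _ hB⟩
    exact tr_link (by omega) hab hau hbu (fun x hx => (hNw x).1 hx) _ h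
  push Not at h1 h2
  have h3 : ∀ w, 0 < dg G w → 3 ≤ dg G w := by
    intro w hw
    have := h1 w; have := h2 w
    omega
  by_cases h5 : ∃ v, 5 ≤ dg G v
  · obtain ⟨v1, hv1⟩ := h5
    obtain ⟨v, -, hv⟩ := Finset.exists_max_image Finset.univ (fun v => dg G v) ⟨v1, Finset.mem_univ _⟩
    have hmax : ∀ w, dg G w ≤ dg G v := fun w => hv w (Finset.mem_univ _)
    have h5v : 5 ≤ dg G v := hv1.trans (hmax v1)
    obtain ⟨S, hS, hM, hB⟩ := key (del G {v}) (ec_del_lt (by omega))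
    refine ⟨insert v S, ?_, tr_vertex hM, bt_vertex hB⟩
    have e1 := max_step hN h5v hmax h3
    have e2 : ((insert v S).card : ℝ) ≤ (S.card : ℝ) + 1 := by
      exact_mod_cast Finset.card_insert_le v S
    linarith
  push Not at h5
  have h34 : ∀ x, dg G x = 0 ∨ dg G x = 3 ∨ dg G x = 4 := by
    intro x
    have := h5 x; have := h1 x; have := h2 x
    omega
  by_cases hsm : ∃ x, dg G x = 4 ∧ (∀ y, G.Reachable x y → dg G y = 4) ∧ (cp G x).card ≤ r
  · obtain ⟨x, hx, hall, hsmall⟩ := hsm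
    obtain ⟨S, hS, hM, hB⟩ := key (del G (cp G x : Set V)) (comp_ec hx)
    refine ⟨insert x S, ?_, comp_mi (by omega) hsmall hM, bt_comp hsmall (fun p hp q hpq => ?_) hB⟩
    swap
    · rw [mem_cp] at hp ⊢
      exact hp.trans hpq.reachable
    have e1 := comp_sum hN hall
    have e2 : ((insert x S).card : ℝ) ≤ (S.card : ℝ) + 1 := by
      exact_mod_cast Finset.card_insert_le x S
    linarith
  push Not at hsm
  obtain ⟨R, hR, hs⟩ := tokens (N := r + 1) h34 (fun x hx hall => hsm x hx hall)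
  obtain ⟨S, hS, hM, hB⟩ := t4 (fun v => by have := h5 v; omega) hs
  refine ⟨S, ?_, fun h => hM (h.lower (by omega)), hB.upper (by omega)⟩
  rw [Ph_aN hN h34]
  have hN0 : (0 : ℝ) < ((r + 1 : ℕ) : ℝ) := by positivity
  have e1 : (8 : ℝ) * (S.card : ℝ) ≤ (Ph G : ℝ) + (R.card : ℝ) := by exact_mod_cast hS
  have e2 : ((r + 1 : ℕ) : ℝ) * (R.card : ℝ) ≤
      ((Finset.univ.filter (fun x => dg G x = 4)).card : ℝ) := by exact_mod_cast hR
  have e3 : (R.card : ℝ) ≤
      ((Finset.univ.filter (fun x => dg G x = 4)).card : ℝ) / ((r + 1 : ℕ) : ℝ) := by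
    rw [le_div_iff₀ hN0]; linarith
  have e4 : ((Finset.univ.filter (fun x => dg G x = 4)).card : ℝ) / (8 * ((r + 1 : ℕ) : ℝ)) =
      ((Finset.univ.filter (fun x => dg G x = 4)).card : ℝ) / ((r + 1 : ℕ) : ℝ) / 8 := by
    rw [div_div, mul_comm]
  rw [e4]
  linarith

theorem t6 {r : ℕ} (hr : 5 ≤ r) (G : SimpleGraph V) :
    ∃ S : Finset V, (S.card : ℝ) ≤ ∑ v, aN (r + 1) (dg G v) ∧ ¬ Mi r (del G (S : Set V)) ∧
      BS r (del G (S : Set V)) :=
  t6_aux hr (ec G) G le_rfl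

end

end Pool.Agent.H64.FR
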