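import Pool.Agent.H64.FR.QC
import Pool.Agent.H64.FR.T6
import Pool.Agent.H64.FR.BG

/-!
Module CF.  The bound for the coefficient of fragmentability.
-/

set_option autoImplicit false
set_option linter.all false

namespace Pool.Agent.H64.FR

open Classical

noncomputable section

theorem cf_mem {d : ℕ} (hd : 4 ≤ d) : (1 - 25 / (8 * ((d : ℝ) + 1))) ∈ cfSet d := by
  intro ε hε
  have hd' : (4 : ℝ) ≤ d := by exact_mod_cast hd
  obtain ⟨r0, hr0⟩ := exists_nat_gt (1 / ε)
  set r : ℕ := r0 + 5 with hrdef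
  have hr : 5 ≤ r := by omega
  have hr1 : 1 / ε < (r : ℝ) + 1 := by
    have : (r0 : ℝ) ≤ r := by exact_mod_cast (by omega : r0 ≤ r)
    linarith
  obtain ⟨M0, hM0⟩ := exists_nat_gt (4 * (r : ℝ) / ε)
  set M : ℕ := M0 + 1 with hMdef
  have hM1 : 1 ≤ M := by omega
  have hMr : 4 * (r : ℝ) / ε < M := by
    have : (M0 : ℝ) ≤ M := by exact_mod_cast (by omega : M0 ≤ M)
    linarith
  refine ⟨M, fun n G hG => ?_⟩
  obtain ⟨S0, hS0, -, hB⟩ := t6 hr G
  obtain ⟨D, hD, hT⟩ := frag hM1 hB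
  refine ⟨S0 ∪ D, ?_, ?_⟩
  · have hdeg : ∀ v, dg G v ≤ d := by
      intro v
      have h1 : dg G v = (G.neighborSet v).ncard := by
        unfold dg
        rw [← Set.ncard_coe_finset]
        congr 1
        ext w
        rw [Finset.mem_coe, mem_nb, SimpleGraph.mem_neighborSet]
      rw [h1]; exact hG v
    have h2 : ∑ v, aN (r + 1) (dg G v) ≤ ∑ _v : Fin n, aN (r + 1) d :=
      Finset.sum_le_sum fun v _ => aN_mono (by omega) (hdeg v)
    rw [Finset.sum_const, Finset.card_univ, Fintype.card_fin, nsmul_eq_mul] at h2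
    have h3 : aN (r + 1) d = 1 - (25 - 5 / ((r : ℝ) + 1)) / (8 * ((d : ℝ) + 1)) := by
      unfold aN
      rw [if_neg (by omega), if_neg (by omega)]
      push_cast
      rfl
    rw [h3] at h2
    have hn : (0 : ℝ) ≤ n := Nat.cast_nonneg n
    have hMpos : (0 : ℝ) < M := by exact_mod_cast hM1
    -- bound for D
    have h4 : (D.card : ℝ) ≤ ε / 2 * n := by
      have h5 : (M : ℝ) * D.card ≤ 2 * r * n := by
        have : M * D.card ≤ 2 * r * n := by simpa using hD
        exact_mod_cast this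
      have h6 : 4 * (r : ℝ) ≤ ε * M := by
        have := hMr.le
        rw [div_le_iff₀ hε] at this
        linarith
      have h7 : (M : ℝ) * D.card ≤ M * (ε / 2 * n) := by
        have : (4 * (r : ℝ)) * n ≤ (ε * M) * n := mul_le_mul_of_nonneg_right h6 hn
        nlinarith
      exact le_of_mul_le_mul_left h7 hMpos
    have h8 : (25 - 5 / ((r : ℝ) + 1)) / (8 * ((d : ℝ) + 1)) ≥
        25 / (8 * ((d : ℝ) + 1)) - ε / 2 := by
      have h9 : 5 / ((r : ℝ) + 1) ≤ 5 * ε := by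
        have hr2 : (0 : ℝ) < (r : ℝ) + 1 := by positivity
        rw [div_le_iff₀ hr2]
        have : 1 < ((r : ℝ) + 1) * ε := by
          rwa [div_lt_iff₀ hε] at hr1
        nlinarith
      have h10 : (0 : ℝ) < 8 * ((d : ℝ) + 1) := by positivity
      have h11 : 5 / ((r : ℝ) + 1) / (8 * ((d : ℝ) + 1)) ≤ ε / 2 := by
        rw [div_le_iff₀ h10]
        nlinarith
      rw [sub_div]
      linarith
    have h12 : ((S0 ∪ D).card : ℝ) ≤ (S0.card : ℝ) + D.card := by
      exact_mod_cast Finset.card_union_le S0 D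
    have h13 : (n : ℝ) * (1 - (25 - 5 / ((r : ℝ) + 1)) / (8 * ((d : ℝ) + 1))) ≤
        n * (1 - 25 / (8 * ((d : ℝ) + 1)) + ε / 2) :=
      mul_le_mul_of_nonneg_left (by linarith) hn
    nlinarith [h12, h13, h4, hS0, h2]
  · intro T hTd hconn
    rw [Finset.coe_union, Set.disjoint_union_right] at hTd
    refine (hT T hTd.2 ?_).le
    refine hconn.mono ?_
    intro u v huv
    exact ⟨huv, fun h => Set.disjoint_left.1 hTd.1 u.2 h, fun h => Set.disjoint_left.1 hTd.1 v.2 h⟩

theorem cf_nonneg {d : ℕ} {c : ℝ} (hc : c ∈ cfSet d) : 0 ≤ c := by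
  by_contra hneg
  push Not at hneg
  obtain ⟨C, hC⟩ := hc (-c / 2) (by linarith)
  obtain ⟨S, hS, -⟩ := hC 1 ⊥ (fun v => by
    have : ((⊥ : SimpleGraph (Fin 1)).neighborSet v) = ∅ := by
      ext w; simp
    rw [this]; simp)
  have h1 : (0 : ℝ) ≤ S.card := Nat.cast_nonneg _
  push_cast at hS
  linarith

theorem cf_le {d : ℕ} (hd : 4 ≤ d) : sInf (cfSet d) ≤ 1 - 25 / (8 * ((d : ℝ) + 1)) :=
  csInf_le ⟨0, fun c h => cf_nonneg h⟩ (cf_mem hd)

end

end Pool.Agent.H64.FR
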