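import Pool.Agent.H64.FR.Defs

/-!
Module DB.  Degrees in `link G u a b` where `a ≠ b` are exactly the neighbours of `u` (so `a, b ≠ u`).

`nb (link G u a b) u = ∅`;  for `w ∉ {u, a, b}` the neighbourhood is unchanged (`w` is not adjacent to `u`);
`nb (link G u a b) a = insert b ((nb G a).erase u)`, so the degree of `a` is unchanged if `¬ G.Adj a b` and drops by one if
`G.Adj a b`.  For `ec_link_lt` sum up: the degree of `u` drops from `2` to `0`.
-/

set_option autoImplicit false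
set_option linter.all false

namespace Pool.Agent.H64.FR

open Classical

noncomputable section

variable {V : Type*}

variable [Fintype V]


omit [Fintype V] in
theorem DB_ne {G : SimpleGraph V} {u a b : V} (hN : ∀ x, G.Adj u x ↔ x = a ∨ x = b) :
    a ≠ u ∧ b ≠ u :=
  ⟨((hN a).2 (Or.inl rfl)).ne', ((hN b).2 (Or.inr rfl)).ne'⟩

omit [Fintype V] in
theorem DB_comm (G : SimpleGraph V) (u a b : V) : link G u a b = link G u b a := by
  ext p q
  rw [link_adj, link_adj]
  constructor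
  · rintro (h | ⟨h1, h2⟩)
    · exact Or.inl h
    · exact Or.inr ⟨h1.symm, h2.symm⟩
  · rintro (h | ⟨h1, h2⟩)
    · exact Or.inl h
    · exact Or.inr ⟨h1.symm, h2.symm⟩

theorem DB_nb {G : SimpleGraph V} {u a b : V} (hN : ∀ x, G.Adj u x ↔ x = a ∨ x = b)
    (hab : a ≠ b) : nb (link G u a b) a = insert b ((nb G a).erase u) := by
  obtain ⟨hau, hbu⟩ := DB_ne hN
  ext q
  rw [mem_nb, Finset.mem_insert, Finset.mem_erase, mem_nb, link_adj]
  constructor
  · rintro (⟨h1, -, h3⟩ | ⟨-, h1 | h1⟩)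
    · exact Or.inr ⟨h3, h1⟩
    · exact Or.inl h1.2
    · exact absurd h1.1 hab
  · rintro (rfl | ⟨h1, h2⟩)
    · exact Or.inr ⟨hab, Or.inl ⟨rfl, rfl⟩⟩
    · exact Or.inl ⟨h2, hau, h1⟩

theorem DB_mem {G : SimpleGraph V} {u a b : V} (hN : ∀ x, G.Adj u x ↔ x = a ∨ x = b) :
    u ∈ nb G a := mem_nb.2 ((hN a).2 (Or.inl rfl)).symm

theorem dg_link_self {G : SimpleGraph V} {u a b : V} (hN : ∀ x, G.Adj u x ↔ x = a ∨ x = b) :
    dg (link G u a b) u = 0 := by
  obtain ⟨hau, hbu⟩ := DB_ne hN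
  unfold dg
  rw [Finset.card_eq_zero, Finset.eq_empty_iff_forall_notMem]
  intro q hq
  rw [mem_nb, link_adj] at hq
  rcases hq with ⟨-, h, -⟩ | ⟨-, h | h⟩
  · exact h rfl
  · exact hau h.1.symm
  · exact hbu h.1.symm

theorem dg_link_other {G : SimpleGraph V} {u a b w : V} (hN : ∀ x, G.Adj u x ↔ x = a ∨ x = b)
    (hwu : w ≠ u) (hwa : w ≠ a) (hwb : w ≠ b) : dg (link G u a b) w = dg G w := by
  unfold dg
  congr 1
  ext q
  rw [mem_nb, mem_nb, link_adj]
  constructor
  · rintro (h | ⟨-, h | h⟩)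
    · exact h.1
    · exact absurd h.1 hwa
    · exact absurd h.1 hwb
  · intro h
    refine Or.inl ⟨h, hwu, ?_⟩
    rintro rfl
    rcases (hN w).1 h.symm with h' | h'
    · exact hwa h'
    · exact hwb h'

theorem dg_link_left_adj {G : SimpleGraph V} {u a b : V} (hN : ∀ x, G.Adj u x ↔ x = a ∨ x = b)
    (hab : a ≠ b) (h : G.Adj a b) : dg (link G u a b) a + 1 = dg G a := by
  obtain ⟨hau, hbu⟩ := DB_ne hN
  unfold dg
  rw [DB_nb hN hab, Finset.insert_eq_of_mem]
  · exact Finset.card_erase_add_one (DB_mem hN)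
  · rw [Finset.mem_erase, mem_nb]
    exact ⟨hbu, h⟩

theorem dg_link_right_adj {G : SimpleGraph V} {u a b : V} (hN : ∀ x, G.Adj u x ↔ x = a ∨ x = b)
    (hab : a ≠ b) (h : G.Adj a b) : dg (link G u a b) b + 1 = dg G b := by
  rw [DB_comm]
  exact dg_link_left_adj (fun x => (hN x).trans or_comm) hab.symm h.symm

theorem dg_link_left_nadj {G : SimpleGraph V} {u a b : V} (hN : ∀ x, G.Adj u x ↔ x = a ∨ x = b)
    (hab : a ≠ b) (h : ¬ G.Adj a b) : dg (link G u a b) a = dg G a := by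
  unfold dg
  rw [DB_nb hN hab, Finset.card_insert_of_notMem]
  · exact Finset.card_erase_add_one (DB_mem hN)
  · rw [Finset.mem_erase, mem_nb]
    exact fun h' => h h'.2

theorem dg_link_right_nadj {G : SimpleGraph V} {u a b : V} (hN : ∀ x, G.Adj u x ↔ x = a ∨ x = b)
    (hab : a ≠ b) (h : ¬ G.Adj a b) : dg (link G u a b) b = dg G b := by
  rw [DB_comm]
  exact dg_link_left_nadj (fun x => (hN x).trans or_comm) hab.symm (fun h' => h h'.symm)

theorem dg_link_le {G : SimpleGraph V} {u a b : V} (hN : ∀ x, G.Adj u x ↔ x = a ∨ x = b)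
    (hab : a ≠ b) (w : V) : dg (link G u a b) w ≤ dg G w := by
  by_cases hu : w = u
  · subst hu
    rw [dg_link_self hN]
    exact Nat.zero_le _
  by_cases ha : w = a
  · subst ha
    by_cases h : G.Adj w b
    · have := dg_link_left_adj hN hab h
      omega
    · exact (dg_link_left_nadj hN hab h).le
  by_cases hb : w = b
  · subst hb
    by_cases h : G.Adj a w
    · have := dg_link_right_adj hN hab h
      omega
    · exact (dg_link_right_nadj hN hab h).le
  exact (dg_link_other hN hu ha hb).le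

theorem ec_link_lt {G : SimpleGraph V} {u a b : V} (hN : ∀ x, G.Adj u x ↔ x = a ∨ x = b)
    (hab : a ≠ b) : ec (link G u a b) < ec G := by
  unfold ec
  apply Finset.sum_lt_sum (fun w _ => dg_link_le hN hab w)
  refine ⟨u, Finset.mem_univ _, ?_⟩
  rw [dg_link_self hN, dg_pos_iff]
  exact ⟨a, (hN a).2 (Or.inl rfl)⟩

end

end Pool.Agent.H64.FR
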