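import Pool.Agent.H64.FR.Defs

/-!
Module DC.  Degrees after deleting an edge (`nb (cut G x y) x = (nb G x).erase y`, and symmetrically; all other
neighbourhoods unchanged).
-/

set_option autoImplicit false
set_option linter.all false

namespace Pool.Agent.H64.FR

open Classical

noncomputable section

variable {V : Type*}

variable [Fintype V]


theorem dg_cut_left {G : SimpleGraph V} {x y : V} (h : G.Adj x y) :
    dg (cut G x y) x + 1 = dg G x := by
  have hne : x ≠ y := h.ne
  have h1 : nb (cut G x y) x = (nb G x).erase y := by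
    ext z
    rw [Finset.mem_erase, mem_nb, mem_nb, cut_adj]
    constructor
    · rintro ⟨h2, h3⟩
      exact ⟨fun h4 => h3 (Or.inl ⟨rfl, h4⟩), h2⟩
    · rintro ⟨h2, h3⟩
      refine ⟨h3, ?_⟩
      rintro (h4 | h4)
      · exact h2 h4.2
      · exact hne h4.1
  unfold dg
  rw [h1]
  exact Finset.card_erase_add_one (mem_nb.2 h)

theorem dg_cut_right {G : SimpleGraph V} {x y : V} (h : G.Adj x y) :
    dg (cut G x y) y + 1 = dg G y := by
  have hne : x ≠ y := h.ne
  have h1 : nb (cut G x y) y = (nb G y).erase x := by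
    ext z
    rw [Finset.mem_erase, mem_nb, mem_nb, cut_adj]
    constructor
    · rintro ⟨h2, h3⟩
      exact ⟨fun h4 => h3 (Or.inr ⟨rfl, h4⟩), h2⟩
    · rintro ⟨h2, h3⟩
      refine ⟨h3, ?_⟩
      rintro (h4 | h4)
      · exact hne h4.1.symm
      · exact h2 h4.2
  unfold dg
  rw [h1]
  exact Finset.card_erase_add_one (mem_nb.2 h.symm)

theorem dg_cut_other {G : SimpleGraph V} {x y w : V} (hwx : w ≠ x) (hwy : w ≠ y) :
    dg (cut G x y) w = dg G w := by
  unfold dg
  congr 1
  ext z
  rw [mem_nb, mem_nb, cut_adj]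
  constructor
  · exact fun h => h.1
  · intro h
    refine ⟨h, ?_⟩
    rintro (h4 | h4)
    · exact hwx h4.1
    · exact hwy h4.1

theorem ec_cut_lt {G : SimpleGraph V} {x y : V} (h : G.Adj x y) : ec (cut G x y) < ec G := by
  unfold ec
  apply Finset.sum_lt_sum
  · intro w _; exact dg_mono (cut_le G x y) w
  · refine ⟨x, Finset.mem_univ x, ?_⟩
    have := dg_cut_left h
    omega

end

end Pool.Agent.H64.FR
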