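import Mathlib

/-!
MP_490a5a_co.  Definitions for the proof that `μ({K_r}, Γ_d) < μ({K_4}, Γ_d)` for all `d ≥ 4`, `r ≥ 5`.

All graphs live on a fixed finite vertex type `V`; a deleted vertex is kept as an isolated vertex.
-/

set_option autoImplicit false
set_option linter.all false

namespace Pool.Agent.H64.FR

open Classical

noncomputable section

variable {V : Type*}

/-- `f` is a model of a `K_r`-minor of `G`: `r` pairwise disjoint connected branch sets, pairwise joined by an edge. -/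
def Model (r : ℕ) (G : SimpleGraph V) (f : Fin r → Set V) : Prop :=
  (∀ i, (G.induce (f i)).Connected) ∧
    (∀ i j, i ≠ j → Disjoint (f i) (f j)) ∧
    (∀ i j, i ≠ j → ∃ u ∈ f i, ∃ v ∈ f j, G.Adj u v)

/-- `G` has a `K_r`-minor -/
def Mi (r : ℕ) (G : SimpleGraph V) : Prop := ∃ f : Fin r → Set V, Model r G f

/-- delete all edges of `G` meeting `S` (the vertices of `S` become isolated) -/
def del (G : SimpleGraph V) (S : Set V) : SimpleGraph V where
  Adj u v := G.Adj u v ∧ u ∉ S ∧ v ∉ S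
  symm := ⟨fun _ _ h => ⟨h.1.symm, h.2.2, h.2.1⟩⟩
  loopless := ⟨fun _ h => h.1.ne rfl⟩

/-- delete the edge `xy` (if present) -/
def cut (G : SimpleGraph V) (x y : V) : SimpleGraph V where
  Adj u v := G.Adj u v ∧ ¬ ((u = x ∧ v = y) ∨ (u = y ∧ v = x))
  symm := ⟨fun u v h => ⟨h.1.symm, fun h' => h.2 (by tauto)⟩⟩
  loopless := ⟨fun _ h => h.1.ne rfl⟩

/-- delete the vertex `u` and add the edge `ab` -/
def link (G : SimpleGraph V) (u a b : V) : SimpleGraph V where
  Adj p q := (G.Adj p q ∧ p ≠ u ∧ q ≠ u) ∨ (a ≠ b ∧ ((p = a ∧ q = b) ∨ (p = b ∧ q = a)))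
  symm := ⟨fun p q h => by
    rcases h with h | h
    · exact Or.inl ⟨h.1.symm, h.2.2, h.2.1⟩
    · exact Or.inr ⟨h.1, by tauto⟩⟩
  loopless := ⟨fun p h => by
    rcases h with h | ⟨h1, h2⟩
    · exact h.1.ne rfl
    · rcases h2 with h2 | h2
      · exact h1 (h2.1.symm.trans h2.2)
      · exact h1 (h2.2.symm.trans h2.1)⟩

variable [Fintype V]

/-- neighbours as a finset -/
def nb (G : SimpleGraph V) (v : V) : Finset V := Finset.univ.filter (fun w => G.Adj v w)

/-- degree -/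
def dg (G : SimpleGraph V) (v : V) : ℕ := (nb G v).card

/-- twice the number of edges -/
def ec (G : SimpleGraph V) : ℕ := ∑ v, dg G v

/-- weights `3 ↦ 2`, `4 ↦ 3` -/
def ph (k : ℕ) : ℕ := if k = 3 then 2 else if k = 4 then 3 else 0

/-- the potential `3 n_4 + 2 n_3` -/
def Ph (G : SimpleGraph V) : ℕ := ∑ v, ph (dg G v)

/-- every vertex of degree 4 is connected to a token or to a vertex of degree 3 -/
def Serv (G : SimpleGraph V) (R : Finset V) : Prop :=
  ∀ x, dg G x = 4 → ∃ y, G.Reachable x y ∧ (y ∈ R ∨ dg G y = 3)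

/-- the component of `x` as a finset -/
def cp (G : SimpleGraph V) (x : V) : Finset V := Finset.univ.filter (fun y => G.Reachable x y)

/-- the weights for arbitrary degrees (`N = r + 1`) -/
def aN (N k : ℕ) : ℝ :=
  if k ≤ 2 then 0 else if k = 3 then 1 / 4 else 1 - (25 - 5 / (N : ℝ)) / (8 * ((k : ℝ) + 1))

omit [Fintype V] in
theorem del_adj {G : SimpleGraph V} {S : Set V} {u v : V} :
    (del G S).Adj u v ↔ G.Adj u v ∧ u ∉ S ∧ v ∉ S := Iff.rfl

omit [Fintype V] in
theorem cut_adj {G : SimpleGraph V} {x y u v : V} :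
    (cut G x y).Adj u v ↔ G.Adj u v ∧ ¬ ((u = x ∧ v = y) ∨ (u = y ∧ v = x)) := Iff.rfl

omit [Fintype V] in
theorem link_adj {G : SimpleGraph V} {u a b p q : V} :
    (link G u a b).Adj p q ↔
      (G.Adj p q ∧ p ≠ u ∧ q ≠ u) ∨ (a ≠ b ∧ ((p = a ∧ q = b) ∨ (p = b ∧ q = a))) := Iff.rfl

omit [Fintype V] in
theorem del_le (G : SimpleGraph V) (S : Set V) : del G S ≤ G := fun _ _ h => h.1

omit [Fintype V] in
theorem cut_le (G : SimpleGraph V) (x y : V) : cut G x y ≤ G := fun _ _ h => h.1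

omit [Fintype V] in
theorem Mi.mono {r : ℕ} {G H : SimpleGraph V} (h : G ≤ H) (hG : Mi r G) : Mi r H := by
  obtain ⟨f, h1, h2, h3⟩ := hG
  refine ⟨f, fun i => ?_, h2, fun i j hij => ?_⟩
  · exact (h1 i).mono (SimpleGraph.comap_monotone _ h)
  · obtain ⟨u, hu, v, hv, huv⟩ := h3 i j hij
    exact ⟨u, hu, v, hv, h huv⟩

omit [Fintype V] in
theorem Mi.lower {r s : ℕ} (hrs : s ≤ r) {G : SimpleGraph V} (hG : Mi r G) : Mi s G := by
  obtain ⟨f, h1, h2, h3⟩ := hG
  refine ⟨fun i => f (Fin.castLE hrs i), fun i => h1 _, fun i j hij => h2 _ _ ?_,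
    fun i j hij => h3 _ _ ?_⟩
  · intro h; exact hij (Fin.castLE_injective hrs h)
  · intro h; exact hij (Fin.castLE_injective hrs h)

theorem mem_nb {G : SimpleGraph V} {v w : V} : w ∈ nb G v ↔ G.Adj v w := by
  simp [nb]

theorem mem_cp {G : SimpleGraph V} {x y : V} : y ∈ cp G x ↔ G.Reachable x y := by
  simp [cp]

theorem dg_mono {G H : SimpleGraph V} (h : G ≤ H) (v : V) : dg G v ≤ dg H v := by
  apply Finset.card_le_card
  intro w hw
  rw [mem_nb] at hw ⊢
  exact h hw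

theorem dg_pos_iff {G : SimpleGraph V} {v : V} : 0 < dg G v ↔ ∃ w, G.Adj v w := by
  unfold dg
  rw [Finset.card_pos]
  constructor
  · rintro ⟨w, hw⟩; exact ⟨w, mem_nb.1 hw⟩
  · rintro ⟨w, hw⟩; exact ⟨w, mem_nb.2 hw⟩

end

end Pool.Agent.H64.FR
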