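import Pool.Agent.H64.FR.Q
import Pool.Agent.H64.FR.T6

/-!
Module UP.  From `t6` to the deletion constant.

Given `ε > 0` take `N = 0`.  For `G` on `Fin n` apply `t6`: `|S| ≤ ∑ v, aN (r+1) (dg G v) ≤ n * aN (r+1) d` (`aN_mono`, `dg G v ≤ d`:
`dg G v = (G.neighborSet v).ncard`, e.g. `Set.ncard_eq_toFinset_card'` or `Set.ncard_coe_finset`), and `aN (r+1) d` is the stated number
because `d ≥ 4`; `ε n ≥ 0`.  A model `f` avoiding `S` in `G` is a model in `del G S` (`Model r (del G S) f`): the induced graphs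
on `f i` coincide because `f i` is disjoint from `S`.
-/

set_option autoImplicit false
set_option linter.all false

namespace Pool.Agent.H64.FR

open Classical

noncomputable section

theorem up {r d : ℕ} (hr : 5 ≤ r) (hd : 4 ≤ d) :
    (1 - (25 - 5 / ((r : ℝ) + 1)) / (8 * ((d : ℝ) + 1))) ∈ muSet r d := by
  intro ε hε
  refine ⟨0, fun n _ G hG => ?_⟩
  obtain ⟨S, hS, hM, -⟩ := t6 hr G
  refine ⟨S, ?_, ?_⟩
  · have hdeg : ∀ v, dg G v ≤ d := by
      intro v
      have h1 : dg G v = (G.neighborSet v).ncard := by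
        unfold dg
        rw [← Set.ncard_coe_finset]
        congr 1
        ext w
        rw [Finset.mem_coe, mem_nb, SimpleGraph.mem_neighborSet]
      rw [h1]; exact hG v
    have h2 : ∑ v, aN (r + 1) (dg G v) ≤ ∑ _v : Fin n, aN (r + 1) d :=
      Finset.sum_le_sum fun v _ => aN_mono (by omega) (hdeg v)
    rw [Finset.sum_const, Finset.card_univ, Fintype.card_fin, nsmul_eq_mul] at h2
    have h3 : aN (r + 1) d = 1 - (25 - 5 / ((r : ℝ) + 1)) / (8 * ((d : ℝ) + 1)) := by
      unfold aN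
      rw [if_neg (by omega), if_neg (by omega)]
      push_cast
      rfl
    rw [h3] at h2
    have h4 : 0 ≤ ε * (n : ℝ) := by positivity
    nlinarith [hS, h2, h4]
  · rintro ⟨f, h1, h2, h3, h4⟩
    apply hM
    have hadj : ∀ {i : Fin r} {u v : Fin n}, u ∈ f i → G.Adj u v → (∃ j, v ∈ f j) →
        (del G (S : Set (Fin n))).Adj u v := by
      intro i u v hu hadj ⟨j, hv⟩
      exact ⟨hadj, fun h => Set.disjoint_left.1 (h1 i) hu h, fun h => Set.disjoint_left.1 (h1 j) hv h⟩
    refine ⟨f, fun i => ?_, h3, fun i j hij => ?_⟩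
    · refine (h2 i).mono ?_
      intro u v huv
      exact hadj u.2 huv ⟨i, v.2⟩
    · obtain ⟨u, hu, v, hv, huv⟩ := h4 i j hij
      exact ⟨u, hu, v, hv, hadj hu huv ⟨j, hv⟩⟩

end

end Pool.Agent.H64.FR
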