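import Pool.Agent.H64.FR.LO
import Pool.Agent.H64.FR.UP

set_option autoImplicit false
set_option linter.all false

namespace Pool.Agent.H64.FR

theorem main {r d : ℕ} (hr : 5 ≤ r) (hd : 4 ≤ d) :
    sInf (muSet r d) ≤ 1 - (25 - 5 / ((r : ℝ) + 1)) / (8 * ((d : ℝ) + 1)) ∧
    ((d : ℝ) - 2) / ((d : ℝ) + 1) ≤ sInf (muSet 4 d) ∧
    sInf (muSet r d) < sInf (muSet 4 d) := by
  have h1 : sInf (muSet r d) ≤ 1 - (25 - 5 / ((r : ℝ) + 1)) / (8 * ((d : ℝ) + 1)) :=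
    csInf_le ⟨0, fun μ h => mu_nonneg h⟩ (up hr hd)
  have h2 : ((d : ℝ) - 2) / ((d : ℝ) + 1) ≤ sInf (muSet 4 d) :=
    le_csInf ⟨1, one_mem (by norm_num)⟩ (fun μ h => lo hd h)
  refine ⟨h1, h2, ?_⟩
  have hd' : (4 : ℝ) ≤ d := by exact_mod_cast hd
  have hr' : (5 : ℝ) ≤ r := by exact_mod_cast hr
  have h3 : 5 / ((r : ℝ) + 1) ≤ 5 / 6 := by
    apply div_le_div_of_nonneg_left <;> linarith
  have h4 : (1 : ℝ) - (25 - 5 / ((r : ℝ) + 1)) / (8 * ((d : ℝ) + 1)) <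
      ((d : ℝ) - 2) / ((d : ℝ) + 1) := by
    have h5 : ((d : ℝ) - 2) / ((d : ℝ) + 1) = 1 - 24 / (8 * ((d : ℝ) + 1)) := by
      field_simp; ring
    rw [h5]
    have h6 : 24 / (8 * ((d : ℝ) + 1)) < (25 - 5 / ((r : ℝ) + 1)) / (8 * ((d : ℝ) + 1)) := by
      apply div_lt_div_of_pos_right <;> linarith
    linarith
  linarith

end Pool.Agent.H64.FR
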