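import Pool.Agent.H64.FR.Q

/-!
Module LO.  Lower bound for `K_4` (disjoint copies of `K_{d+1}`), and simple facts on `muSet`.

(1) `lo`: let `μ ∈ muSet 4 d` and suppose `μ < (d-2)/(d+1)`; `ε := ((d-2)/(d+1) - μ)/2`, `N` from the definition,
`n := (d+1) * m` with `m := N + 1`.  `G : SimpleGraph (Fin n)`: `Adj u v := u ≠ v ∧ u.val / (d+1) = v.val / (d+1)`.  Each vertex has
at most `d` neighbours (its block has `d + 1` elements).  Let `S` be given.  `|S| ≤ (μ+ε) n < (d-2) m`.  The `m` blocks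
`{x | x.val / (d+1) = j}`, `j < m`, are disjoint with `d + 1` elements each, so some block contains at most `d - 3` elements of
`S` (otherwise `|S| ≥ m (d-2)`), hence at least `4` elements outside `S`; choose an injection `g : Fin 4 → block \ S` and
`f i := {g i}`: a forbidden model.  Contradiction.
(2) `mu_nonneg`: if `μ < 0` take `ε = -μ/2`, `n = N + 1`, the empty graph: `0 ≤ |S| ≤ (μ/2) n < 0`.
(3) `one_mem`: `S = univ`; a set disjoint from `univ` is empty, but `G.induce (f i)` connected needs `f i` nonempty.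
-/

set_option autoImplicit false
set_option linter.all false

namespace Pool.Agent.H64.FR

open Classical

noncomputable section

theorem LO_single_connected {W : Type*} (G : SimpleGraph W) (x : W) :
    (G.induce ({x} : Set W)).Connected := by
  haveI : Subsingleton ({x} : Set W) := by
    constructor
    rintro ⟨a, ha⟩ ⟨b, hb⟩
    rw [Set.mem_singleton_iff] at ha hb
    subst ha; subst hb; rfl
  haveI : Nonempty ({x} : Set W) := ⟨⟨x, rfl⟩⟩
  rw [SimpleGraph.connected_iff_exists_forall_reachable]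
  refine ⟨⟨x, rfl⟩, fun b => ?_⟩
  have : b = ⟨x, rfl⟩ := Subsingleton.elim _ _
  rw [this]

/-- the disjoint union of `m` copies of `K_{d+1}` -/
def LO_G (d m : ℕ) : SimpleGraph (Fin ((d + 1) * m)) where
  Adj u v := u ≠ v ∧ u.val / (d + 1) = v.val / (d + 1)
  symm := ⟨fun _ _ h => ⟨h.1.symm, h.2.symm⟩⟩
  loopless := ⟨fun _ h => h.1 rfl⟩

/-- block `j` -/
def LO_blk (d m j : ℕ) : Finset (Fin ((d + 1) * m)) :=
  Finset.univ.filter (fun x => x.val / (d + 1) = j)

theorem LO_blk_card {d m j : ℕ} (hj : j < m) : (LO_blk d m j).card = d + 1 := by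
  have hb : ∀ t : Fin (d + 1), (d + 1) * j + t.val < (d + 1) * m := by
    intro t
    have h1 := t.isLt
    have h2 : (d + 1) * (j + 1) ≤ (d + 1) * m := Nat.mul_le_mul_left _ hj
    have h3 : (d + 1) * (j + 1) = (d + 1) * j + (d + 1) := by ring
    omega
  have himg : LO_blk d m j = Finset.univ.image
      (fun t : Fin (d + 1) => (⟨(d + 1) * j + t.val, hb t⟩ : Fin ((d + 1) * m))) := by
    ext x
    simp only [LO_blk, Finset.mem_filter, Finset.mem_univ, true_and, Finset.mem_image]
    constructor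
    · intro h
      refine ⟨⟨x.val % (d + 1), Nat.mod_lt _ (by omega)⟩, ?_⟩
      apply Fin.ext
      simp only
      rw [← h]
      exact Nat.div_add_mod _ _
    · rintro ⟨t, ht⟩
      rw [← ht]
      simp only
      rw [Nat.mul_add_div (by omega : 0 < d + 1), Nat.div_eq_of_lt t.isLt, add_zero]
  rw [himg, Finset.card_image_of_injective]
  · simp
  · intro a b hab
    simp only [Fin.mk.injEq] at hab
    exact Fin.ext (by omega)

theorem lo {d : ℕ} (hd : 4 ≤ d) {μ : ℝ} (h : μ ∈ muSet 4 d) :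
    ((d : ℝ) - 2) / ((d : ℝ) + 1) ≤ μ := by
  by_contra hlt
  push Not at hlt
  have hd1 : (0 : ℝ) < (d : ℝ) + 1 := by positivity
  obtain ⟨N, hN⟩ := h ((((d : ℝ) - 2) / ((d : ℝ) + 1) - μ) / 2) (by linarith)
  obtain ⟨m, hm⟩ : ∃ m, m = N + 1 := ⟨_, rfl⟩
  have hNn : N ≤ (d + 1) * m := by
    have : 1 * m ≤ (d + 1) * m := Nat.mul_le_mul_right _ (by omega)
    omega
  have hdeg : ∀ v, ((LO_G d m).neighborSet v).ncard ≤ d := by
    intro v
    have hvlt : v.val / (d + 1) < m := Nat.div_lt_of_lt_mul v.isLt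
    have hsub : (LO_G d m).neighborSet v ⊆
        (((LO_blk d m (v.val / (d + 1))).erase v : Finset _) : Set _) := by
      intro w hw
      have hw' : v ≠ w ∧ v.val / (d + 1) = w.val / (d + 1) := hw
      rw [Finset.mem_coe, Finset.mem_erase]
      refine ⟨hw'.1.symm, ?_⟩
      simp [LO_blk, hw'.2]
    have h1 := Set.ncard_le_ncard hsub (Finset.finite_toSet _)
    rw [Set.ncard_coe_finset] at h1
    have hv : v ∈ LO_blk d m (v.val / (d + 1)) := by simp [LO_blk]
    rw [Finset.card_erase_of_mem hv, LO_blk_card hvlt] at h1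
    omega
  obtain ⟨S, hS, hno⟩ := hN _ hNn (LO_G d m) hdeg
  have hmpos : (0 : ℝ) < m := by
    rw [hm]; positivity
  have hScard : (S.card : ℝ) < ((d : ℝ) - 2) * m := by
    have h1 : μ + (((d : ℝ) - 2) / ((d : ℝ) + 1) - μ) / 2 < ((d : ℝ) - 2) / ((d : ℝ) + 1) := by
      linarith
    have h2 : (0 : ℝ) < (((d + 1) * m : ℕ) : ℝ) := by push_cast; positivity
    have h3 := mul_lt_mul_of_pos_right h1 h2
    have h4 : ((d : ℝ) - 2) / ((d : ℝ) + 1) * (((d + 1) * m : ℕ) : ℝ) = ((d : ℝ) - 2) * m := by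
      push_cast
      field_simp
    linarith
  have hex : ∃ j < m, (S.filter (fun x => x.val / (d + 1) = j)).card ≤ d - 3 := by
    by_contra hall
    push Not at hall
    have h1 : S.card = ∑ j ∈ Finset.range m, (S.filter (fun x => x.val / (d + 1) = j)).card := by
      apply Finset.card_eq_sum_card_fiberwise
      intro x _
      rw [Finset.coe_range, Set.mem_Iio]
      exact Nat.div_lt_of_lt_mul x.isLt
    have h2 : m * (d - 2) ≤ S.card := by
      rw [h1]
      calc m * (d - 2) = ∑ j ∈ Finset.range m, (d - 2) := by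
            rw [Finset.sum_const, Finset.card_range, smul_eq_mul]
        _ ≤ _ := by
            apply Finset.sum_le_sum
            intro j hj
            have := hall j (Finset.mem_range.mp hj)
            omega
    have h3 : ((m * (d - 2) : ℕ) : ℝ) ≤ (S.card : ℝ) := by exact_mod_cast h2
    have h4 : ((m * (d - 2) : ℕ) : ℝ) = ((d : ℝ) - 2) * m := by
      rw [Nat.cast_mul, Nat.cast_sub (by omega)]
      push_cast
      ring
    linarith
  obtain ⟨j, hj, hjS⟩ := hex
  have h4 : 4 ≤ (LO_blk d m j \ S).card := by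
    have h1 : (LO_blk d m j ∩ S).card ≤ d - 3 := by
      refine le_trans (Finset.card_le_card ?_) hjS
      intro x hx
      rw [Finset.mem_inter] at hx
      rw [Finset.mem_filter]
      refine ⟨hx.2, ?_⟩
      have := hx.1
      simp only [LO_blk, Finset.mem_filter, Finset.mem_univ, true_and] at this
      exact this
    have h2 := Finset.card_sdiff_add_card_inter (LO_blk d m j) S
    rw [LO_blk_card hj] at h2
    omega
  obtain ⟨g, hg⟩ : ∃ g : Fin 4 ↪o Fin ((d + 1) * m), ∀ i, g i ∈ LO_blk d m j \ S :=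
    ⟨(LO_blk d m j \ S).orderEmbOfCardLe h4, fun i => Finset.orderEmbOfCardLe_mem _ h4 i⟩
  apply hno
  refine ⟨fun i => {g i}, ?_, ?_, ?_, ?_⟩
  · intro i
    rw [Set.disjoint_singleton_left]
    intro hi
    exact (Finset.mem_sdiff.mp (hg i)).2 (Finset.mem_coe.mp hi)
  · intro i
    exact LO_single_connected _ _
  · intro i k hik
    rw [Set.disjoint_singleton]
    exact fun heq => hik (g.injective heq)
  · intro i k hik
    refine ⟨g i, rfl, g k, rfl, ?_⟩
    refine ⟨fun heq => hik (g.injective heq), ?_⟩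
    have h1 := (Finset.mem_sdiff.mp (hg i)).1
    have h2 := (Finset.mem_sdiff.mp (hg k)).1
    simp only [LO_blk, Finset.mem_filter, Finset.mem_univ, true_and] at h1 h2
    rw [h1, h2]

theorem mu_nonneg {r d : ℕ} {μ : ℝ} (h : μ ∈ muSet r d) : 0 ≤ μ := by
  by_contra hlt
  push Not at hlt
  obtain ⟨N, hN⟩ := h (-μ / 2) (by linarith)
  obtain ⟨S, hS, -⟩ := hN (N + 1) (by omega) ⊥ (fun v => by simp)
  have h1 : (0 : ℝ) ≤ S.card := Nat.cast_nonneg _
  have h2 : (0 : ℝ) < ((N + 1 : ℕ) : ℝ) := by positivity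
  nlinarith

theorem one_mem {r d : ℕ} (hr : 1 ≤ r) : (1 : ℝ) ∈ muSet r d := by
  intro ε hε
  refine ⟨0, fun n _ G _ => ⟨Finset.univ, ?_, ?_⟩⟩
  · rw [Finset.card_univ, Fintype.card_fin]
    have : (0 : ℝ) ≤ n := Nat.cast_nonneg _
    nlinarith
  · rintro ⟨f, h1, h2, -⟩
    have h3 := h1 ⟨0, by omega⟩
    obtain ⟨⟨x, hx⟩⟩ := (h2 ⟨0, by omega⟩).nonempty
    exact Set.disjoint_left.mp h3 hx (by simp)

end

end Pool.Agent.H64.FR
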