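import Pool.Agent.H64.FR.Defs

/-!
Module MA.  A vertex `u` with at most one neighbour is irrelevant for `K_r`-minors, `r ≥ 3`.

Proof.  Let `f` be a model in `G`.  If `u` lies in no branch set, every branch set avoids `u` and `f` is a model in
`del G {u}` (a walk of `G.induce (f i)` never uses `u`; the connecting edges avoid `u`).  If `u ∈ f i`:
* if `f i = {u}`, then `u` has a neighbour in each of the two other (disjoint) branch sets, but all neighbours are `= w`:
  contradiction (`r ≥ 3` gives `j ≠ k` different from `i`; `w ∈ f j ∩ f k`).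
* otherwise `f i \ {u}` is nonempty; as `G.induce (f i)` is connected and has another vertex, `u` has a neighbour in `f i`,
  so `w ∈ f i`; hence no connecting edge from `f i` to another branch set uses `u` (it would end in `w ∈ f i`), and
  `f i \ {u}` is connected in `del G {u}`: for `x, y ∈ f i \ {u}` take a PATH from `x` to `y` inside `G.induce (f i)`;
  an interior vertex `u` of a path would have two different neighbours on it, but both are `w`.
  (Alternatively: map every vertex of a walk by `u ↦ w`: consecutive vertices stay equal or adjacent and `≠ u`.)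
  Replace `f i` by `f i \ {u}` (`Function.update`).
The retraction argument is the shortest: if `φ : V → V`, `φ u = w`, `φ x = x` otherwise, then `G.Adj x y` implies
`φ x = φ y` or `(del G {u}).Adj (φ x) (φ y)`.
-/

set_option autoImplicit false
set_option linter.all false

namespace Pool.Agent.H64.FR

open Classical

noncomputable section

variable {V : Type*}

/-- if `u` is in a connected branch set with another vertex, its only possible neighbour is in it -/
theorem MA_mem {G : SimpleGraph V} {u w : V} (hN : ∀ x, G.Adj u x → x = w) {S : Set V}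
    (hS : (G.induce S).Connected) (hu : u ∈ S) (hne : (S \ {u}).Nonempty) : w ∈ S ∧ w ≠ u := by
  obtain ⟨p, hp, hpu⟩ := hne
  obtain ⟨W⟩ := hS.preconnected ⟨u, hu⟩ ⟨p, hp⟩
  cases W with
  | nil => exact absurd rfl hpu
  | @cons _ v _ h _ =>
    have h' : G.Adj u (v : V) := h
    have h2 := hN _ h'
    exact ⟨h2 ▸ v.2, fun h3 => h'.ne (by rw [h2, h3])⟩

theorem MA_conn {G : SimpleGraph V} {u w : V} (hN : ∀ x, G.Adj u x → x = w) {S : Set V}
    (hS : (G.induce S).Connected) (hne : (S \ {u}).Nonempty) :
    ((del G {u}).induce (S \ {u})).Connected := by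
  by_cases hu : u ∈ S
  · obtain ⟨hw, hwu⟩ := MA_mem hN hS hu hne
    let φ : S → (S \ {u} : Set V) := fun x =>
      if h : (x : V) = u then ⟨w, hw, hwu⟩ else ⟨x, x.2, h⟩
    have key : ∀ (p q : S) (W : (G.induce S).Walk p q),
        ((del G {u}).induce (S \ {u})).Reachable (φ p) (φ q) := by
      intro p q W
      induction W with
      | nil => exact SimpleGraph.Reachable.refl _
      | @cons a b c h _ ih =>
        have h' : G.Adj (a : V) (b : V) := h
        by_cases ha : (a : V) = u
        · have hb : (b : V) = w := hN _ (ha ▸ h')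
          have hab : φ a = φ b := by
            have hbu : ¬ (b : V) = u := by rw [hb]; exact hwu
            simp only [φ, dif_pos ha, dif_neg hbu]
            exact Subtype.ext hb.symm
          rw [hab]
          exact ih
        · by_cases hb : (b : V) = u
          · have ha' : (a : V) = w := hN _ (hb ▸ h'.symm)
            have hab : φ a = φ b := by
              simp only [φ, dif_pos hb, dif_neg ha]
              exact Subtype.ext ha'
            rw [hab]
            exact ih
          · have hadj : ((del G {u}).induce (S \ {u})).Adj (φ a) (φ b) := by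
              simp only [φ, dif_neg ha, dif_neg hb]
              exact ⟨h', by simpa using ha, by simpa using hb⟩
            exact hadj.reachable.trans ih
    obtain ⟨p, hp⟩ := hne
    haveI : Nonempty (S \ {u} : Set V) := ⟨⟨p, hp⟩⟩
    refine SimpleGraph.Connected.mk ?_
    intro x y
    obtain ⟨W⟩ := hS.preconnected ⟨x, x.2.1⟩ ⟨y, y.2.1⟩
    have := key _ _ W
    have hx : φ ⟨x, x.2.1⟩ = x := by
      have : ¬ (x : V) = u := x.2.2
      simp only [φ, dif_neg this]
    have hy : φ ⟨y, y.2.1⟩ = y := by
      have : ¬ (y : V) = u := y.2.2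
      simp only [φ, dif_neg this]
    rwa [hx, hy] at this
  · have h1 : S \ {u} = S := by
      ext x
      simp only [Set.mem_sdiff, Set.mem_singleton_iff, and_iff_left_iff_imp]
      rintro hx rfl
      exact hu hx
    rw [h1]
    have h2 : (del G {u}).induce S = G.induce S := by
      ext a b
      simp only [SimpleGraph.comap_adj, Function.Embedding.subtype_apply, del]
      refine ⟨fun h => h.1, fun h' => ⟨h', ?_, ?_⟩⟩
      · rintro h
        exact hu ((Set.mem_singleton_iff.1 h) ▸ a.2)
      · rintro h
        exact hu ((Set.mem_singleton_iff.1 h) ▸ b.2)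
    rw [h2]
    exact hS

theorem mi_leaf {r : ℕ} (hr : 3 ≤ r) {G : SimpleGraph V} {u w : V} (hN : ∀ x, G.Adj u x → x = w)
    (h : Mi r G) : Mi r (del G {u}) := by
  obtain ⟨f, h1, h2, h3⟩ := h
  have hne : ∀ i, (f i \ {u}).Nonempty := by
    intro i
    by_contra hcon
    rw [Set.not_nonempty_iff_eq_empty, Set.sdiff_eq_empty] at hcon
    obtain ⟨j, k, hij, hik, hjk⟩ : ∃ j k : Fin r, i ≠ j ∧ i ≠ k ∧ j ≠ k := by
      by_cases h0 : i.1 = 0
      · exact ⟨⟨1, by omega⟩, ⟨2, by omega⟩, by simp [Fin.ext_iff, h0], by simp [Fin.ext_iff, h0],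
          by simp [Fin.ext_iff]⟩
      · by_cases h0' : i.1 = 1
        · exact ⟨⟨0, by omega⟩, ⟨2, by omega⟩, by simp [Fin.ext_iff, h0'],
            by simp [Fin.ext_iff, h0'], by simp [Fin.ext_iff]⟩
        · exact ⟨⟨0, by omega⟩, ⟨1, by omega⟩, by simp [Fin.ext_iff, h0],
            by simp [Fin.ext_iff, h0'], by simp [Fin.ext_iff]⟩
    obtain ⟨a, ha, b, hb, hab⟩ := h3 i j hij
    obtain ⟨a', ha', b', hb', hab'⟩ := h3 i k hik
    have e1 : a = u := hcon ha
    have e2 : a' = u := hcon ha'
    subst e1
    have e3 := hN _ hab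
    have e4 := hN _ (e2 ▸ hab')
    exact Set.disjoint_left.1 (h2 j k hjk) hb (by rw [e3, ← e4]; exact hb')
  refine ⟨fun i => f i \ {u}, fun i => MA_conn hN (h1 i) (hne i), fun i j hij =>
    (h2 i j hij).mono Set.sdiff_subset Set.sdiff_subset, ?_⟩
  intro i j hij
  obtain ⟨a, ha, b, hb, hab⟩ := h3 i j hij
  have hau : a ≠ u := by
    rintro rfl
    have e := hN _ hab
    have := (MA_mem hN (h1 i) ha (hne i)).1
    exact Set.disjoint_left.1 (h2 i j hij) this (e ▸ hb)
  have hbu : b ≠ u := by
    rintro rfl
    have e := hN _ hab.symm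
    have := (MA_mem hN (h1 j) hb (hne j)).1
    exact Set.disjoint_left.1 (h2 i j hij) (e ▸ ha) this
  exact ⟨a, ⟨ha, hau⟩, b, ⟨hb, hbu⟩, hab, hau, hbu⟩

end

end Pool.Agent.H64.FR
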