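import Pool.Agent.H64.FR.Defs

/-!
Module MB.  A vertex `u` with at most two neighbours `a, b` may be suppressed: `K_r`-minors (`r ≥ 4`) survive in
`link G u a b` (delete `u`, add the edge `ab`).

Proof.  Let `f` be a model in `G`.  If `u` lies in no branch set, `f` is a model of `del G {u} ≤ link G u a b`.
If `u ∈ f i`:
* `f i = {u}` is impossible: `u` has a neighbour in each of the `r - 1 ≥ 3` other pairwise disjoint branch sets, but only two
  possible neighbours.
* otherwise `u` has a neighbour in `f i` (connected with at least two vertices), so `a ∈ f i` or `b ∈ f i`; by symmetry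
  (`link G u a b` and `link G u b a` have the same edges) assume `a ∈ f i`.  New branch set `f i \ {u}` (contains `a`).
  Connectedness in `link`: retraction `φ u = a`, `φ x = x` otherwise: for `x, y ∈ f i` with `G.Adj x y` we have
  `φ x = φ y` or `(link G u a b).Adj (φ x) (φ y)` (if `x = u` then `y ∈ {a, b}`, and `a`, `b` are linked).
  A connecting edge `p q` with `p ∈ f i`, `q ∈ f j`, `j ≠ i`: if `p ≠ u` keep it (`q ≠ u` as `u ∈ f i`); if `p = u` then
  `q = b` (`q = a ∈ f i` is impossible) and use the edge `a b`.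
-/

set_option autoImplicit false
set_option linter.all false

namespace Pool.Agent.H64.FR

open Classical

noncomputable section

variable {V : Type*}

theorem MB_conn {G G' : SimpleGraph V} {s t : Set V} (φ : V → V) (hst : ∀ x ∈ s, φ x ∈ t)
    (hts : ∀ x ∈ t, x ∈ s ∧ φ x = x)
    (hadj : ∀ x ∈ s, ∀ y ∈ s, G.Adj x y → φ x = φ y ∨ G'.Adj (φ x) (φ y))
    (h : (G.induce s).Connected) : (G'.induce t).Connected := by
  have key : ∀ p q : s, (G.induce s).Walk p q →
      (G'.induce t).Reachable ⟨φ p, hst _ p.2⟩ ⟨φ q, hst _ q.2⟩ := by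
    intro p q w
    induction w with
    | nil => exact SimpleGraph.Reachable.refl _
    | @cons p q r h1 _ ih =>
      refine SimpleGraph.Reachable.trans ?_ ih
      have h2 : G.Adj p.1 q.1 := h1
      rcases hadj p.1 p.2 q.1 q.2 h2 with h3 | h3
      · have h4 : (⟨φ p, hst _ p.2⟩ : t) = ⟨φ q, hst _ q.2⟩ := Subtype.ext h3
        rw [h4]
      · exact SimpleGraph.Adj.reachable (by exact h3)
  obtain ⟨x0⟩ := h.nonempty
  haveI : Nonempty t := ⟨⟨φ x0, hst _ x0.2⟩⟩
  refine SimpleGraph.Connected.mk ?_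
  intro x y
  obtain ⟨w⟩ := h.preconnected ⟨x.1, (hts x.1 x.2).1⟩ ⟨y.1, (hts y.1 y.2).1⟩
  have := key _ _ w
  have e1 : (⟨φ x.1, hst _ (hts x.1 x.2).1⟩ : t) = x := Subtype.ext (hts x.1 x.2).2
  have e2 : (⟨φ y.1, hst _ (hts y.1 y.2).1⟩ : t) = y := Subtype.ext (hts y.1 y.2).2
  simpa only [e1, e2] using this

theorem MB_aux {r : ℕ} {G : SimpleGraph V} {u a b : V} (hab : a ≠ b) (hau : a ≠ u)
    (hbu : b ≠ u) (hN : ∀ x, G.Adj u x → x = a ∨ x = b) {f : Fin r → Set V} (h : Model r G f)
    {i : Fin r} (hui : u ∈ f i) (hai : a ∈ f i) : Mi r (link G u a b) := by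
  obtain ⟨h1, h2, h3⟩ := h
  have huj : ∀ j, u ∈ f j → j = i := by
    intro j hj
    by_contra hne
    exact Set.disjoint_left.1 (h2 j i hne) hj hui
  have haj : ∀ j, a ∈ f j → j = i := by
    intro j hj
    by_contra hne
    exact Set.disjoint_left.1 (h2 j i hne) hj hai
  have hlab : (link G u a b).Adj a b := Or.inr ⟨hab, Or.inl ⟨rfl, rfl⟩⟩
  refine ⟨fun j => f j \ {u}, ?_, ?_, ?_⟩
  · intro j
    refine MB_conn (fun x => if x = u then a else x) ?_ ?_ ?_ (h1 j)
    · intro x hx
      show (if x = u then a else x) ∈ f j \ {u}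
      by_cases hxu : x = u
      · rw [if_pos hxu]
        rw [hxu] at hx
        rw [huj j hx]
        exact ⟨hai, hau⟩
      · rw [if_neg hxu]
        exact ⟨hx, hxu⟩
    · intro x hx
      refine ⟨hx.1, ?_⟩
      have hxu : x ≠ u := fun h => hx.2 h
      show (if x = u then a else x) = x
      rw [if_neg hxu]
    · intro x hx y hy hxy
      show (if x = u then a else x) = (if y = u then a else y) ∨
        (link G u a b).Adj (if x = u then a else x) (if y = u then a else y)
      by_cases hxu : x = u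
      · have hyu : y ≠ u := fun h => hxy.ne (hxu.trans h.symm)
        rw [if_pos hxu, if_neg hyu]
        rw [hxu] at hxy
        rcases hN y hxy with h4 | h4
        · exact Or.inl h4.symm
        · rw [h4]
          exact Or.inr hlab
      · rw [if_neg hxu]
        by_cases hyu : y = u
        · rw [if_pos hyu]
          rw [hyu] at hxy
          rcases hN x hxy.symm with h4 | h4
          · exact Or.inl h4
          · rw [h4]
            exact Or.inr hlab.symm
        · rw [if_neg hyu]
          exact Or.inr (Or.inl ⟨hxy, hxu, hyu⟩)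
  · intro j k hjk
    exact (h2 j k hjk).mono Set.diff_subset Set.diff_subset
  · intro j k hjk
    obtain ⟨p, hp, q, hq, hpq⟩ := h3 j k hjk
    by_cases hpu : p = u
    · rw [hpu] at hp hpq
      have hji := huj j hp
      have hki : k ≠ i := fun h => hjk (hji.trans h.symm)
      have hqb : q = b := by
        rcases hN q hpq with h4 | h4
        · rw [h4] at hq
          exact absurd (haj k hq) hki
        · exact h4
      rw [hqb] at hq
      refine ⟨a, ⟨?_, hau⟩, b, ⟨hq, hbu⟩, hlab⟩
      rw [hji]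
      exact hai
    · by_cases hqu : q = u
      · rw [hqu] at hq hpq
        have hki := huj k hq
        have hji : j ≠ i := fun h => hjk (h.trans hki.symm)
        have hpb : p = b := by
          rcases hN p hpq.symm with h4 | h4
          · rw [h4] at hp
            exact absurd (haj j hp) hji
          · exact h4
        rw [hpb] at hp
        refine ⟨b, ⟨hp, hbu⟩, a, ⟨?_, hau⟩, hlab.symm⟩
        rw [hki]
        exact hai
      · exact ⟨p, ⟨hp, hpu⟩, q, ⟨hq, hqu⟩, Or.inl ⟨hpq, hpu, hqu⟩⟩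

theorem MB_mem {r : ℕ} (hr : 4 ≤ r) {G : SimpleGraph V} {u a b : V}
    (hN : ∀ x, G.Adj u x → x = a ∨ x = b) {f : Fin r → Set V} (h : Model r G f)
    {i : Fin r} (hui : u ∈ f i) : a ∈ f i ∨ b ∈ f i := by
  obtain ⟨h1, h2, h3⟩ := h
  by_contra hcon
  push Not at hcon
  have hall : ∀ x ∈ f i, x = u := by
    intro x hx
    by_contra hne
    obtain ⟨w⟩ := (h1 i).preconnected ⟨u, hui⟩ ⟨x, hx⟩
    cases w with
    | nil => exact hne rfl
    | @cons _ y _ h4 _ =>
      have h5 : G.Adj u y.1 := h4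
      rcases hN y.1 h5 with h6 | h6
      · exact hcon.1 (h6 ▸ y.2)
      · exact hcon.2 (h6 ▸ y.2)
  have hj : ∀ j, j ≠ i → a ∈ f j ∨ b ∈ f j := by
    intro j hji
    obtain ⟨p, hp, q, hq, hpq⟩ := h3 i j hji.symm
    rw [hall p hp] at hpq
    rcases hN q hpq with h6 | h6
    · exact Or.inl (h6 ▸ hq)
    · exact Or.inr (h6 ▸ hq)
  have hcard : (Finset.univ : Finset Bool).card < (Finset.univ.erase i).card := by
    rw [Finset.card_erase_of_mem (Finset.mem_univ _), Finset.card_univ, Finset.card_univ,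
      Fintype.card_bool, Fintype.card_fin]
    omega
  obtain ⟨j, hj1, k, hk1, hjk, hjk2⟩ := Finset.exists_ne_map_eq_of_card_lt_of_maps_to hcard
    (f := fun j => decide (a ∈ f j)) (fun _ _ => Finset.mem_coe.2 (Finset.mem_univ _))
  have hdis := Set.disjoint_left.1 (h2 j k hjk)
  have hjk3 : a ∈ f j ↔ a ∈ f k := by simpa using hjk2
  by_cases haj : a ∈ f j
  · exact hdis haj (hjk3.1 haj)
  · have hak : a ∉ f k := fun h => haj (hjk3.2 h)
    have hbj := (hj j (Finset.ne_of_mem_erase hj1)).resolve_left haj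
    have hbk := (hj k (Finset.ne_of_mem_erase hk1)).resolve_left hak
    exact hdis hbj hbk

theorem MB_swap {G : SimpleGraph V} {u a b : V} : link G u b a ≤ link G u a b := by
  intro p q h
  rcases h with h | ⟨h1, h2⟩
  · exact Or.inl h
  · exact Or.inr ⟨h1.symm, h2.symm⟩

theorem mi_link {r : ℕ} (hr : 4 ≤ r) {G : SimpleGraph V} {u a b : V} (hab : a ≠ b) (hau : a ≠ u)
    (hbu : b ≠ u) (hN : ∀ x, G.Adj u x → x = a ∨ x = b) (h : Mi r G) : Mi r (link G u a b) := by
  obtain ⟨f, hf⟩ := h
  by_cases hu : ∃ i, u ∈ f i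
  · obtain ⟨i, hui⟩ := hu
    rcases MB_mem hr hN hf hui with hai | hbi
    · exact MB_aux hab hau hbu hN hf hui hai
    · exact (MB_aux hab.symm hbu hau (fun x hx => (hN x hx).symm) hf hui hbi).mono MB_swap
  · push Not at hu
    obtain ⟨h1, h2, h3⟩ := hf
    refine ⟨f, fun j => ?_, h2, fun j k hjk => ?_⟩
    · refine MB_conn id (fun x hx => hx) (fun x hx => ⟨hx, rfl⟩) ?_ (h1 j)
      intro x hx y hy hxy
      exact Or.inr (Or.inl ⟨hxy, fun h => hu j (h ▸ hx), fun h => hu j (h ▸ hy)⟩)
    · obtain ⟨p, hp, q, hq, hpq⟩ := h3 j k hjk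
      exact ⟨p, hp, q, hq, Or.inl ⟨hpq, fun h => hu j (h ▸ hp), fun h => hu k (h ▸ hq)⟩⟩

end

end Pool.Agent.H64.FR
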