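import Pool.Agent.H64.FR.Defs

/-!
Module MC.  Bridges are irrelevant for `K_r`-minors, `r ≥ 3`.  (If `G` has no edge `xy` the statement is trivial:
then `cut G x y = G`.)

Proof.  Let `f` be a model in `G`, `H = cut G x y`.  `X := {z | H.Reachable x z}`, so `y ∉ X` (hypothesis).  `X` is closed
under `H`-adjacency, and a `G`-edge between `X` and its complement is the edge `xy` (with `x ∈ X`, `y ∉ X`).
For a branch set `f i` which does not contain both `x` and `y`: `G.induce (f i) = H.induce (f i)`, hence `f i ⊆ X` or `f i`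
is disjoint from `X` (connected and `X` closed).
(1) No branch set contains both `x` and `y`.  If some pair `f i, f j` is joined only by the edge `xy`, say `x ∈ f i`,
  `y ∈ f j`, then `f i ⊆ X`, `f j ∩ X = ∅`; take a third branch set `f k` (`r ≥ 3`): it contains neither `x` nor `y`, the
  edges joining it to `f i` and to `f j` are different from `xy`, hence `H`-edges, so `f k ⊆ X` and `f k ∩ X = ∅`:
  contradiction with nonemptiness.  So all connecting edges may be taken in `H` and `f` is a model in `H`.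
(2) `x, y ∈ f i`.  All other branch sets avoid `x, y`, are `H`-connected, and all edges joining two branch sets are
  `H`-edges (an edge `xy` joins `f i` to itself only).  Each `f j`, `j ≠ i`, is inside `X` or disjoint from `X`; since two of
  them are joined by an `H`-edge they are all on the same side: let `Y = X` or `Y = Xᶜ` be that side (`Y` is `H`-closed and
  contains exactly one of `x, y`, call it `t`).
  Replace `f i` by `f i ∩ Y`.  It is `H`-connected: retract the other side to `t`
  (`φ z = z` for `z ∈ Y`, `φ z = t` for `z ∉ Y`): a `G`-edge inside `f i` is mapped to an `H`-edge or to an equality (for the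
  edge `xy` both ends are mapped to `t`).  The edges joining `f i` to `f j` are `H`-edges with one end in `f j ⊆ Y`, so the
  other end is in `f i ∩ Y`.
-/

set_option autoImplicit false
set_option linter.all false

namespace Pool.Agent.H64.FR

open Classical

noncomputable section

variable {V : Type*}

/-- a property closed along the edges inside a connected set is constant on it -/
theorem MC_const {G : SimpleGraph V} {S : Set V} (hc : (G.induce S).Connected) (P : V → Prop)
    (hP : ∀ a ∈ S, ∀ b ∈ S, G.Adj a b → (P a → P b)) :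
    ∀ a ∈ S, ∀ b ∈ S, P a → P b := by
  intro a ha b hb hPa
  obtain ⟨w⟩ := hc.preconnected ⟨a, ha⟩ ⟨b, hb⟩
  have key : ∀ (u v : S), (G.induce S).Walk u v → P u → P v := by
    intro u v w
    induction w with
    | nil => exact id
    | @cons u v w h p ih =>
      intro hu
      exact ih (hP u u.2 v v.2 h hu)
  exact key _ _ w hPa

/-- connected sets are preserved by retractions mapping edges to edges or points -/
theorem MC_retract {G H : SimpleGraph V} {S S' : Set V} (hc : (G.induce S).Connected)
    (φ : V → V) (hφ : ∀ z ∈ S, φ z ∈ S') (hid : ∀ z ∈ S', z ∈ S ∧ φ z = z)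
    (hadj : ∀ a ∈ S, ∀ b ∈ S, G.Adj a b → H.Adj (φ a) (φ b) ∨ φ a = φ b) :
    (H.induce S').Connected := by
  have key : ∀ (u v : S), (G.induce S).Walk u v →
      (H.induce S').Reachable ⟨φ u, hφ u u.2⟩ ⟨φ v, hφ v v.2⟩ := by
    intro u v w
    induction w with
    | nil => exact SimpleGraph.Reachable.refl _
    | @cons u v w h p ih =>
      refine SimpleGraph.Reachable.trans ?_ ih
      rcases hadj u u.2 v v.2 h with h1 | h1
      · exact SimpleGraph.Adj.reachable (show (H.induce S').Adj _ _ from h1)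
      · have : (⟨φ u, hφ u u.2⟩ : S') = ⟨φ v, hφ v v.2⟩ := Subtype.ext h1
        rw [this]
  obtain ⟨z0⟩ := hc.nonempty
  have : Nonempty S' := ⟨⟨φ z0, hφ z0 z0.2⟩⟩
  refine ⟨fun a b => ?_⟩
  obtain ⟨ha, ha2⟩ := hid a a.2
  obtain ⟨hb, hb2⟩ := hid b b.2
  obtain ⟨w⟩ := hc.preconnected ⟨a, ha⟩ ⟨b, hb⟩
  have h1 := key _ _ w
  have e1 : (⟨φ a, hφ a ha⟩ : S') = a := Subtype.ext ha2
  have e2 : (⟨φ b, hφ b hb⟩ : S') = b := Subtype.ext hb2
  have h2 : (H.induce S').Reachable ⟨φ a, hφ a ha⟩ ⟨φ b, hφ b hb⟩ := h1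
  rwa [e1, e2] at h2

theorem MC_adj {G : SimpleGraph V} {x y a b : V} (h : G.Adj a b) :
    (cut G x y).Adj a b ∨ (a = x ∧ b = y) ∨ (a = y ∧ b = x) := by
  by_cases h1 : (a = x ∧ b = y) ∨ (a = y ∧ b = x)
  · exact Or.inr h1
  · exact Or.inl ⟨h, h1⟩

theorem mi_cut {r : ℕ} (hr : 3 ≤ r) {G : SimpleGraph V} {x y : V}
    (hb : ¬ (cut G x y).Reachable x y) (h : Mi r G) : Mi r (cut G x y) := by
  obtain ⟨f, hf1, hf2, hf3⟩ := h
  set H := cut G x y with hH
  have hdis : ∀ {i j : Fin r} {z : V}, i ≠ j → z ∈ f i → z ∈ f j → False := by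
    intro i j z hij h1 h2
    exact Set.disjoint_left.mp (hf2 i j hij) h1 h2
  by_cases hcase : ∃ i, x ∈ f i ∧ y ∈ f i
  · obtain ⟨i0, hx, hy⟩ := hcase
    -- the other branch sets avoid x and y
    have hav : ∀ j, j ≠ i0 → x ∉ f j ∧ y ∉ f j := fun j hj =>
      ⟨fun h => hdis hj h hx, fun h => hdis hj h hy⟩
    obtain ⟨j0, hj0⟩ : ∃ j0 : Fin r, j0 ≠ i0 := by
      by_cases h0 : i0 = ⟨0, by omega⟩
      · refine ⟨⟨1, by omega⟩, ?_⟩
        rw [h0]
        simp [Fin.ext_iff]
      · exact ⟨⟨0, by omega⟩, fun h => h0 h.symm⟩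
    -- the side
    obtain ⟨Y, hYc, t, htY, ht, hxt, hyt, hj0Y⟩ : ∃ Y : Set V,
        (∀ a b, H.Adj a b → (a ∈ Y ↔ b ∈ Y)) ∧ ∃ t, t ∈ Y ∧ t ∈ f i0 ∧ (x ∈ Y → x = t) ∧
          (y ∈ Y → y = t) ∧ ∃ z ∈ f j0, z ∈ Y := by
      obtain ⟨z0⟩ := (hf1 j0).nonempty
      have hXc : ∀ a b, H.Adj a b → (H.Reachable x a ↔ H.Reachable x b) := by
        intro a b hab
        exact ⟨fun h => h.trans hab.reachable, fun h => h.trans hab.symm.reachable⟩
      by_cases hz : H.Reachable x z0
      · refine ⟨{z | H.Reachable x z}, hXc, x, SimpleGraph.Reachable.refl _, hx, fun _ => rfl,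
          fun h => absurd h hb, z0, z0.2, hz⟩
      · refine ⟨{z | ¬ H.Reachable x z}, fun a b hab => not_congr (hXc a b hab), y, hb, hy,
          fun h => absurd (SimpleGraph.Reachable.refl x) h, fun _ => rfl, z0, z0.2, hz⟩
    -- edges not inside f i0 are H-edges
    have hedge : ∀ j, j ≠ i0 → ∀ v ∈ f j, ∀ u, G.Adj u v → H.Adj u v := by
      intro j hj v hv u huv
      rcases MC_adj (x := x) (y := y) huv with h | ⟨_, h⟩ | ⟨_, h⟩
      · exact h
      · exact absurd (h ▸ hv) (hav j hj).2
      · exact absurd (h ▸ hv) (hav j hj).1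
    have hcon : ∀ j, j ≠ i0 → (H.induce (f j)).Connected := by
      intro j hj
      exact MC_retract (hf1 j) id (fun z hz => hz) (fun z hz => ⟨hz, rfl⟩)
        (fun a ha b hb' hab => Or.inl (hedge j hj b hb' a hab))
    have hallj : ∀ j, j ≠ i0 → (∃ z ∈ f j, z ∈ Y) → ∀ z ∈ f j, z ∈ Y := by
      rintro j hj ⟨z, hz, hzY⟩ z' hz'
      exact MC_const (hcon j hj) (fun z => z ∈ Y)
        (fun a _ b _ hab => (hYc a b hab).mp) z hz z' hz' hzY
    have hall : ∀ j, j ≠ i0 → ∀ z ∈ f j, z ∈ Y := by
      intro j hj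
      by_cases hjj : j = j0
      · subst hjj
        exact hallj j hj hj0Y
      · apply hallj j hj
        obtain ⟨u, hu, v, hv, huv⟩ := hf3 j0 j (fun h => hjj h.symm)
        have h1 : H.Adj u v := hedge j hj v hv u huv
        exact ⟨v, hv, (hYc u v h1).mp (hallj j0 hj0 hj0Y u hu)⟩
    set f' : Fin r → Set V := fun j => if j = i0 then f i0 ∩ Y else f j with hf'
    have e0 : f' i0 = f i0 ∩ Y := if_pos rfl
    have e1 : ∀ j, j ≠ i0 → f' j = f j := fun j hj => if_neg hj
    set φ : V → V := fun z => if z ∈ Y then z else t with hφ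
    have p1 : ∀ z, z ∈ Y → φ z = z := fun z hz => if_pos hz
    have p2 : ∀ z, z ∉ Y → φ z = t := fun z hz => if_neg hz
    have hx' : φ x = t := by
      by_cases h : x ∈ Y
      · rw [p1 x h]; exact hxt h
      · exact p2 x h
    have hy' : φ y = t := by
      by_cases h : y ∈ Y
      · rw [p1 y h]; exact hyt h
      · exact p2 y h
    refine ⟨f', fun j => ?_, fun j k hjk => ?_, fun j k hjk => ?_⟩
    · by_cases hj : j = i0
      · rw [hj, e0]
        refine MC_retract (hf1 i0) φ (fun z hz => ?_)
          (fun z hz => ⟨hz.1, p1 z hz.2⟩) (fun a ha b hb' hab => ?_)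
        · by_cases hzY : z ∈ Y
          · rw [p1 z hzY]
            exact ⟨hz, hzY⟩
          · rw [p2 z hzY]
            exact ⟨ht, htY⟩
        · rcases MC_adj (x := x) (y := y) hab with h | ⟨h1, h2⟩ | ⟨h1, h2⟩
          · by_cases haY : a ∈ Y
            · have hbY := (hYc a b h).mp haY
              rw [p1 a haY, p1 b hbY]
              exact Or.inl h
            · have hbY : b ∉ Y := fun h' => haY ((hYc a b h).mpr h')
              rw [p2 a haY, p2 b hbY]
              exact Or.inr rfl
          · right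
            rw [h1, h2, hx', hy']
          · right
            rw [h1, h2, hx', hy']
      · rw [e1 j hj]
        exact hcon j hj
    · have hsub : ∀ j, f' j ⊆ f j := by
        intro j
        by_cases hj : j = i0
        · rw [hj, e0]
          exact Set.inter_subset_left
        · rw [e1 j hj]
      exact (hf2 j k hjk).mono (hsub j) (hsub k)
    · by_cases hj : j = i0
      · have hk : k ≠ i0 := fun h => hjk (hj.trans h.symm)
        rw [hj, e0, e1 k hk]
        obtain ⟨u, hu, v, hv, huv⟩ := hf3 i0 k (fun h => hk h.symm)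
        have h1 := hedge k hk v hv u huv
        exact ⟨u, ⟨hu, (hYc u v h1).mpr (hall k hk v hv)⟩, v, hv, h1⟩
      · by_cases hk : k = i0
        · rw [hk, e0, e1 j hj]
          obtain ⟨u, hu, v, hv, huv⟩ := hf3 j i0 hj
          have h1 : H.Adj v u := hedge j hj u hu v huv.symm
          exact ⟨u, hu, v, ⟨hv, (hYc v u h1).mpr (hall j hj u hu)⟩, h1.symm⟩
        · rw [e1 j hj, e1 k hk]
          obtain ⟨u, hu, v, hv, huv⟩ := hf3 j k hjk
          exact ⟨u, hu, v, hv, hedge k hk v hv u huv⟩
  · push Not at hcase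
    have hin : ∀ i, ∀ a ∈ f i, ∀ b ∈ f i, G.Adj a b → H.Adj a b := by
      intro i a ha b hb' hab
      rcases MC_adj (x := x) (y := y) hab with h | ⟨h1, h2⟩ | ⟨h1, h2⟩
      · exact h
      · subst h1 h2
        exact absurd hb' (hcase i ha)
      · subst h1 h2
        exact absurd ha (hcase i hb')
    have hcon : ∀ j, (H.induce (f j)).Connected := fun j =>
      MC_retract (hf1 j) id (fun z hz => hz) (fun z hz => ⟨hz, rfl⟩)
        (fun a ha b hb' hab => Or.inl (hin j a ha b hb' hab))
    have hXc : ∀ a b, H.Adj a b → H.Reachable x a → H.Reachable x b :=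
      fun a b hab h => h.trans hab.reachable
    have hsame : ∀ j, ∀ a ∈ f j, ∀ b ∈ f j, H.Reachable x a → H.Reachable x b := fun j =>
      MC_const (hcon j) (fun z => H.Reachable x z) (fun a _ b _ hab => hXc a b hab)
    -- x and y in different branch sets is impossible
    have hno : ∀ i j, i ≠ j → x ∈ f i → y ∈ f j → False := by
      intro i j hij hx hy
      obtain ⟨k, hki, hkj⟩ : ∃ k : Fin r, k ≠ i ∧ k ≠ j := by
        have h1 : ({i, j} : Finset (Fin r)).card < (Finset.univ : Finset (Fin r)).card := by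
          rw [Finset.card_univ, Fintype.card_fin]
          exact lt_of_le_of_lt (Finset.card_le_two) (by omega)
        obtain ⟨k, _, hk⟩ := Finset.exists_mem_notMem_of_card_lt_card h1
        rw [Finset.mem_insert, Finset.mem_singleton, not_or] at hk
        exact ⟨k, hk.1, hk.2⟩
      have hxk : x ∉ f k := fun h => hdis hki h hx
      have hyk : y ∉ f k := fun h => hdis hkj h hy
      have hedge : ∀ v ∈ f k, ∀ u, G.Adj u v → H.Adj u v := by
        intro v hv u huv
        rcases MC_adj (x := x) (y := y) huv with h | ⟨_, h⟩ | ⟨_, h⟩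
        · exact h
        · exact absurd (h ▸ hv) hyk
        · exact absurd (h ▸ hv) hxk
      obtain ⟨p, hp, q, hq, hpq⟩ := hf3 i k (fun h => hki h.symm)
      obtain ⟨p', hp', q', hq', hpq'⟩ := hf3 j k (fun h => hkj h.symm)
      have h1 : H.Reachable x p := hsame i x hx p hp (SimpleGraph.Reachable.refl _)
      have h2 : H.Reachable x q := hXc p q (hedge q hq p hpq) h1
      have h3 : H.Reachable x q' := hsame k q hq q' hq' h2
      have h4 : H.Reachable x p' := hXc q' p' (hedge q' hq' p' hpq').symm h3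
      exact hb (hsame j p' hp' y hy h4)
    refine ⟨f, hcon, hf2, fun i j hij => ?_⟩
    obtain ⟨u, hu, v, hv, huv⟩ := hf3 i j hij
    rcases MC_adj (x := x) (y := y) huv with h | ⟨h1, h2⟩ | ⟨h1, h2⟩
    · exact ⟨u, hu, v, hv, h⟩
    · subst h1 h2
      exact (hno i j hij hu hv).elim
    · subst h1 h2
      exact (hno j i hij.symm hv hu).elim

end

end Pool.Agent.H64.FR
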