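import Mathlib

/-!
The deletion constant `μ({K_r}, Γ_d)` exactly as in the frozen statement `S08551`.
-/

set_option autoImplicit false
set_option linter.all false

namespace Pool.Agent.H64.FR

/-- the admissible values `μ` in the definition of the deletion constant `μ({K_r}, Γ_d)`
(verbatim the left-hand set of the frozen statement `S08551`) -/
def muSet (r d : ℕ) : Set ℝ :=
  {μ : ℝ | ∀ ε : ℝ, 0 < ε → ∃ N : ℕ, ∀ n : ℕ, N ≤ n → ∀ G : SimpleGraph (Fin n),
      (∀ v, (G.neighborSet v).ncard ≤ d) →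
      ∃ S : Finset (Fin n), (S.card : ℝ) ≤ (μ + ε) * (n : ℝ) ∧
        ¬ ∃ f : Fin r → Set (Fin n),
            (∀ i, Disjoint (f i) (S : Set (Fin n))) ∧
            (∀ i, (G.induce (f i)).Connected) ∧
            (∀ i j, i ≠ j → Disjoint (f i) (f j)) ∧
            (∀ i j, i ≠ j → ∃ u ∈ f i, ∃ v ∈ f j, G.Adj u v)}

end Pool.Agent.H64.FR
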