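import Mathlib

/-!
The coefficient of fragmentability `c_f(Γ_d)` exactly as in the frozen statement `S08551`.
-/

set_option autoImplicit false
set_option linter.all false

namespace Pool.Agent.H64.FR

/-- the admissible values `c` in the definition of the coefficient of fragmentability `c_f(Γ_d)`
(verbatim the right-hand set of the frozen statement `S08551`) -/
def cfSet (d : ℕ) : Set ℝ :=
  {c : ℝ | ∀ ε : ℝ, 0 < ε → ∃ C : ℕ, ∀ n : ℕ, ∀ G : SimpleGraph (Fin n),
      (∀ v, (G.neighborSet v).ncard ≤ d) →
      ∃ S : Finset (Fin n), (S.card : ℝ) ≤ (c + ε) * (n : ℝ) ∧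
        ∀ T : Set (Fin n), Disjoint T (S : Set (Fin n)) →
          (G.induce T).Connected → T.ncard ≤ C}

end Pool.Agent.H64.FR
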