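import Pool.Agent.H64.FR.Defs

/-!
Module RA.  Reachability after deleting a vertex.

(1) a walk from `x` to `y` in `G` never visits `v` (else `x` reaches `v`), so it is a walk in `del G {v}`.  Induct on the walk.
(2) induct on a walk from `x` to `v` (or take a path and its last step before `v`): if the first step `x z` has `z = v`, take
`w = x`; otherwise use the induction hypothesis for `z` and prepend the edge `x z` (both ends `≠ v`).
(3) retraction `φ u = w`, `φ z = z` otherwise: consecutive vertices of a walk are mapped to equal or `del G {u}`-adjacent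
vertices; hence `(del G {u}).Reachable (φ x) (φ y)`.
(4) `cut G v w` reaches from `w` to `v`; apply (2) to the graph `cut G v w` (`x = w`, `w ≠ v`): some `w'` with
`(cut G v w).Adj v w'` and `(del (cut G v w) {v}).Reachable w w'`; `(cut G v w).Adj v w'` gives `G.Adj v w'` and `w' ≠ w`;
and `del (cut G v w) {v} ≤ del G {v}`.
-/

set_option autoImplicit false
set_option linter.all false

namespace Pool.Agent.H64.FR

open Classical

noncomputable section

variable {V : Type*}

theorem reach_del_of_not {G : SimpleGraph V} {v x y : V} (h : G.Reachable x y)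
    (hv : ¬ G.Reachable x v) : (del G {v}).Reachable x y := by
  obtain ⟨p⟩ := h
  induction p with
  | nil => exact SimpleGraph.Reachable.refl _
  | @cons a b c hadj p ih =>
    have hb : ¬ G.Reachable b v := fun h => hv (hadj.reachable.trans h)
    have h1 : (del G {v}).Adj a b := by
      refine ⟨hadj, ?_, ?_⟩
      · intro h2
        have h3 : a = v := h2
        exact hv (h3 ▸ SimpleGraph.Reachable.refl _)
      · intro h2
        have h3 : b = v := h2
        exact hb (h3 ▸ SimpleGraph.Reachable.refl _)
    exact h1.reachable.trans (ih hb)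

theorem reach_del_nb {G : SimpleGraph V} {v x : V} (h : G.Reachable x v) (hne : x ≠ v) :
    ∃ w, G.Adj v w ∧ (del G {v}).Reachable x w := by
  obtain ⟨p⟩ := h
  induction p with
  | nil => exact absurd rfl hne
  | @cons a b c hadj p ih =>
    by_cases hb : b = c
    · subst hb
      exact ⟨a, hadj.symm, SimpleGraph.Reachable.refl _⟩
    · obtain ⟨w, h1, h2⟩ := ih hb
      refine ⟨w, h1, ?_⟩
      have h3 : (del G {c}).Adj a b := ⟨hadj, fun h => hne h, fun h => hb h⟩
      exact h3.reachable.trans h2

theorem reach_leaf {G : SimpleGraph V} {u w x y : V} (hN : ∀ z, G.Adj u z → z = w)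
    (h : G.Reachable x y) (hx : x ≠ u) (hy : y ≠ u) : (del G {u}).Reachable x y := by
  have key : ∀ (a b : V), G.Walk a b → (del G {u}).Reachable (if a = u then w else a) (if b = u then w else b) := by
    intro a b p
    induction p with
    | nil => exact SimpleGraph.Reachable.refl _
    | @cons a b c hadj p ih =>
      refine SimpleGraph.Reachable.trans ?_ ih
      by_cases ha : a = u
      · have hb : b = w := hN b (ha ▸ hadj)
        have hbu : b ≠ u := by rw [← ha]; exact hadj.ne'
        rw [if_pos ha, if_neg hbu, hb]
      · by_cases hb : b = u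
        · have haw : a = w := hN a (hb ▸ hadj.symm)
          rw [if_pos hb, if_neg ha, haw]
        · rw [if_neg ha, if_neg hb]
          have h3 : (del G {u}).Adj a b := ⟨hadj, fun h => ha h, fun h => hb h⟩
          exact h3.reachable
  obtain ⟨p⟩ := h
  have := key x y p
  rwa [if_neg hx, if_neg hy] at this

theorem nonbridge {G : SimpleGraph V} {v w : V} (h : G.Adj v w)
    (hb : (cut G v w).Reachable v w) :
    ∃ w', w' ≠ w ∧ G.Adj v w' ∧ (del G {v}).Reachable w w' := by
  obtain ⟨w', h1, h2⟩ := reach_del_nb hb.symm h.ne'
  refine ⟨w', ?_, h1.1, ?_⟩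
  · rintro rfl
    exact h1.2 (Or.inl ⟨rfl, rfl⟩)
  · refine h2.mono ?_
    intro p q hpq
    exact ⟨hpq.1.1, hpq.2⟩

end

end Pool.Agent.H64.FR
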