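import Pool.Agent.H64.FR.Defs

/-!
Module TR.  Transversals of a partition without singleton classes.

Proof.  Among the subsets `T ⊆ B` hitting every class (`∀ w ∈ B, ∃ t ∈ T, ρ w t`; `B` itself is one) take one of minimal
cardinality.  Two different elements of `T` are never related (else remove one).  Each `t ∈ T` has some `t' ∈ B`, `t' ≠ t`,
`ρ t t'`; `t' ∉ T` by the previous remark.  The map `t ↦ t'` from `T` to `B \ T` is injective (if `t₁' = t₂'` then `ρ t₁ t₂`),
so `|T| ≤ |B| - |T|`.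
-/

set_option autoImplicit false
set_option linter.all false

namespace Pool.Agent.H64.FR

open Classical

noncomputable section

variable {V : Type*}

theorem transversal (B : Finset V) (ρ : V → V → Prop) (hρ : Equivalence ρ)
    (h2 : ∀ w ∈ B, ∃ w' ∈ B, w' ≠ w ∧ ρ w w') :
    ∃ T : Finset V, T ⊆ B ∧ 2 * T.card ≤ B.card ∧ ∀ w ∈ B, ∃ t ∈ T, ρ w t := by
  -- minimal hitting subset
  have hex : ∃ n, ∃ T : Finset V, T ⊆ B ∧ (∀ w ∈ B, ∃ t ∈ T, ρ w t) ∧ T.card = n :=
    ⟨B.card, B, Finset.Subset.refl B, fun w hw => ⟨w, hw, hρ.refl w⟩, rfl⟩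
  obtain ⟨T, hTB, hT, hTn⟩ := Nat.find_spec hex
  have hmin : ∀ T' : Finset V, T' ⊆ B → (∀ w ∈ B, ∃ t ∈ T', ρ w t) → T.card ≤ T'.card := by
    intro T' h1 h2
    rw [hTn]
    exact Nat.find_min' hex ⟨T', h1, h2, rfl⟩
  have hdist : ∀ t ∈ T, ∀ t' ∈ T, ρ t t' → t = t' := by
    intro t ht t' ht' hr
    by_contra hne
    have h1 : T.card ≤ (T.erase t).card := by
      apply hmin (T.erase t) ((Finset.erase_subset t T).trans hTB)
      intro w hw
      obtain ⟨s, hs, hws⟩ := hT w hw
      by_cases hst : s = t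
      · subst hst
        exact ⟨t', Finset.mem_erase.2 ⟨fun h => hne h.symm, ht'⟩, hρ.trans hws hr⟩
      · exact ⟨s, Finset.mem_erase.2 ⟨hst, hs⟩, hws⟩
    have h2 := Finset.card_erase_lt_of_mem ht
    omega
  choose! g hgB hgne hgρ using h2
  have hmaps : ∀ t ∈ T, g t ∈ B \ T := by
    intro t ht
    have htB := hTB ht
    rw [Finset.mem_sdiff]
    refine ⟨hgB t htB, fun h => ?_⟩
    exact hgne t htB (hdist t ht (g t) h (hgρ t htB)).symm
  have hinj : Set.InjOn g (T : Set V) := by
    intro t ht t' ht' he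
    apply hdist t ht t' ht'
    have h1 := hgρ t (hTB ht)
    have h2 := hgρ t' (hTB ht')
    have he' : g t = g t' := he
    rw [he'] at h1
    exact hρ.trans h1 (hρ.symm h2)
  have h3 := Finset.card_le_card_of_injOn g hmaps hinj
  have h4 := Finset.card_sdiff_of_subset hTB
  have h5 := Finset.card_le_card hTB
  exact ⟨T, hTB, by omega, hT⟩

end

end Pool.Agent.H64.FR
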