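import Pool.Agent.H64.FR.Defs
import Pool.Agent.H64.FR.DA
import Pool.Agent.H64.FR.DB
import Pool.Agent.H64.FR.DC
import Pool.Agent.H64.FR.RA
import Pool.Agent.H64.FR.RB
import Pool.Agent.H64.FR.TR

/-!
Module SA.  The potential step remove a leaf `u` with neighbour `w`.

`R' := if u ∈ R ∨ dg G w = 3 then insert w (R.erase u) else R.erase u`.
Potential: by `Ph_del` (`nb G u = {w}`, `dg G u = 1`, `ph 1 = 0`): `Ph (del G {u}) + (ph (dg G w) - ph (dg G w - 1)) = Ph G`, and
the bracket is `2` if `dg G w = 3`, `≥ 0` always.  `|R'| ≤ |R|` if `u ∈ R` (erase, insert) or if nothing is inserted, and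
`|R'| ≤ |R| + 1` if `dg G w = 3`.
Serv: let `dg (del G {u}) x = 4`, so `x ≠ u` and `dg G x ≥ 4`, `= 4` (by `hd`).  Let `y` serve `x` in `G`.
* `y = u`: then `dg G u = 1 ≠ 3`, so `u ∈ R`, `w ∈ R'`; `x` reaches `w`: `G.Reachable x w` (as `G.Adj u w`), and `x, w ≠ u`:
  `reach_leaf`.
* `y ≠ u`: `x` reaches `y` by `reach_leaf`.  If `y ∈ R` then `y ∈ R'`.  If `dg G y = 3`: if `y = w` then `w ∈ R'`; otherwise
  `dg (del G {u}) y = 3` (`dg_del_nonadj`).
-/

set_option autoImplicit false
set_option linter.all false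

namespace Pool.Agent.H64.FR

open Classical

noncomputable section

variable {V : Type*}

variable [Fintype V]


theorem step_leaf {G : SimpleGraph V} {u w : V} (hd : ∀ v, dg G v ≤ 4)
    (hN : ∀ x, G.Adj u x ↔ x = w) {R : Finset V} (hs : Serv G R) :
    ∃ R' : Finset V, Ph (del G {u}) + R'.card ≤ Ph G + R.card ∧ Serv (del G {u}) R' := by
  have hnbu : nb G u = {w} := by
    ext x; rw [mem_nb, hN, Finset.mem_singleton]
  have hdu : dg G u = 1 := by
    unfold dg; rw [hnbu, Finset.card_singleton]
  have huw : G.Adj u w := (hN w).2 rfl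
  have hwu : w ≠ u := huw.ne'
  have hPh := Ph_del hd u
  rw [hnbu, Finset.sum_singleton, hdu] at hPh
  have hph1 : ph 1 = 0 := by simp [ph]
  rw [hph1] at hPh
  have hdeg : ∀ z, dg (del G {u}) z = 4 → z ≠ u ∧ dg G z = 4 := by
    intro z hz
    constructor
    · rintro rfl
      rw [dg_del_self] at hz
      omega
    · have h1 := dg_mono (del_le G {u}) z
      have h2 := hd z
      omega
  -- serving vertices survive as soon as `w` is a token whenever needed
  have main : ∀ R' : Finset V, (∀ y ∈ R, y ≠ u → y ∈ R') → ((u ∈ R ∨ dg G w = 3) → w ∈ R') →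
      Serv (del G {u}) R' := by
    intro R' h1 h2 z hz
    obtain ⟨hzu, hz4⟩ := hdeg z hz
    obtain ⟨y, hzy, hy⟩ := hs z hz4
    by_cases hyu : y = u
    · subst hyu
      have huR : y ∈ R := by
        rcases hy with h | h
        · exact h
        · omega
      exact ⟨w, reach_leaf (fun x hx => (hN x).1 hx) (hzy.trans huw.reachable) hzu hwu,
        Or.inl (h2 (Or.inl huR))⟩
    · refine ⟨y, reach_leaf (fun x hx => (hN x).1 hx) hzy hzu hyu, ?_⟩
      rcases hy with hy | hy
      · exact Or.inl (h1 y hy hyu)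
      · by_cases hyw : y = w
        · subst hyw
          exact Or.inl (h2 (Or.inr hy))
        · refine Or.inr ?_
          rw [dg_del_nonadj, hy]
          · intro h; exact hyw ((hN y).1 h)
          · exact hyu
  by_cases hw3 : dg G w = 3
  · refine ⟨insert w (R.erase u), ?_, main _ ?_ ?_⟩
    · rw [hw3] at hPh
      have h1 : ph 3 - ph (3 - 1) = 2 := by simp [ph]
      rw [h1] at hPh
      have h2 := Finset.card_insert_le w (R.erase u)
      have h3 := Finset.card_erase_le (a := u) (s := R)
      omega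
    · intro y hy hyu
      exact Finset.mem_insert_of_mem (Finset.mem_erase.2 ⟨hyu, hy⟩)
    · intro _; exact Finset.mem_insert_self _ _
  · by_cases huR : u ∈ R
    · refine ⟨insert w (R.erase u), ?_, main _ ?_ ?_⟩
      · have h2 := Finset.card_insert_le w (R.erase u)
        have h3 := Finset.card_erase_add_one huR
        omega
      · intro y hy hyu
        exact Finset.mem_insert_of_mem (Finset.mem_erase.2 ⟨hyu, hy⟩)
      · intro _; exact Finset.mem_insert_self _ _
    · refine ⟨R, by omega, main _ (fun y hy _ => hy) ?_⟩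
      rintro (h | h)
      · exact absurd h huR
      · exact absurd h hw3

end

end Pool.Agent.H64.FR
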