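import Pool.Agent.H64.FR.Defs
import Pool.Agent.H64.FR.DA
import Pool.Agent.H64.FR.DB
import Pool.Agent.H64.FR.DC
import Pool.Agent.H64.FR.RA
import Pool.Agent.H64.FR.RB
import Pool.Agent.H64.FR.TR

/-!
Module SB.  The potential step suppress a vertex `u` of degree 2 with neighbours `a ≠ b`.

`R' := (R.erase u) ∪ (if u ∈ R then {a} else ∅) ∪ (if G.Adj a b ∧ dg G a = 3 then {a} else ∅)
       ∪ (if G.Adj a b ∧ dg G b = 3 then {b} else ∅)`.
Potential: all degrees outside `{u, a, b}` unchanged, `dg G u = 2` and `ph 2 = ph 0 = 0`; if `¬ G.Adj a b` nothing changes and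
`|R'| ≤ |R|`; if `G.Adj a b` the degrees of `a` and `b` drop by one: `ph` drops by `2` for each of them of degree `3` (and never
increases), which pays for the (at most one each) new tokens.
(Write `Ph G = ph (dg G a) + ph (dg G b) + (rest)` with `Finset.sum_erase` or `Fintype.sum_eq_add_sum_...`.)
Serv: let `dg (link G u a b) x = 4`; then `x ≠ u` (`dg_link_self`), `dg G x ≥ 4` (`dg_link_le`), `= 4`.  Let `y` serve `x` in `G`.
* `y = u`: `dg G u = 2 ≠ 3`, so `u ∈ R`, `a ∈ R'`; `G.Reachable x a` through `u`, `reach_link` gives reachability (`a ≠ u`).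
* `y ≠ u`: reachable by `reach_link`.  If `y ∈ R`, `y ∈ R'`.  If `dg G y = 3`: `y ∉ {a, b}`: degree unchanged; `y = a`: if
  `G.Adj a b`, `a ∈ R'`, otherwise the degree is unchanged (`dg_link_left_nadj`); same for `b`.
-/

set_option autoImplicit false
set_option linter.all false

namespace Pool.Agent.H64.FR

open Classical

noncomputable section

variable {V : Type*}

variable [Fintype V]


theorem step_link {G : SimpleGraph V} {u a b : V} (hd : ∀ v, dg G v ≤ 4)
    (hN : ∀ x, G.Adj u x ↔ x = a ∨ x = b) (hab : a ≠ b) {R : Finset V} (hs : Serv G R) :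
    ∃ R' : Finset V, Ph (link G u a b) + R'.card ≤ Ph G + R.card ∧ Serv (link G u a b) R' := by
  have hua : G.Adj u a := (hN a).2 (Or.inl rfl)
  have hub : G.Adj u b := (hN b).2 (Or.inr rfl)
  have hau : a ≠ u := hua.ne'
  have hbu : b ≠ u := hub.ne'
  have hnbu : nb G u = {a, b} := by
    ext x; rw [mem_nb, hN, Finset.mem_insert, Finset.mem_singleton]
  have hdu : dg G u = 2 := by
    unfold dg; rw [hnbu, Finset.card_pair hab]
  have hph2 : ph 2 = 0 := by simp [ph]
  have hph0 : ph 0 = 0 := by simp [ph]
  -- split off `u`, `a`, `b`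
  have hsplit : ∀ H : SimpleGraph V, Ph H = ph (dg H u) + ph (dg H a) + ph (dg H b) +
      ∑ v ∈ ((Finset.univ.erase u).erase a).erase b, ph (dg H v) := by
    intro H
    unfold Ph
    rw [← Finset.add_sum_erase Finset.univ _ (Finset.mem_univ u),
      ← Finset.add_sum_erase (Finset.univ.erase u) _
        (Finset.mem_erase.2 ⟨hau, Finset.mem_univ a⟩),
      ← Finset.add_sum_erase ((Finset.univ.erase u).erase a) _
        (Finset.mem_erase.2 ⟨hab.symm, Finset.mem_erase.2 ⟨hbu, Finset.mem_univ b⟩⟩)]
    ring
  have hrest : ∑ v ∈ ((Finset.univ.erase u).erase a).erase b, ph (dg (link G u a b) v) =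
      ∑ v ∈ ((Finset.univ.erase u).erase a).erase b, ph (dg G v) := by
    apply Finset.sum_congr rfl
    intro v hv
    rw [Finset.mem_erase, Finset.mem_erase, Finset.mem_erase] at hv
    rw [dg_link_other hN hv.2.2.1 hv.2.1 hv.1]
  have h1 := hsplit G
  have h2 := hsplit (link G u a b)
  rw [hrest, dg_link_self hN, hph0] at h2
  rw [hdu, hph2] at h1
  have hstep : ∀ k, k ≤ 4 → ph (k - 1) + (if k = 3 then 1 else 0) ≤ ph k := by
    intro k h4
    have : k = 0 ∨ k = 1 ∨ k = 2 ∨ k = 3 ∨ k = 4 := by omega
    rcases this with rfl | rfl | rfl | rfl | rfl <;> simp [ph]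
  -- Serv
  have main : ∀ R' : Finset V, (∀ y ∈ R, y ≠ u → y ∈ R') → (u ∈ R → a ∈ R') →
      (G.Adj a b → dg G a = 3 → a ∈ R') → (G.Adj a b → dg G b = 3 → b ∈ R') →
      Serv (link G u a b) R' := by
    intro R' g1 g2 g3 g4 z hz
    have hzu : z ≠ u := by
      rintro rfl
      rw [dg_link_self hN] at hz
      omega
    have hz4 : dg G z = 4 := by
      have h3 := dg_link_le hN hab z
      have h4 := hd z
      omega
    obtain ⟨y, hzy, hy⟩ := hs z hz4
    by_cases hyu : y = u
    · subst hyu
      have huR : y ∈ R := by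
        rcases hy with h | h
        · exact h
        · omega
      exact ⟨a, reach_link (fun x hx => (hN x).1 hx) hab (hzy.trans hua.reachable) hzu hau,
        Or.inl (g2 huR)⟩
    · refine ⟨y, reach_link (fun x hx => (hN x).1 hx) hab hzy hzu hyu, ?_⟩
      rcases hy with hy | hy
      · exact Or.inl (g1 y hy hyu)
      · by_cases hya : y = a
        · subst hya
          by_cases hadj : G.Adj y b
          · exact Or.inl (g3 hadj hy)
          · right; rw [dg_link_left_nadj hN hab hadj, hy]
        · by_cases hyb : y = b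
          · subst hyb
            by_cases hadj : G.Adj a y
            · exact Or.inl (g4 hadj hy)
            · right; rw [dg_link_right_nadj hN hab hadj, hy]
          · right; rw [dg_link_other hN hyu hya hyb, hy]
  -- the base token set
  obtain ⟨R0, hR0c, hR01, hR02⟩ : ∃ R0 : Finset V, R0.card ≤ R.card ∧
      (∀ y ∈ R, y ≠ u → y ∈ R0) ∧ (u ∈ R → a ∈ R0) := by
    by_cases huR : u ∈ R
    · refine ⟨insert a (R.erase u), ?_, ?_, ?_⟩
      · have g2 := Finset.card_insert_le a (R.erase u)
        have g3 := Finset.card_erase_add_one huR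
        omega
      · intro y hy hyu
        exact Finset.mem_insert_of_mem (Finset.mem_erase.2 ⟨hyu, hy⟩)
      · intro _; exact Finset.mem_insert_self _ _
    · exact ⟨R, le_rfl, fun y hy _ => hy, fun h => absurd h huR⟩
  by_cases hadj : G.Adj a b
  · have f1 := dg_link_left_adj hN hab hadj
    have f2 := dg_link_right_adj hN hab hadj
    have f3 : dg (link G u a b) a = dg G a - 1 := by omega
    have f4 : dg (link G u a b) b = dg G b - 1 := by omega
    rw [f3, f4] at h2
    have e1 := hstep (dg G a) (hd a)
    have e2 := hstep (dg G b) (hd b)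
    refine ⟨R0 ∪ ((if dg G a = 3 then {a} else ∅) ∪ (if dg G b = 3 then {b} else ∅)), ?_,
      main _ ?_ ?_ ?_ ?_⟩
    · have g1 := Finset.card_union_le R0 ((if dg G a = 3 then {a} else ∅) ∪ (if dg G b = 3 then {b} else ∅))
      have g2 := Finset.card_union_le (if dg G a = 3 then ({a} : Finset V) else ∅) (if dg G b = 3 then {b} else ∅)
      have g3 : (if dg G a = 3 then ({a} : Finset V) else ∅).card = (if dg G a = 3 then 1 else 0) := by
        split_ifs <;> simp
      have g4 : (if dg G b = 3 then ({b} : Finset V) else ∅).card = (if dg G b = 3 then 1 else 0) := by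
        split_ifs <;> simp
      rw [g3, g4] at g2
      omega
    · intro y hy hyu; exact Finset.mem_union_left _ (hR01 y hy hyu)
    · intro h; exact Finset.mem_union_left _ (hR02 h)
    · intro _ h; simp [h]
    · intro _ h; simp [h]
  · rw [dg_link_left_nadj hN hab hadj, dg_link_right_nadj hN hab hadj] at h2
    exact ⟨R0, by omega, main _ hR01 hR02 (fun h => absurd h hadj) (fun h => absurd h hadj)⟩

end

end Pool.Agent.H64.FR
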