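import Pool.Agent.H64.FR.Defs
import Pool.Agent.H64.FR.DA
import Pool.Agent.H64.FR.DB
import Pool.Agent.H64.FR.DC
import Pool.Agent.H64.FR.RA
import Pool.Agent.H64.FR.RB
import Pool.Agent.H64.FR.TR

/-!
Module SC.  The potential step delete an edge `xy` whose ends have degree at least 3.

`R' := R ∪ (if dg G x = 3 then {x} else ∅) ∪ (if dg G y = 3 then {y} else ∅)`.
Potential: degrees of `x`, `y` drop by one, others unchanged; `ph 3 - ph 2 = 2`, `ph 4 - ph 3 = 1`.
Serv: let `dg (cut G x y) z = 4`, so `dg G z = 4` (degrees only drop, `hd`).  Let `t` serve `z` in `G`.  By `reach_cut`: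
* `z` reaches `x` in `cut G x y`: if `dg G x = 3`, `x ∈ R'`; if `dg G x = 4`, `dg (cut G x y) x = 3`.  Same for `y`.
* `z` reaches `t`: if `t ∈ R` fine.  If `dg G t = 3`: `t = x` or `t = y`: token; otherwise the degree is unchanged.
-/

set_option autoImplicit false
set_option linter.all false

namespace Pool.Agent.H64.FR

open Classical

noncomputable section

variable {V : Type*}

variable [Fintype V]


theorem step_cut {G : SimpleGraph V} {x y : V} (hd : ∀ v, dg G v ≤ 4) (hxy : G.Adj x y)
    (hx : 3 ≤ dg G x) (hy : 3 ≤ dg G y) {R : Finset V} (hs : Serv G R) :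
    ∃ R' : Finset V, Ph (cut G x y) + R'.card ≤ Ph G + R.card ∧ Serv (cut G x y) R' := by
  have hne : x ≠ y := hxy.ne
  have hdx := dg_cut_left hxy
  have hdy := dg_cut_right hxy
  have hx4 := hd x
  have hy4 := hd y
  -- potential
  have hsplit : ∀ H : SimpleGraph V, Ph H = ph (dg H x) + ph (dg H y) +
      ∑ v ∈ (Finset.univ.erase x).erase y, ph (dg H v) := by
    intro H
    unfold Ph
    rw [← Finset.add_sum_erase Finset.univ _ (Finset.mem_univ x),
      ← Finset.add_sum_erase (Finset.univ.erase x) _
        (Finset.mem_erase.2 ⟨hne.symm, Finset.mem_univ y⟩)]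
    ring
  have hrest : ∑ v ∈ (Finset.univ.erase x).erase y, ph (dg (cut G x y) v) =
      ∑ v ∈ (Finset.univ.erase x).erase y, ph (dg G v) := by
    apply Finset.sum_congr rfl
    intro v hv
    rw [Finset.mem_erase, Finset.mem_erase] at hv
    rw [dg_cut_other hv.2.1 hv.1]
  have h1 := hsplit G
  have h2 := hsplit (cut G x y)
  rw [hrest] at h2
  have hstep : ∀ k, 3 ≤ k → k ≤ 4 → ph (k - 1) + (if k = 3 then 1 else 0) ≤ ph k := by
    intro k h3 h4
    have : k = 3 ∨ k = 4 := by omega
    rcases this with rfl | rfl <;> simp [ph]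
  have e1 := hstep (dg G x) hx hx4
  have e2 := hstep (dg G y) hy hy4
  have f1 : dg (cut G x y) x = dg G x - 1 := by omega
  have f2 : dg (cut G x y) y = dg G y - 1 := by omega
  rw [f1, f2] at h2
  refine ⟨R ∪ ((if dg G x = 3 then {x} else ∅) ∪ (if dg G y = 3 then {y} else ∅)), ?_, ?_⟩
  · have g1 := Finset.card_union_le R ((if dg G x = 3 then {x} else ∅) ∪ (if dg G y = 3 then {y} else ∅))
    have g2 := Finset.card_union_le (if dg G x = 3 then ({x} : Finset V) else ∅) (if dg G y = 3 then {y} else ∅)
    have g3 : (if dg G x = 3 then ({x} : Finset V) else ∅).card = (if dg G x = 3 then 1 else 0) := by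
      split_ifs <;> simp
    have g4 : (if dg G y = 3 then ({y} : Finset V) else ∅).card = (if dg G y = 3 then 1 else 0) := by
      split_ifs <;> simp
    rw [g3, g4] at g2
    omega
  · intro z hz
    have hz4 : dg G z = 4 := by
      have h3 := dg_mono (cut_le G x y) z
      have h4 := hd z
      omega
    obtain ⟨t, hzt, ht⟩ := hs z hz4
    have servx : (cut G x y).Reachable z x → ∃ s, (cut G x y).Reachable z s ∧
        (s ∈ R ∪ ((if dg G x = 3 then {x} else ∅) ∪ (if dg G y = 3 then {y} else ∅)) ∨
          dg (cut G x y) s = 3) := by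
      intro h
      refine ⟨x, h, ?_⟩
      by_cases h3 : dg G x = 3
      · left; simp [h3]
      · right; omega
    have servy : (cut G x y).Reachable z y → ∃ s, (cut G x y).Reachable z s ∧
        (s ∈ R ∪ ((if dg G x = 3 then {x} else ∅) ∪ (if dg G y = 3 then {y} else ∅)) ∨
          dg (cut G x y) s = 3) := by
      intro h
      refine ⟨y, h, ?_⟩
      by_cases h3 : dg G y = 3
      · left; simp [h3]
      · right; omega
    rcases reach_cut (x := x) (y := y) hzt with h | h | h
    · by_cases htx : t = x
      · subst htx; exact servx h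
      · by_cases hty : t = y
        · subst hty; exact servy h
        · refine ⟨t, h, ?_⟩
          rcases ht with ht | ht
          · left; exact Finset.mem_union_left _ ht
          · right; rw [dg_cut_other htx hty, ht]
    · exact servx h
    · exact servy h

end

end Pool.Agent.H64.FR
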