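import Pool.Agent.H64.FR.Defs
import Pool.Agent.H64.FR.DA
import Pool.Agent.H64.FR.DB
import Pool.Agent.H64.FR.DC
import Pool.Agent.H64.FR.RA
import Pool.Agent.H64.FR.RB
import Pool.Agent.H64.FR.TR

/-!
Module SD.  The potential step delete a vertex `v` when adjacent vertices always have equal degrees.

First: `G.Reachable x y → dg G x = dg G y` (induct on the walk).  `dg G v` is `3` or `4`.
(a) `dg G v = 3`: `R' = R`.  `Ph_del`: `ph 3 + 3 * (ph 3 - ph 2) = 8`.  Serv: if `dg (del G {v}) z = 4` then `dg G z ≥ 4`, so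
  `dg G z = 4` (by `h34`); let `y` serve `z`.  `z` does not reach `v` (degree `3`), so `reach_del_of_not` keeps reachability.
  If `y ∈ R` fine; `dg G y = 3` is impossible (`= dg G z = 4`).
(b) `dg G v = 4`: `Serv` at `v` gives `y₀` reachable from `v`, in `R` (degree `3` is impossible).  `R' = R.erase y₀`,
  `|R'| + 1 = |R|`.  `Ph_del`: `ph 4 + 4 * (ph 4 - ph 3) = 7`.  Serv: `dg (del G {v}) z = 4`, so `z ≠ v`, `dg G z = 4`.  If `z`
  does not reach `v`: let `y` serve `z` in `G`: `y ∈ R` (as before), `y ≠ y₀` (else `z` reaches `v`), reachable by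
  `reach_del_of_not`.  If `z` reaches `v`: `reach_del_nb` gives `w` with `G.Adj v w` reachable from `z` in `del G {v}`; `dg G w = 4`
  and `dg (del G {v}) w = 3` (`dg_del_adj`).
-/

set_option autoImplicit false
set_option linter.all false

namespace Pool.Agent.H64.FR

open Classical

noncomputable section

variable {V : Type*}

variable [Fintype V]


theorem step_mono {G : SimpleGraph V} {v : V} (hv : 0 < dg G v)
    (h34 : ∀ x, dg G x = 0 ∨ dg G x = 3 ∨ dg G x = 4)
    (hmono : ∀ x y, G.Adj x y → dg G x = dg G y) {R : Finset V} (hs : Serv G R) :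
    ∃ R' : Finset V, Ph (del G {v}) + R'.card + 8 ≤ Ph G + R.card ∧ Serv (del G {v}) R' := by

  have hd : ∀ x, dg G x ≤ 4 := fun x => by rcases h34 x with h | h | h <;> omega
  have hreach : ∀ x y, G.Reachable x y → dg G x = dg G y := by
    intro x y h
    obtain ⟨p⟩ := h
    induction p with
    | nil => rfl
    | cons hadj _ ih => exact (hmono _ _ hadj).trans ih
  have hnb : ∀ w ∈ nb G v, dg G w = dg G v := fun w hw => (hmono v w (mem_nb.1 hw)).symm
  have hPh := Ph_del hd v
  have hdeg : ∀ z, dg (del G {v}) z = 4 → z ≠ v ∧ dg G z = 4 := by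
    intro z hz
    constructor
    · rintro rfl
      rw [dg_del_self] at hz
      omega
    · have h1 := dg_mono (del_le G {v}) z
      have h2 := hd z
      omega
  rcases h34 v with h0 | h3 | h4
  · omega
  · -- degree 3
    have hsum : ∑ w ∈ nb G v, (ph (dg G w) - ph (dg G w - 1)) = 6 := by
      rw [Finset.sum_congr rfl (g := fun _ => 2)]
      · rw [Finset.sum_const, smul_eq_mul]
        have : (nb G v).card = 3 := h3
        rw [this]
      · intro w hw
        rw [hnb w hw, h3]; simp [ph]
    rw [hsum, h3] at hPh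
    have hph3 : ph 3 = 2 := by simp [ph]
    rw [hph3] at hPh
    refine ⟨R, by omega, ?_⟩
    intro z hz
    obtain ⟨hzv, hz4⟩ := hdeg z hz
    obtain ⟨y, hzy, hy⟩ := hs z hz4
    have hnr : ¬ G.Reachable z v := by
      intro h
      have := hreach z v h
      omega
    refine ⟨y, reach_del_of_not hzy hnr, ?_⟩
    rcases hy with hy | hy
    · exact Or.inl hy
    · have := hreach z y hzy
      omega
  · -- degree 4
    have hsum : ∑ w ∈ nb G v, (ph (dg G w) - ph (dg G w - 1)) = 4 := by
      rw [Finset.sum_congr rfl (g := fun _ => 1)]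
      · rw [Finset.sum_const, smul_eq_mul]
        have : (nb G v).card = 4 := h4
        rw [this]
      · intro w hw
        rw [hnb w hw, h4]; simp [ph]
    rw [hsum, h4] at hPh
    have hph4 : ph 4 = 3 := by simp [ph]
    rw [hph4] at hPh
    obtain ⟨y0, hvy0, hy0⟩ := hs v h4
    have hy0R : y0 ∈ R := by
      rcases hy0 with h | h
      · exact h
      · have := hreach v y0 hvy0
        omega
    have hcard := Finset.card_erase_add_one hy0R
    refine ⟨R.erase y0, by omega, ?_⟩
    intro z hz
    obtain ⟨hzv, hz4⟩ := hdeg z hz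
    by_cases hzr : G.Reachable z v
    · obtain ⟨w, hvw, hzw⟩ := reach_del_nb hzr hzv
      refine ⟨w, hzw, Or.inr ?_⟩
      have h1 := dg_del_adj hvw
      have h2 := hmono v w hvw
      omega
    · obtain ⟨y, hzy, hy⟩ := hs z hz4
      refine ⟨y, reach_del_of_not hzy hzr, Or.inl ?_⟩
      rcases hy with hy | hy
      · rw [Finset.mem_erase]
        refine ⟨?_, hy⟩
        rintro rfl
        exact hzr (hzy.trans hvy0.symm)
      · have := hreach z y hzy
        omega

end

end Pool.Agent.H64.FR
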