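import Pool.Agent.H64.FR.Defs
import Pool.Agent.H64.FR.DA
import Pool.Agent.H64.FR.DB
import Pool.Agent.H64.FR.DC
import Pool.Agent.H64.FR.RA
import Pool.Agent.H64.FR.RB
import Pool.Agent.H64.FR.TR

/-!
Module SE.  The potential step delete a vertex `v` of degree 4 with a neighbour `u` of degree 3 in a bridgeless graph.

All neighbours of `v` have degree `3` or `4` (positive degree, `h34`).  `H := del G {v}`.
`B := (nb G v).filter (fun w => dg G w = 3 ∧ ∀ w', G.Adj v w' → H.Reachable w w' → dg G w' = 3)`,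
`ρ := H.Reachable` (an equivalence).  For `w ∈ B`: `nonbridge` (with `hb`) gives `w' ≠ w`, `G.Adj v w'`, `H.Reachable w w'`; then
`w' ∈ B` (its degree is `3` by the definition of `B`, and its reachable neighbours are those of `w`).  `transversal` gives
`T ⊆ B`, `2 |T| ≤ |B| ≤ j := #((nb G v).filter (dg G · = 3))`.  `R' := R ∪ T`.
Potential (`Ph_del`): `ph 4 = 3`; `∑ w ∈ nb G v, (ph (dg G w) - ph (dg G w - 1)) = 2 j + (4 - j) = 4 + j` (degree 3: `2 - 0`, degree 4:
`3 - 2`).  `j ≥ 1` because of `u`.  `|R'| ≤ |R| + |T|` and `2|T| ≤ j`, `j ≥ 1` give `7 + j ≥ 8 + |T|`.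
Serv: `dg H z = 4`, so `z ≠ v` and `dg G z = 4`.  If `z` does not reach `v` in `G`: let `y` serve `z`; reachable in `H` by
`reach_del_of_not`; `y ≠ v` and `y` is not adjacent to `v`, so its degree is unchanged.  If `z` reaches `v`: `reach_del_nb` gives
`w` adjacent to `v`, `H.Reachable z w`.  If some neighbour `w'` of `v` with `H.Reachable w w'` has degree `4` then `dg H w' = 3`:
it serves `z`.  Otherwise `w ∈ B` and some `t ∈ T` has `H.Reachable w t`: `t` serves `z`.
-/

set_option autoImplicit false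
set_option linter.all false

namespace Pool.Agent.H64.FR

open Classical

noncomputable section

variable {V : Type*}

variable [Fintype V]


theorem step_mixed {G : SimpleGraph V} {v u : V} (hvu : G.Adj v u) (hv : dg G v = 4)
    (hu : dg G u = 3) (h34 : ∀ x, dg G x = 0 ∨ dg G x = 3 ∨ dg G x = 4)
    (hb : ∀ x y, G.Adj x y → (cut G x y).Reachable x y) {R : Finset V} (hs : Serv G R) :
    ∃ R' : Finset V, Ph (del G {v}) + R'.card + 8 ≤ Ph G + R.card ∧ Serv (del G {v}) R' := by
  have hd : ∀ x, dg G x ≤ 4 := fun x => by rcases h34 x with h | h | h <;> omega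
  have hpos : ∀ w, G.Adj v w → dg G w = 3 ∨ dg G w = 4 := by
    intro w hw
    have := dg_pos_iff.2 ⟨v, hw.symm⟩
    rcases h34 w with h | h | h
    · omega
    · exact Or.inl h
    · exact Or.inr h
  obtain ⟨B, hB⟩ : ∃ B : Finset V, B = (nb G v).filter (fun w => dg G w = 3 ∧
      ∀ w', G.Adj v w' → (del G {v}).Reachable w w' → dg G w' = 3) := ⟨_, rfl⟩
  have memB : ∀ w, w ∈ B ↔ G.Adj v w ∧ dg G w = 3 ∧
      ∀ w', G.Adj v w' → (del G {v}).Reachable w w' → dg G w' = 3 := by
    intro w; rw [hB, Finset.mem_filter, mem_nb]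
  obtain ⟨T, hTB, hTc, hTh⟩ := transversal B (del G {v}).Reachable
    (del G {v}).reachable_is_equivalence (by
      intro w hw
      obtain ⟨h1, h2, h3⟩ := (memB w).1 hw
      obtain ⟨w', hne, hadj, hr⟩ := nonbridge h1 (hb v w h1)
      refine ⟨w', (memB w').2 ⟨hadj, h3 w' hadj hr, fun w'' ha hr' => h3 w'' ha (hr.trans hr')⟩,
        hne, hr⟩)
  -- the number of neighbours of degree 3
  have hj : B.card ≤ ((nb G v).filter (fun w => dg G w = 3)).card := by
    apply Finset.card_le_card
    intro w hw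
    obtain ⟨h1, h2, h3⟩ := (memB w).1 hw
    rw [Finset.mem_filter, mem_nb]
    exact ⟨h1, h2⟩
  have hj1 : 1 ≤ ((nb G v).filter (fun w => dg G w = 3)).card := by
    rw [Nat.one_le_iff_ne_zero, ← Nat.pos_iff_ne_zero, Finset.card_pos]
    exact ⟨u, by rw [Finset.mem_filter, mem_nb]; exact ⟨hvu, hu⟩⟩
  have hsum : ∑ w ∈ nb G v, (ph (dg G w) - ph (dg G w - 1)) =
      4 + ((nb G v).filter (fun w => dg G w = 3)).card := by
    have h1 : ∀ w ∈ nb G v, (ph (dg G w) - ph (dg G w - 1)) =
        1 + (if dg G w = 3 then 1 else 0) := by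
      intro w hw
      rcases hpos w (mem_nb.1 hw) with h | h
      · rw [h]; simp [ph]
      · rw [h]; simp [ph]
    rw [Finset.sum_congr rfl h1, Finset.sum_add_distrib, Finset.card_filter]
    congr 1
    rw [Finset.sum_const, smul_eq_mul, mul_one]
    exact hv
  have hPh := Ph_del hd v
  rw [hsum, hv] at hPh
  have hph4 : ph 4 = 3 := by simp [ph]
  rw [hph4] at hPh
  refine ⟨R ∪ T, ?_, ?_⟩
  · have := Finset.card_union_le R T
    omega
  · intro z hz
    have hzv : z ≠ v := by
      rintro rfl
      rw [dg_del_self] at hz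
      omega
    have hz4 : dg G z = 4 := by
      have h1 := dg_mono (del_le G {v}) z
      have h2 := hd z
      omega
    by_cases hzr : G.Reachable z v
    · obtain ⟨w, hvw, hzw⟩ := reach_del_nb hzr hzv
      by_cases hex : ∃ w', G.Adj v w' ∧ (del G {v}).Reachable w w' ∧ dg G w' = 4
      · obtain ⟨w', h1, h2, h3⟩ := hex
        refine ⟨w', hzw.trans h2, Or.inr ?_⟩
        have := dg_del_adj h1
        omega
      · push Not at hex
        have hall : ∀ w', G.Adj v w' → (del G {v}).Reachable w w' → dg G w' = 3 := by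
          intro w' h1 h2
          rcases hpos w' h1 with h | h
          · exact h
          · exact absurd h (hex w' h1 h2)
        have hwB : w ∈ B := (memB w).2 ⟨hvw, hall w hvw (SimpleGraph.Reachable.refl w), hall⟩
        obtain ⟨t, ht, hwt⟩ := hTh w hwB
        exact ⟨t, hzw.trans hwt, Or.inl (Finset.mem_union_right _ ht)⟩
    · obtain ⟨y, hzy, hy⟩ := hs z hz4
      refine ⟨y, reach_del_of_not hzy hzr, ?_⟩
      rcases hy with hy | hy
      · exact Or.inl (Finset.mem_union_left _ hy)
      · refine Or.inr ?_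
        rw [dg_del_nonadj, hy]
        · intro h; exact hzr (hzy.trans h.symm.reachable)
        · rintro rfl; exact hzr hzy

end

end Pool.Agent.H64.FR
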