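import Pool.Agent.H64.FR.BA
import Pool.Agent.H64.FR.BB
import Pool.Agent.H64.FR.BC
import Pool.Agent.H64.FR.BE

/-!
Module TG.  The reductions and the property `BS`, after the deletion of a vertex set `S`.
-/

set_option autoImplicit false
set_option linter.all false

namespace Pool.Agent.H64.FR

open Classical

noncomputable section

variable {V : Type*}

theorem bt_leaf {k : ℕ} (hk : 2 ≤ k) {G : SimpleGraph V} {u w : V} (hN : ∀ x, G.Adj u x → x = w)
    (S : Set V) (h : BS k (del (del G {u}) S)) : BS k (del G S) := by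
  refine bs_leaf hk (u := u) (w := w) (fun x hx => hN x hx.1) (h.mono ?_)
  intro p q hpq
  exact ⟨⟨hpq.1.1, hpq.2.1, hpq.2.2⟩, hpq.1.2.1, hpq.1.2.2⟩

theorem bt_link {k : ℕ} (hk : 3 ≤ k) {G : SimpleGraph V} {u a b : V} (hab : a ≠ b) (hau : a ≠ u)
    (hbu : b ≠ u) (hN : ∀ x, G.Adj u x → x = a ∨ x = b) (S : Set V)
    (h : BS k (del (link G u a b) S)) : BS k (del G S) := by
  by_cases ha : a ∈ S
  · refine bs_leaf (by omega) (u := u) (w := b) (fun x hx => ?_) (h.mono ?_)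
    · rcases hN x hx.1 with h2 | h2
      · exact absurd (h2 ▸ ha) hx.2.2
      · exact h2
    · intro p q hpq
      exact ⟨Or.inl ⟨hpq.1.1, hpq.2.1, hpq.2.2⟩, hpq.1.2.1, hpq.1.2.2⟩
  by_cases hb : b ∈ S
  · refine bs_leaf (by omega) (u := u) (w := a) (fun x hx => ?_) (h.mono ?_)
    · rcases hN x hx.1 with h2 | h2
      · exact h2
      · exact absurd (h2 ▸ hb) hx.2.2
    · intro p q hpq
      exact ⟨Or.inl ⟨hpq.1.1, hpq.2.1, hpq.2.2⟩, hpq.1.2.1, hpq.1.2.2⟩
  · refine bs_link hk hab hau hbu (fun x hx => hN x hx.1) (h.mono ?_)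
    intro p q hpq
    rcases hpq with ⟨h2, h3, h4⟩ | ⟨h2, h3⟩
    · exact ⟨Or.inl ⟨h2.1, h3, h4⟩, h2.2.1, h2.2.2⟩
    · refine ⟨Or.inr ⟨h2, h3⟩, ?_, ?_⟩
      · rcases h3 with h3 | h3
        · rw [h3.1]; exact ha
        · rw [h3.1]; exact hb
      · rcases h3 with h3 | h3
        · rw [h3.2]; exact hb
        · rw [h3.2]; exact ha

theorem bt_cut {k : ℕ} (hk : 2 ≤ k) {G : SimpleGraph V} {x y : V}
    (hb : ¬ (cut G x y).Reachable x y) (S : Set V) (h : BS k (del (cut G x y) S)) :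
    BS k (del G S) := by
  refine bs_cut hk (x := x) (y := y) ?_ (h.mono ?_)
  · intro h2
    apply hb
    refine h2.mono ?_
    intro p q hpq
    exact ⟨hpq.1.1, hpq.2⟩
  · intro p q hpq
    exact ⟨⟨hpq.1.1, hpq.2⟩, hpq.1.2.1, hpq.1.2.2⟩

theorem bt_vertex {k : ℕ} {G : SimpleGraph V} {v : V} {S : Finset V}
    (h : BS k (del (del G {v}) (S : Set V))) : BS k (del G ((insert v S : Finset V) : Set V)) := by
  refine h.mono ?_
  intro p q hpq
  obtain ⟨h2, h3, h4⟩ := hpq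
  simp only [Finset.coe_insert, Set.mem_insert_iff, Finset.mem_coe, not_or] at h3 h4
  exact ⟨⟨h2, h3.1, h4.1⟩, h3.2, h4.2⟩

theorem bt_comp {k : ℕ} {G : SimpleGraph V} {C : Finset V} {x : V} {S : Finset V}
    (hcard : C.card ≤ k) (hC : ∀ x ∈ C, ∀ y, G.Adj x y → y ∈ C)
    (h : BS k (del (del G (C : Set V)) (S : Set V))) :
    BS k (del G ((insert x S : Finset V) : Set V)) := by
  refine bs_closed (C := C) hcard (fun x hx y hxy => hC x hx y hxy.1) (h.mono ?_)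
  intro p q hpq
  obtain ⟨⟨h2, h3, h4⟩, h5, h6⟩ := hpq
  simp only [Finset.coe_insert, Set.mem_insert_iff, Finset.mem_coe, not_or] at h3 h4
  exact ⟨⟨h2, h5, h6⟩, h3.2, h4.2⟩

end

end Pool.Agent.H64.FR
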