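import Pool.Agent.H64.FR.TF
import Pool.Agent.H64.FR.SA
import Pool.Agent.H64.FR.SB
import Pool.Agent.H64.FR.SC
import Pool.Agent.H64.FR.SD
import Pool.Agent.H64.FR.SE
import Pool.Agent.H64.FR.TG

/-!
The theorem for maximum degree 4: `8 |S| ≤ 3 n_4 + 2 n_3 + #tokens`, `G - S` has no `K_4`-minor and has balanced
separators of size 3.
-/

set_option autoImplicit false
set_option linter.all false

namespace Pool.Agent.H64.FR

open Classical

noncomputable section

variable {V : Type*} [Fintype V]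

theorem exists_leaf {G : SimpleGraph V} {u : V} (h : dg G u = 1) :
    ∃ w, ∀ x, G.Adj u x ↔ x = w := by
  obtain ⟨w, hw⟩ := Finset.card_eq_one.1 h
  refine ⟨w, fun x => ?_⟩
  rw [← mem_nb, hw, Finset.mem_singleton]

theorem exists_two {G : SimpleGraph V} {u : V} (h : dg G u = 2) :
    ∃ a b, a ≠ b ∧ ∀ x, G.Adj u x ↔ x = a ∨ x = b := by
  obtain ⟨a, b, hab, hw⟩ := Finset.card_eq_two.1 h
  refine ⟨a, b, hab, fun x => ?_⟩
  rw [← mem_nb, hw, Finset.mem_insert, Finset.mem_singleton]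

theorem t4_aux (n : ℕ) : ∀ (G : SimpleGraph V) (R : Finset V), ec G ≤ n → (∀ v, dg G v ≤ 4) →
    Serv G R → ∃ S : Finset V, 8 * S.card ≤ Ph G + R.card ∧ ¬ Mi 4 (del G (S : Set V)) ∧
      BS 3 (del G (S : Set V)) := by
  induction n using Nat.strong_induction_on with
  | _ n ih =>
  intro G R hn hd hs
  have key : ∀ G' : SimpleGraph V, ec G' < ec G → ∀ R', (∀ v, dg G' v ≤ 4) → Serv G' R' →
      ∃ S : Finset V, 8 * S.card ≤ Ph G' + R'.card ∧ ¬ Mi 4 (del G' (S : Set V)) ∧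
      BS 3 (del G' (S : Set V)) :=
    fun G' h R' h1 h2 => ih (ec G') (lt_of_lt_of_le h hn) G' R' le_rfl h1 h2
  by_cases h0 : ∀ v, dg G v = 0
  · have hbot : ∀ u v, ¬ (del G ((∅ : Finset V) : Set V)).Adj u v := by
      intro u v huv
      have := dg_pos_iff.2 ⟨v, huv.1⟩
      rw [h0 u] at this
      exact lt_irrefl _ this
    exact ⟨∅, by simp, no_mi_bot (by norm_num) hbot, bs_bot (by norm_num) hbot⟩
  push Not at h0
  obtain ⟨v0, hv0⟩ := h0
  by_cases h1 : ∃ u, dg G u = 1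
  · obtain ⟨u, hu⟩ := h1
    obtain ⟨w, hN⟩ := exists_leaf hu
    obtain ⟨R', hR', hs'⟩ := step_leaf hd hN hs
    obtain ⟨S, hS, hM, hB⟩ := key (del G {u}) (ec_del_lt (by omega)) R'
      (fun v => (dg_mono (del_le G {u}) v).trans (hd v)) hs'
    refine ⟨S, hS.trans hR', fun h => hM ?_, bt_leaf (by norm_num) (fun x hx => (hN x).1 hx) _ hB⟩
    exact tr_leaf (by norm_num) (fun x hx => (hN x).1 hx) _ h
  by_cases h2 : ∃ u, dg G u = 2
  · obtain ⟨u, hu⟩ := h2
    obtain ⟨a, b, hab, hN⟩ := exists_two hu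
    obtain ⟨R', hR', hs'⟩ := step_link hd hN hab hs
    obtain ⟨S, hS, hM, hB⟩ := key (link G u a b) (ec_link_lt hN hab) R'
      (fun v => (dg_link_le hN hab v).trans (hd v)) hs'
    have hau : a ≠ u := ((hN a).2 (Or.inl rfl)).ne'
    have hbu : b ≠ u := ((hN b).2 (Or.inr rfl)).ne'
    refine ⟨S, hS.trans hR', fun h => hM ?_,
      bt_link (by norm_num) hab hau hbu (fun x hx => (hN x).1 hx) _ hB⟩
    exact tr_link (by norm_num) hab hau hbu (fun x hx => (hN x).1 hx) _ h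
  push Not at h1 h2
  have h34 : ∀ x, dg G x = 0 ∨ dg G x = 3 ∨ dg G x = 4 := by
    intro x
    have := hd x; have := h1 x; have := h2 x
    omega
  by_cases hbr : ∃ x y, G.Adj x y ∧ ¬ (cut G x y).Reachable x y
  · obtain ⟨x, y, hxy, hnr⟩ := hbr
    have hx : 3 ≤ dg G x := by
      have := dg_pos_iff.2 ⟨y, hxy⟩
      rcases h34 x with h | h | h <;> omega
    have hy : 3 ≤ dg G y := by
      have := dg_pos_iff.2 ⟨x, hxy.symm⟩
      rcases h34 y with h | h | h <;> omega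
    obtain ⟨R', hR', hs'⟩ := step_cut hd hxy hx hy hs
    obtain ⟨S, hS, hM, hB⟩ := key (cut G x y) (ec_cut_lt hxy) R'
      (fun v => (dg_mono (cut_le G x y) v).trans (hd v)) hs'
    refine ⟨S, hS.trans hR', fun h => hM ?_, bt_cut (by norm_num) hnr _ hB⟩
    exact tr_cut (by norm_num) hnr _ h
  push Not at hbr
  have fin : ∀ v, 0 < dg G v → (∃ R' : Finset V, Ph (del G {v}) + R'.card + 8 ≤ Ph G + R.card ∧
      Serv (del G {v}) R') → ∃ S : Finset V, 8 * S.card ≤ Ph G + R.card ∧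
      ¬ Mi 4 (del G (S : Set V)) ∧ BS 3 (del G (S : Set V)) := by
    rintro v hv ⟨R', hR', hs'⟩
    obtain ⟨S, hS, hM, hB⟩ := key (del G {v}) (ec_del_lt hv) R'
      (fun w => (dg_mono (del_le G {v}) w).trans (hd w)) hs'
    refine ⟨insert v S, ?_, tr_vertex hM, bt_vertex hB⟩
    have := Finset.card_insert_le v S
    omega
  by_cases hm : ∃ v u, G.Adj v u ∧ dg G v = 4 ∧ dg G u = 3
  · obtain ⟨v, u, hvu, hv, hu⟩ := hm
    exact fin v (by omega) (step_mixed hvu hv hu h34 hbr hs)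
  · push Not at hm
    refine fin v0 (Nat.pos_of_ne_zero hv0) (step_mono (Nat.pos_of_ne_zero hv0) h34 ?_ hs)
    intro x y hxy
    have hx := dg_pos_iff.2 ⟨y, hxy⟩
    have hy := dg_pos_iff.2 ⟨x, hxy.symm⟩
    rcases h34 x with h | h | h
    · omega
    · rcases h34 y with h' | h' | h'
      · omega
      · omega
      · exact absurd h (hm y x hxy.symm h')
    · rcases h34 y with h' | h' | h'
      · omega
      · exact absurd h' (hm x y hxy h)
      · omega

theorem t4 {G : SimpleGraph V} {R : Finset V} (hd : ∀ v, dg G v ≤ 4) (hs : Serv G R) :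
    ∃ S : Finset V, 8 * S.card ≤ Ph G + R.card ∧ ¬ Mi 4 (del G (S : Set V)) ∧
      BS 3 (del G (S : Set V)) :=
  t4_aux (ec G) G R le_rfl hd hs

end

end Pool.Agent.H64.FR
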