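import Pool.Agent.H64.FR.MA
import Pool.Agent.H64.FR.MB
import Pool.Agent.H64.FR.MC

/-!
Module TF.  The reductions commute with the deletion of a vertex set `S`.
-/

set_option autoImplicit false
set_option linter.all false

namespace Pool.Agent.H64.FR

open Classical

noncomputable section

variable {V : Type*}

theorem tr_leaf {r : ℕ} (hr : 3 ≤ r) {G : SimpleGraph V} {u w : V} (hN : ∀ x, G.Adj u x → x = w)
    (S : Set V) (h : Mi r (del G S)) : Mi r (del (del G {u}) S) := by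
  have h1 : Mi r (del (del G S) {u}) := mi_leaf hr (w := w) (fun x hx => hN x hx.1) h
  refine h1.mono ?_
  intro p q hpq
  exact ⟨⟨hpq.1.1, hpq.2.1, hpq.2.2⟩, hpq.1.2.1, hpq.1.2.2⟩

theorem tr_link {r : ℕ} (hr : 4 ≤ r) {G : SimpleGraph V} {u a b : V} (hab : a ≠ b) (hau : a ≠ u)
    (hbu : b ≠ u) (hN : ∀ x, G.Adj u x → x = a ∨ x = b) (S : Set V) (h : Mi r (del G S)) :
    Mi r (del (link G u a b) S) := by
  by_cases ha : a ∈ S
  · have h1 : Mi r (del (del G S) {u}) := by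
      refine mi_leaf (by omega) (w := b) (fun x hx => ?_) h
      rcases hN x hx.1 with h2 | h2
      · exact absurd (h2 ▸ ha) hx.2.2
      · exact h2
    refine h1.mono ?_
    intro p q hpq
    exact ⟨Or.inl ⟨hpq.1.1, hpq.2.1, hpq.2.2⟩, hpq.1.2.1, hpq.1.2.2⟩
  by_cases hb : b ∈ S
  · have h1 : Mi r (del (del G S) {u}) := by
      refine mi_leaf (by omega) (w := a) (fun x hx => ?_) h
      rcases hN x hx.1 with h2 | h2
      · exact h2
      · exact absurd (h2 ▸ hb) hx.2.2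
    refine h1.mono ?_
    intro p q hpq
    exact ⟨Or.inl ⟨hpq.1.1, hpq.2.1, hpq.2.2⟩, hpq.1.2.1, hpq.1.2.2⟩
  · have h1 : Mi r (link (del G S) u a b) :=
      mi_link hr hab hau hbu (fun x hx => hN x hx.1) h
    refine h1.mono ?_
    intro p q hpq
    rcases hpq with ⟨h2, h3, h4⟩ | ⟨h2, h3⟩
    · exact ⟨Or.inl ⟨h2.1, h3, h4⟩, h2.2.1, h2.2.2⟩
    · refine ⟨Or.inr ⟨h2, h3⟩, ?_, ?_⟩
      · rcases h3 with h3 | h3
        · rw [h3.1]; exact ha
        · rw [h3.1]; exact hb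
      · rcases h3 with h3 | h3
        · rw [h3.2]; exact hb
        · rw [h3.2]; exact ha

theorem tr_cut {r : ℕ} (hr : 3 ≤ r) {G : SimpleGraph V} {x y : V}
    (hb : ¬ (cut G x y).Reachable x y) (S : Set V) (h : Mi r (del G S)) :
    Mi r (del (cut G x y) S) := by
  have h1 : Mi r (cut (del G S) x y) := by
    refine mi_cut hr ?_ h
    intro h2
    apply hb
    refine h2.mono ?_
    intro p q hpq
    exact ⟨hpq.1.1, hpq.2⟩
  refine h1.mono ?_
  intro p q hpq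
  exact ⟨⟨hpq.1.1, hpq.2⟩, hpq.1.2.1, hpq.1.2.2⟩

theorem tr_vertex {r : ℕ} {G : SimpleGraph V} {v : V} {S : Finset V}
    (h : ¬ Mi r (del (del G {v}) (S : Set V))) :
    ¬ Mi r (del G ((insert v S : Finset V) : Set V)) := by
  intro h1
  apply h
  refine h1.mono ?_
  intro p q hpq
  obtain ⟨h2, h3, h4⟩ := hpq
  simp only [Finset.coe_insert, Set.mem_insert_iff, Finset.mem_coe, not_or] at h3 h4
  exact ⟨⟨h2, h3.1, h4.1⟩, h3.2, h4.2⟩

theorem no_mi_bot {r : ℕ} (hr : 2 ≤ r) {G : SimpleGraph V} (h : ∀ u v, ¬ G.Adj u v) : ¬ Mi r G := by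
  rintro ⟨f, h1, h2, h3⟩
  obtain ⟨u, hu, v, hv, huv⟩ := h3 ⟨0, by omega⟩ ⟨1, by omega⟩ (by simp [Fin.ext_iff])
  exact h u v huv

end

end Pool.Agent.H64.FR
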